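import Mathlib

/-! Four vectors of a lattice of rank three: some nonempty subset has an even sum. -/

set_option autoImplicit false

namespace Q277.EP

variable {L : Type*} [AddCommGroup L]

/-- twice a vector -/
def Ev (w : L) : Prop := ∃ t : L, t + t = w

theorem Ev.congr {a b t : L} (h : Ev a) (hab : b = a + (t + t)) : Ev b := by
  obtain ⟨s, hs⟩ := h
  exact ⟨s + t, by rw [hab, ← hs]; abel⟩

/-- the property of lattices of rank three -/
def Four (L : Type*) [AddCommGroup L] : Prop := ∀ a b c d : L,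
  Ev a ∨ Ev b ∨ Ev c ∨ Ev d ∨ Ev (a + b) ∨ Ev (a + c) ∨ Ev (a + d) ∨ Ev (b + c) ∨ Ev (b + d) ∨
    Ev (c + d) ∨ Ev (a + b + c) ∨ Ev (a + b + d) ∨ Ev (a + c + d) ∨ Ev (b + c + d) ∨
    Ev (a + b + c + d)

theorem ev_fin {k : ℕ} (w : Fin k → ℤ) (h : ∀ i, (w i : ZMod 2) = 0) : Ev w := by
  have h2 : ∀ i, ∃ r : ℤ, w i = r + r := by
    intro i
    have := (ZMod.intCast_zmod_eq_zero_iff_dvd (w i) 2).1 (h i)
    obtain ⟨r, hr⟩ := this
    exact ⟨r, by rw [hr]; push_cast; ring⟩
  choose r hr using h2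
  exact ⟨r, by funext i; rw [Pi.add_apply, hr]⟩

theorem four_fin3 : Four (Fin 3 → ℤ) := by
  intro a b c d
  have hz : ∀ x : ZMod 2, x = 0 ∨ x = 1 := by decide
  set f : Fin 4 → (Fin 3 → ZMod 2) := ![fun i => (a i : ZMod 2), fun i => (b i : ZMod 2),
    fun i => (c i : ZMod 2), fun i => (d i : ZMod 2)] with hf
  have hdep : ¬ LinearIndependent (ZMod 2) f := by
    intro h
    have := h.fintype_card_le_finrank
    simp at this
  rw [Fintype.not_linearIndependent_iff] at hdep
  obtain ⟨g, hg, i, hi⟩ := hdep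
  rw [Fin.sum_univ_four] at hg
  have key : ∀ j, g 0 * (a j : ZMod 2) + g 1 * (b j : ZMod 2) + g 2 * (c j : ZMod 2) +
      g 3 * (d j : ZMod 2) = 0 := by
    intro j
    have := congrFun hg j
    simpa [hf] using this
  have e1 : ∀ w : Fin 3 → ℤ, (∀ j, (w j : ZMod 2) = 0) → Ev w := fun w => ev_fin w
  rcases hz (g 0) with h0 | h0 <;> rcases hz (g 1) with h1 | h1 <;>
    rcases hz (g 2) with h2 | h2 <;> rcases hz (g 3) with h3 | h3 <;>
    simp only [h0, h1, h2, h3, zero_mul, one_mul, zero_add, add_zero] at key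
  · exfalso
    fin_cases i <;> simp_all
  · exact Or.inr <| Or.inr <| Or.inr <| Or.inl (e1 _ key)
  · exact Or.inr <| Or.inr <| Or.inl (e1 _ key)
  · refine Or.inr <| Or.inr <| Or.inr <| Or.inr <| Or.inr <| Or.inr <| Or.inr <| Or.inr <| Or.inr <|
      Or.inl (e1 _ fun j => ?_)
    rw [← key j]; simp
  · exact Or.inr <| Or.inl (e1 _ key)
  · refine Or.inr <| Or.inr <| Or.inr <| Or.inr <| Or.inr <| Or.inr <| Or.inr <| Or.inr <|
      Or.inl (e1 _ fun j => ?_)
    rw [← key j]; simp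
  · refine Or.inr <| Or.inr <| Or.inr <| Or.inr <| Or.inr <| Or.inr <| Or.inr <|
      Or.inl (e1 _ fun j => ?_)
    rw [← key j]; simp
  · refine Or.inr <| Or.inr <| Or.inr <| Or.inr <| Or.inr <| Or.inr <| Or.inr <| Or.inr <| Or.inr <|
      Or.inr <| Or.inr <| Or.inr <| Or.inr <| Or.inl (e1 _ fun j => ?_)
    rw [← key j]; simp
  · exact Or.inl (e1 _ key)
  · refine Or.inr <| Or.inr <| Or.inr <| Or.inr <| Or.inr <| Or.inr <| Or.inl (e1 _ fun j => ?_)
    rw [← key j]; simp
  · refine Or.inr <| Or.inr <| Or.inr <| Or.inr <| Or.inr <| Or.inl (e1 _ fun j => ?_)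
    rw [← key j]; simp
  · refine Or.inr <| Or.inr <| Or.inr <| Or.inr <| Or.inr <| Or.inr <| Or.inr <| Or.inr <| Or.inr <|
      Or.inr <| Or.inr <| Or.inr <| Or.inl (e1 _ fun j => ?_)
    rw [← key j]; simp
  · refine Or.inr <| Or.inr <| Or.inr <| Or.inr <| Or.inl (e1 _ fun j => ?_)
    rw [← key j]; simp
  · refine Or.inr <| Or.inr <| Or.inr <| Or.inr <| Or.inr <| Or.inr <| Or.inr <| Or.inr <| Or.inr <|
      Or.inr <| Or.inr <| Or.inl (e1 _ fun j => ?_)
    rw [← key j]; simp
  · refine Or.inr <| Or.inr <| Or.inr <| Or.inr <| Or.inr <| Or.inr <| Or.inr <| Or.inr <| Or.inr <|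
      Or.inr <| Or.inl (e1 _ fun j => ?_)
    rw [← key j]; simp
  · refine Or.inr <| Or.inr <| Or.inr <| Or.inr <| Or.inr <| Or.inr <| Or.inr <| Or.inr <| Or.inr <|
      Or.inr <| Or.inr <| Or.inr <| Or.inr <| Or.inr (e1 _ fun j => ?_)
    rw [← key j]; simp

/-- transport along an isomorphism -/
theorem Four.map {M : Type*} [AddCommGroup M] (h : Four L) (e : L ≃+ M) : Four M := by
  have he : ∀ w : L, Ev w → Ev (e w) := by
    rintro w ⟨t, ht⟩
    exact ⟨e t, by rw [← ht, map_add]⟩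
  intro a b c d
  have := h (e.symm a) (e.symm b) (e.symm c) (e.symm d)
  rcases this with h | h | h | h | h | h | h | h | h | h | h | h | h | h | h <;>
    have h := he _ h <;> simp only [map_add, AddEquiv.apply_symm_apply] at h <;> simp only [h, true_or, or_true]

/-- the lattice `ℤ × ℤ²` -/
theorem four_prod : Four ((Fin 1 → ℤ) × (Fin 2 → ℤ)) := by
  refine four_fin3.map ?_
  refine
    { toFun := fun w => (fun _ => w 0, fun i => w i.succ)
      invFun := fun w => ![w.1 0, w.2 0, w.2 1]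
      left_inv := ?_
      right_inv := ?_
      map_add' := ?_ }
  · intro w
    funext i
    fin_cases i <;> simp
  · rintro ⟨x, y⟩
    refine Prod.ext ?_ ?_
    · funext i
      have : i = 0 := Subsingleton.elim _ _
      subst this
      simp
    · funext i
      fin_cases i <;> simp
  · intro w v
    refine Prod.ext ?_ ?_
    · funext i; simp
    · funext i; simp

end Q277.EP
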