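import Mathlib

/-! Four vectors of a plane: a balanced linear relation, and the pairing lemma. -/

set_option autoImplicit false

open Module

namespace Q277.EP

variable {E : Type*} [AddCommGroup E] [Module ℝ E]

/-- the largest of four reals -/
noncomputable def mx (l : Fin 4 → ℝ) : ℝ := max (max (l 0) (l 1)) (max (l 2) (l 3))

/-- the smallest of four reals -/
noncomputable def mn (l : Fin 4 → ℝ) : ℝ := min (min (l 0) (l 1)) (min (l 2) (l 3))

theorem le_mx (l : Fin 4 → ℝ) (i : Fin 4) : l i ≤ mx l := by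
  fin_cases i <;> simp [mx]

theorem mn_le (l : Fin 4 → ℝ) (i : Fin 4) : mn l ≤ l i := by
  fin_cases i <;> simp [mn]

theorem mx_mem (l : Fin 4 → ℝ) : ∃ i, l i = mx l := by
  unfold mx
  rcases max_choice (max (l 0) (l 1)) (max (l 2) (l 3)) with h | h
  · rw [h]
    rcases max_choice (l 0) (l 1) with h | h
    · exact ⟨0, h.symm⟩
    · exact ⟨1, h.symm⟩
  · rw [h]
    rcases max_choice (l 2) (l 3) with h | h
    · exact ⟨2, h.symm⟩
    · exact ⟨3, h.symm⟩

theorem mn_mem (l : Fin 4 → ℝ) : ∃ i, l i = mn l := by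
  unfold mn
  rcases min_choice (min (l 0) (l 1)) (min (l 2) (l 3)) with h | h
  · rw [h]
    rcases min_choice (l 0) (l 1) with h | h
    · exact ⟨0, h.symm⟩
    · exact ⟨1, h.symm⟩
  · rw [h]
    rcases min_choice (l 2) (l 3) with h | h
    · exact ⟨2, h.symm⟩
    · exact ⟨3, h.symm⟩

theorem mx_neg (l : Fin 4 → ℝ) : mx (-l) = - mn l := by
  simp only [mx, mn, Pi.neg_apply, max_neg_neg]

theorem mn_neg (l : Fin 4 → ℝ) : mn (-l) = - mx l := by
  simp only [mx, mn, Pi.neg_apply, min_neg_neg]

/-- Four vectors of a space of dimension at most two satisfy a relation whose largest coefficient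
is `1` and whose smallest coefficient is `-1`. -/
theorem exists_rel [FiniteDimensional ℝ E] (hE : finrank ℝ E ≤ 2) (p : Fin 4 → E) :
    ∃ l : Fin 4 → ℝ, ∑ i, l i • p i = 0 ∧ (∀ i, |l i| ≤ 1) ∧ ∃ i j, l i = 1 ∧ l j = -1 := by
  set T : (Fin 4 → ℝ) →ₗ[ℝ] E := ∑ i, (LinearMap.proj i : (Fin 4 → ℝ) →ₗ[ℝ] ℝ).smulRight (p i)
    with hT
  have hTa : ∀ l, T l = ∑ i, l i • p i := by
    intro l; rw [hT]; simp
  have hfr : 2 ≤ finrank ℝ (LinearMap.ker T) := by
    have h1 := LinearMap.finrank_range_add_finrank_ker T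
    have h2 : finrank ℝ (LinearMap.range T) ≤ finrank ℝ E := Submodule.finrank_le _
    rw [Module.finrank_fin_fun] at h1
    omega
  have hrk : 1 < Module.rank ℝ (LinearMap.ker T) := by
    rw [← Module.finrank_eq_rank]
    exact_mod_cast hfr
  have hpre : IsPreconnected ({0}ᶜ : Set (LinearMap.ker T)) :=
    (isConnected_compl_singleton_of_one_lt_rank hrk 0).isPreconnected
  set f : LinearMap.ker T → ℝ := fun l => mx l.1 + mn l.1 with hf
  have hfc : Continuous f := by
    have hc : ∀ i : Fin 4, Continuous fun l : LinearMap.ker T => l.1 i := fun i =>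
      (continuous_apply i).comp continuous_subtype_val
    exact (((hc 0).max (hc 1)).max ((hc 2).max (hc 3))).add
      (((hc 0).min (hc 1)).min ((hc 2).min (hc 3)))
  have hneg : ∀ l, f (-l) = - f l := by
    intro l
    simp only [hf]
    rw [show ((-l : LinearMap.ker T) : Fin 4 → ℝ) = -l.1 from rfl, mx_neg, mn_neg]
    ring
  obtain ⟨v, hv⟩ : ∃ v : LinearMap.ker T, v ≠ 0 := by
    have : Nontrivial (LinearMap.ker T) := by
      apply Module.nontrivial_of_finrank_pos (R := ℝ)
      omega
    exact exists_ne 0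
  obtain ⟨l, hl0, hl⟩ : ∃ l : LinearMap.ker T, l ≠ 0 ∧ f l = 0 := by
    rcases le_total (f v) 0 with h | h
    · have := hpre.intermediate_value (a := v) (b := -v) (by simpa using hv) (by simpa using hv)
        hfc.continuousOn
      obtain ⟨l, hl, hl2⟩ := this (show (0 : ℝ) ∈ Set.Icc (f v) (f (-v)) by
        rw [hneg]; exact ⟨h, by linarith⟩)
      exact ⟨l, by simpa using hl, hl2⟩
    · have := hpre.intermediate_value (a := -v) (b := v) (by simpa using hv) (by simpa using hv)
        hfc.continuousOn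
      obtain ⟨l, hl, hl2⟩ := this (show (0 : ℝ) ∈ Set.Icc (f (-v)) (f v) by
        rw [hneg]; exact ⟨by linarith, h⟩)
      exact ⟨l, by simpa using hl, hl2⟩
  set t := mx l.1 with ht
  have hmn : mn l.1 = -t := by simp only [hf] at hl; linarith
  have hb : ∀ i, |l.1 i| ≤ t := fun i => by
    rw [abs_le]; exact ⟨by rw [← hmn]; exact mn_le _ i, le_mx _ i⟩
  have ht0 : 0 < t := by
    by_contra hc
    push Not at hc
    apply hl0
    apply Subtype.ext
    funext i
    have := (hb i).trans hc
    simpa using this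
  obtain ⟨i, hi⟩ := mx_mem l.1
  obtain ⟨j, hj⟩ := mn_mem l.1
  refine ⟨fun k => t⁻¹ * l.1 k, ?_, ?_, i, j, ?_, ?_⟩
  · have h1 : T l.1 = 0 := l.2
    rw [hTa] at h1
    simp only [mul_smul]
    rw [← Finset.smul_sum, h1, smul_zero]
  · intro k
    rw [abs_mul, abs_inv, abs_of_pos ht0, inv_mul_le_iff₀ ht0, mul_one]
    exact hb k
  · simp only; rw [hi, ← ht]; exact inv_mul_cancel₀ ht0.ne'
  · simp only; rw [hj, hmn, mul_neg, inv_mul_cancel₀ ht0.ne']

/-- one pair of the relation -/
theorem pair_aux {N : E → ℝ} (hadd : ∀ x y, N (x + y) ≤ N x + N y)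
    (hsm : ∀ (r : ℝ) x, N (r • x) = |r| * N x) {a b c d : E} {s t r : ℝ}
    (hrel : a - b + s • c + t • d = 0) (hs : |s| ≤ 1) (ht : |t| ≤ 1) (hr : N c + N d < 2 * r) :
    N (a + c - b - d) < 2 * r ∨ N (a + d - b - c) < 2 * r := by
  rw [abs_le] at hs ht
  have e1 : a + c - b - d = (1 - s) • c + (-(1 + t)) • d := by
    have : a - b = -(s • c + t • d) := by
      rw [add_assoc] at hrel; exact eq_neg_of_add_eq_zero_left hrel
    calc a + c - b - d = (a - b) + c - d := by abel
      _ = _ := by rw [this]; module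
  have e2 : a + d - b - c = (1 - t) • d + (-(1 + s)) • c := by
    have : a - b = -(s • c + t • d) := by
      rw [add_assoc] at hrel; exact eq_neg_of_add_eq_zero_left hrel
    calc a + d - b - c = (a - b) + d - c := by abel
      _ = _ := by rw [this]; module
  have b1 : N (a + c - b - d) ≤ (1 - s) * N c + (1 + t) * N d := by
    rw [e1]
    refine (hadd _ _).trans ?_
    rw [hsm, hsm, abs_of_nonneg (by linarith), abs_neg, abs_of_nonneg (by linarith)]
  have b2 : N (a + d - b - c) ≤ (1 - t) * N d + (1 + s) * N c := by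
    rw [e2]
    refine (hadd _ _).trans ?_
    rw [hsm, hsm, abs_of_nonneg (by linarith), abs_neg, abs_of_nonneg (by linarith)]
  by_contra hcon
  push Not at hcon
  linarith

/-- The pairing lemma. -/
theorem pairing [FiniteDimensional ℝ E] (hE : finrank ℝ E ≤ 2) {N : E → ℝ}
    (hadd : ∀ x y, N (x + y) ≤ N x + N y) (hsm : ∀ (r : ℝ) x, N (r • x) = |r| * N x)
    {p0 p1 p2 p3 : E} {r : ℝ} (h0 : N p0 ≤ r) (h1 : N p1 < r) (h2 : N p2 < r) (h3 : N p3 < r) :
    N (p0 + p1 - p2 - p3) < 2 * r ∨ N (p0 + p2 - p1 - p3) < 2 * r ∨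
      N (p0 + p3 - p1 - p2) < 2 * r := by
  have hneg : ∀ x, N (-x) = N x := fun x => by
    have := hsm (-1) x
    simpa using this
  obtain ⟨l, hl, hb, i, j, hi, hj⟩ := exists_rel hE ![p0, p1, p2, p3]
  rw [Fin.sum_univ_four] at hl
  simp only [Matrix.cons_val_zero, Matrix.cons_val_one, Matrix.cons_val] at hl
  have hij : i ≠ j := by
    rintro rfl; rw [hi] at hj; norm_num at hj
  have b0 := hb 0
  have b1 := hb 1
  have b2 := hb 2
  have b3 := hb 3
  fin_cases i <;> fin_cases j <;> simp only [Fin.zero_eta, Fin.mk_one, Fin.reduceFinMk] at hi hj hij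
  all_goals first | exact absurd rfl hij | rw [hi, hj] at hl
  -- 0 1
  · rcases pair_aux hadd hsm (a := p0) (b := p1) (c := p2) (d := p3) (s := l 2) (t := l 3) (r := r)
      (by rw [← hl]; module) b2 b3 (by linarith) with h | h
    · right; left; exact h
    · right; right; exact h
  -- 0 2
  · rcases pair_aux hadd hsm (a := p0) (b := p2) (c := p1) (d := p3) (s := l 1) (t := l 3) (r := r)
      (by rw [← hl]; module) b1 b3 (by linarith) with h | h
    · left; exact h
    · right; right
      rw [show p0 + p3 - p1 - p2 = p0 + p3 - p2 - p1 by abel]; exact h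
  -- 0 3
  · rcases pair_aux hadd hsm (a := p0) (b := p3) (c := p1) (d := p2) (s := l 1) (t := l 2) (r := r)
      (by rw [← hl]; module) b1 b2 (by linarith) with h | h
    · left
      rw [show p0 + p1 - p2 - p3 = p0 + p1 - p3 - p2 by abel]; exact h
    · right; left
      rw [show p0 + p2 - p1 - p3 = p0 + p2 - p3 - p1 by abel]; exact h
  -- 1 0
  · rcases pair_aux hadd hsm (a := p1) (b := p0) (c := p2) (d := p3) (s := l 2) (t := l 3) (r := r)
      (by rw [← hl]; module) b2 b3 (by linarith) with h | h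
    · right; right
      rw [← hneg, show -(p0 + p3 - p1 - p2) = p1 + p2 - p0 - p3 by abel]; exact h
    · right; left
      rw [← hneg, show -(p0 + p2 - p1 - p3) = p1 + p3 - p0 - p2 by abel]; exact h
  -- 1 2
  · rcases pair_aux hadd hsm (a := p1) (b := p2) (c := p0) (d := p3) (s := l 0) (t := l 3) (r := r)
      (by rw [← hl]; module) b0 b3 (by linarith) with h | h
    · left
      rw [show p0 + p1 - p2 - p3 = p1 + p0 - p2 - p3 by abel]; exact h
    · right; left
      rw [← hneg, show -(p0 + p2 - p1 - p3) = p1 + p3 - p2 - p0 by abel]; exact h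
  -- 1 3
  · rcases pair_aux hadd hsm (a := p1) (b := p3) (c := p0) (d := p2) (s := l 0) (t := l 2) (r := r)
      (by rw [← hl]; module) b0 b2 (by linarith) with h | h
    · left
      rw [show p0 + p1 - p2 - p3 = p1 + p0 - p3 - p2 by abel]; exact h
    · right; right
      rw [← hneg, show -(p0 + p3 - p1 - p2) = p1 + p2 - p3 - p0 by abel]; exact h
  -- 2 0
  · rcases pair_aux hadd hsm (a := p2) (b := p0) (c := p1) (d := p3) (s := l 1) (t := l 3) (r := r)
      (by rw [← hl]; module) b1 b3 (by linarith) with h | h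
    · right; right
      rw [← hneg, show -(p0 + p3 - p1 - p2) = p2 + p1 - p0 - p3 by abel]; exact h
    · left
      rw [← hneg, show -(p0 + p1 - p2 - p3) = p2 + p3 - p0 - p1 by abel]; exact h
  -- 2 1
  · rcases pair_aux hadd hsm (a := p2) (b := p1) (c := p0) (d := p3) (s := l 0) (t := l 3) (r := r)
      (by rw [← hl]; module) b0 b3 (by linarith) with h | h
    · right; left
      rw [show p0 + p2 - p1 - p3 = p2 + p0 - p1 - p3 by abel]; exact h
    · left
      rw [← hneg, show -(p0 + p1 - p2 - p3) = p2 + p3 - p1 - p0 by abel]; exact h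
  -- 2 3
  · rcases pair_aux hadd hsm (a := p2) (b := p3) (c := p0) (d := p1) (s := l 0) (t := l 1) (r := r)
      (by rw [← hl]; module) b0 b1 (by linarith) with h | h
    · right; left
      rw [show p0 + p2 - p1 - p3 = p2 + p0 - p3 - p1 by abel]; exact h
    · right; right
      rw [← hneg, show -(p0 + p3 - p1 - p2) = p2 + p1 - p3 - p0 by abel]; exact h
  -- 3 0
  · rcases pair_aux hadd hsm (a := p3) (b := p0) (c := p1) (d := p2) (s := l 1) (t := l 2) (r := r)
      (by rw [← hl]; module) b1 b2 (by linarith) with h | h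
    · right; left
      rw [← hneg, show -(p0 + p2 - p1 - p3) = p3 + p1 - p0 - p2 by abel]; exact h
    · left
      rw [← hneg, show -(p0 + p1 - p2 - p3) = p3 + p2 - p0 - p1 by abel]; exact h
  -- 3 1
  · rcases pair_aux hadd hsm (a := p3) (b := p1) (c := p0) (d := p2) (s := l 0) (t := l 2) (r := r)
      (by rw [← hl]; module) b0 b2 (by linarith) with h | h
    · right; right
      rw [show p0 + p3 - p1 - p2 = p3 + p0 - p1 - p2 by abel]; exact h
    · left
      rw [← hneg, show -(p0 + p1 - p2 - p3) = p3 + p2 - p1 - p0 by abel]; exact h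
  -- 3 2
  · rcases pair_aux hadd hsm (a := p3) (b := p2) (c := p0) (d := p1) (s := l 0) (t := l 1) (r := r)
      (by rw [← hl]; module) b0 b1 (by linarith) with h | h
    · right; right
      rw [show p0 + p3 - p1 - p2 = p3 + p0 - p2 - p1 by abel]; exact h
    · right; left
      rw [← hneg, show -(p0 + p2 - p1 - p3) = p3 + p1 - p2 - p0 by abel]; exact h

end Q277.EP
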