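import Mathlib
import Pool.Agent.Q277.EP.Planar
import Pool.Agent.Q277.EP.Parity

/-! Chains of best approximations in the plane with respect to a Euclidean norm: the structure at a
slow step. -/

set_option autoImplicit false

namespace Q277.EP

variable {L : Type*} [AddCommGroup L]

/-- the square of the Euclidean length -/
def Q (u v : L →+ ℝ) (w : L) : ℝ := u w ^ 2 + v w ^ 2

/-- the chain of the best approximations: the boxes are empty -/
structure Chain (X u v : L →+ ℝ) (z : ℕ → L) : Prop where
  pos : ∀ i, 0 < X (z i)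
  mono : ∀ i, X (z i) < X (z (i + 1))
  anti : ∀ i, Q u v (z (i + 1)) < Q u v (z i)
  emp : ∀ i w, w ≠ 0 → |X w| < X (z (i + 1)) → Q u v (z i) ≤ Q u v w
  four : Four L

variable {X u v : L →+ ℝ} {z : ℕ → L}

theorem Q_nonneg (w : L) : 0 ≤ Q u v w := by unfold Q; positivity

theorem Chain.shift (h : Chain X u v z) (n : ℕ) : Chain X u v fun i => z (n + i) where
  pos _ := h.pos _
  mono _ := h.mono _
  anti _ := h.anti _
  emp _ := h.emp _
  four := h.four

theorem Chain.E (h : Chain X u v z) (i : ℕ) {w : L} (h0 : X w ≠ 0) (h1 : X w < X (z (i + 1)))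
    (h2 : - X (z (i + 1)) < X w) : Q u v (z i) ≤ Q u v w := by
  refine h.emp i w ?_ (abs_lt.2 ⟨h2, h1⟩)
  rintro rfl
  exact h0 (map_zero X)

theorem half_eq {f : L →+ ℝ} {t w : L} (ht : t + t = w) : f t = f w / 2 := by
  rw [← ht, map_add]; ring

theorem trip {a b c t : L} (ht : t + t = a + b + c) :
    Q u v t + Q u v (t - a) + Q u v (t - b) + Q u v (t - c) = Q u v a + Q u v b + Q u v c := by
  unfold Q
  simp only [map_sub, half_eq ht, map_add]
  ring

theorem pair {a b t : L} (ht : t + t = a + b) :
    Q u v t + Q u v (t - a) = (Q u v a + Q u v b) / 2 := by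
  unfold Q
  simp only [map_sub, half_eq ht, map_add]
  ring

theorem Chain.not_single (h : Chain X u v z) (i : ℕ) : ¬ Ev (z i) := by
  rintro ⟨t, ht⟩
  have hp := h.pos i
  have hm := h.mono i
  have hX := half_eq (f := X) ht
  have h1 := h.E i (w := t) (by rw [hX]; positivity) (by rw [hX]; linarith) (by rw [hX]; linarith)
  have h2 : Q u v t = Q u v (z i) / 4 := by
    unfold Q
    rw [half_eq (f := u) ht, half_eq (f := v) ht]; ring
  have h3 := h.anti i
  have h4 := Q_nonneg (u := u) (v := v) (z (i + 1))
  rw [h2] at h1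
  linarith

theorem Chain.pair_bd (h : Chain X u v z) {i : ℕ} {a b : L} (ha : a = z i)
    (hij : X a < X b) (hQ : Q u v b < Q u v a) (he : Ev (a + b)) :
    2 * X (z (i + 1)) + X a ≤ X b := by
  by_contra hc
  push Not at hc
  obtain ⟨t, ht⟩ := he
  have hp := h.pos i
  have hm := h.mono i
  have hX : X (t - a) = (X b - X a) / 2 := by rw [map_sub, half_eq ht, map_add]; ring
  have h1 := h.E i (w := t - a) (by rw [hX]; intro h0; linarith) (by rw [hX]; linarith)
    (by rw [hX]; linarith)
  have h2 := pair (u := u) (v := v) ht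
  have h3 := Q_nonneg (u := u) (v := v) t
  rw [← ha] at h1
  linarith

/-- Step 1: the relation at a slow step. -/
theorem Chain.rel (h : Chain X u v z) (hs : X (z 6) < X (z 3) + X (z 4)) :
    z 6 = z 4 + z 5 - z 3 := by
  have p3 := h.pos 3
  have m3 := h.mono 3
  have m4 := h.mono 4
  have m5 := h.mono 5
  have a3 := h.anti 3
  have a4 := h.anti 4
  have a5 := h.anti 5
  have a2 := h.anti 2
  simp only [show (3 : ℕ) + 1 = 4 from rfl, show (4 : ℕ) + 1 = 5 from rfl,
    show (5 : ℕ) + 1 = 6 from rfl, show (2 : ℕ) + 1 = 3 from rfl] at m3 m4 m5 a2 a3 a4 a5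
  have ht4 : Ev (z 3 + z 4 + z 5 + z 6) := by
    rcases h.four (z 3) (z 4) (z 5) (z 6) with e | e | e | e | e | e | e | e | e | e | e | e | e | e | e
    · exact absurd e (h.not_single 3)
    · exact absurd e (h.not_single 4)
    · exact absurd e (h.not_single 5)
    · exact absurd e (h.not_single 6)
    · have := h.pair_bd (i := 3) rfl (by linarith) (by linarith) e
      simp only [show (3 : ℕ) + 1 = 4 from rfl] at this
      linarith
    · have := h.pair_bd (i := 3) rfl (by linarith) (by linarith) e
      simp only [show (3 : ℕ) + 1 = 4 from rfl] at this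
      linarith
    · have := h.pair_bd (i := 3) rfl (by linarith) (by linarith) e
      simp only [show (3 : ℕ) + 1 = 4 from rfl] at this
      linarith
    · have := h.pair_bd (i := 4) rfl (by linarith) (by linarith) e
      simp only [show (4 : ℕ) + 1 = 5 from rfl] at this
      linarith
    · have := h.pair_bd (i := 4) rfl (by linarith) (by linarith) e
      simp only [show (4 : ℕ) + 1 = 5 from rfl] at this
      linarith
    · have := h.pair_bd (i := 5) rfl (by linarith) (by linarith) e
      simp only [show (5 : ℕ) + 1 = 6 from rfl] at this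
      linarith
    · -- 3 4 5
      obtain ⟨t, ht⟩ := e
      have q := trip (u := u) (v := v) ht
      have x0 : X t = (X (z 3) + X (z 4) + X (z 5)) / 2 := by rw [half_eq ht, map_add, map_add]
      have x1 : X (t - z 3) = (X (z 4) + X (z 5) - X (z 3)) / 2 := by rw [map_sub, x0]; ring
      have x2 : X (t - z 4) = (X (z 3) + X (z 5) - X (z 4)) / 2 := by rw [map_sub, x0]; ring
      have x3 : X (t - z 5) = (X (z 3) + X (z 4) - X (z 5)) / 2 := by rw [map_sub, x0]; ring
      have e1 := h.E 3 (w := t - z 3) (by rw [x1]; intro; linarith) (by rw [x1]; linarith)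
        (by rw [x1]; linarith)
      have e2 := h.E 3 (w := t - z 4) (by rw [x2]; intro; linarith) (by rw [x2]; linarith)
        (by rw [x2]; linarith)
      have e3 := h.E 3 (w := t - z 5) (by rw [x3]; intro; linarith) (by rw [x3]; linarith)
        (by rw [x3]; linarith)
      have := Q_nonneg (u := u) (v := v) t
      linarith
    · -- 3 4 6
      obtain ⟨t, ht⟩ := e
      have q := trip (u := u) (v := v) ht
      have x0 : X t = (X (z 3) + X (z 4) + X (z 6)) / 2 := by rw [half_eq ht, map_add, map_add]
      have x1 : X (t - z 3) = (X (z 4) + X (z 6) - X (z 3)) / 2 := by rw [map_sub, x0]; ring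
      have x2 : X (t - z 4) = (X (z 3) + X (z 6) - X (z 4)) / 2 := by rw [map_sub, x0]; ring
      have x3 : X (t - z 6) = (X (z 3) + X (z 4) - X (z 6)) / 2 := by rw [map_sub, x0]; ring
      have e1 := h.E 3 (w := t - z 3) (by rw [x1]; intro; linarith) (by rw [x1]; linarith)
        (by rw [x1]; linarith)
      have e2 := h.E 3 (w := t - z 4) (by rw [x2]; intro; linarith) (by rw [x2]; linarith)
        (by rw [x2]; linarith)
      have e3 := h.E 3 (w := t - z 6) (by rw [x3]; intro; linarith) (by rw [x3]; linarith)
        (by rw [x3]; linarith)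
      have := Q_nonneg (u := u) (v := v) t
      linarith
    · -- 3 5 6
      obtain ⟨t, ht⟩ := e
      have q := trip (u := u) (v := v) ht
      have x0 : X t = (X (z 3) + X (z 5) + X (z 6)) / 2 := by rw [half_eq ht, map_add, map_add]
      have x1 : X (t - z 3) = (X (z 5) + X (z 6) - X (z 3)) / 2 := by rw [map_sub, x0]; ring
      have x2 : X (t - z 5) = (X (z 3) + X (z 6) - X (z 5)) / 2 := by rw [map_sub, x0]; ring
      have x3 : X (t - z 6) = (X (z 3) + X (z 5) - X (z 6)) / 2 := by rw [map_sub, x0]; ring
      have e1 := h.E 4 (w := t - z 3) (by rw [x1]; intro; linarith) (by rw [x1]; linarith)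
        (by rw [x1]; linarith)
      have e2 := h.E 2 (w := t - z 5) (by rw [x2]; intro; linarith) (by rw [x2]; linarith)
        (by rw [x2]; linarith)
      have e3 := h.E 2 (w := t - z 6) (by rw [x3]; intro; linarith) (by rw [x3]; linarith)
        (by rw [x3]; linarith)
      have := Q_nonneg (u := u) (v := v) t
      linarith
    · -- 4 5 6
      obtain ⟨t, ht⟩ := e
      have q := trip (u := u) (v := v) ht
      have x0 : X t = (X (z 4) + X (z 5) + X (z 6)) / 2 := by rw [half_eq ht, map_add, map_add]
      have x1 : X (t - z 4) = (X (z 5) + X (z 6) - X (z 4)) / 2 := by rw [map_sub, x0]; ring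
      have x2 : X (t - z 5) = (X (z 4) + X (z 6) - X (z 5)) / 2 := by rw [map_sub, x0]; ring
      have x3 : X (t - z 6) = (X (z 4) + X (z 5) - X (z 6)) / 2 := by rw [map_sub, x0]; ring
      have e1 := h.E 4 (w := t - z 4) (by rw [x1]; intro; linarith) (by rw [x1]; linarith)
        (by rw [x1]; linarith)
      have e2 := h.E 3 (w := t - z 5) (by rw [x2]; intro; linarith) (by rw [x2]; linarith)
        (by rw [x2]; linarith)
      have e3 := h.E 3 (w := t - z 6) (by rw [x3]; intro; linarith) (by rw [x3]; linarith)
        (by rw [x3]; linarith)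
      have := Q_nonneg (u := u) (v := v) t
      linarith
    · exact e
  obtain ⟨t, ht⟩ := ht4
  have x0 : X t = (X (z 3) + X (z 4) + X (z 5) + X (z 6)) / 2 := by
    rw [half_eq ht, map_add, map_add, map_add]
  -- the pairing lemma in `ℂ`
  set c : L → ℂ := fun w => ⟨u w, v w⟩ with hc
  have hcn : ∀ w, ‖c w‖ ^ 2 = Q u v w := by
    intro w
    rw [Complex.sq_norm, Complex.normSq_apply]
    simp only [hc, Q]; ring
  have hsq : ∀ a b : L, Q u v a < Q u v b → ‖c a‖ < ‖c b‖ := by
    intro a b hab
    rw [← hcn, ← hcn] at hab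
    exact lt_of_pow_lt_pow_left₀ 2 (norm_nonneg _) hab
  have hp := pairing (E := ℂ) (N := fun x => ‖x‖) (by rw [Complex.finrank_real_complex])
    (fun x y => norm_add_le x y) (fun r x => by rw [norm_smul, Real.norm_eq_abs])
    (p0 := c (z 3)) (p1 := c (z 4)) (p2 := c (z 5)) (p3 := c (z 6)) (r := ‖c (z 3)‖) le_rfl
    (hsq _ _ a3) (hsq _ _ (a4.trans a3)) (hsq _ _ ((a5.trans a4).trans a3))
  have hq3 : ∀ y : L, ‖c y‖ < ‖c (z 3)‖ → Q u v y < Q u v (z 3) := by
    intro y hy
    rw [← hcn, ← hcn]
    exact pow_lt_pow_left₀ hy (norm_nonneg _) (by norm_num)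
  rcases hp with g | g | g
  · -- z3 + z4 - z5 - z6
    exfalso
    have hy : ‖c (t - z 3 - z 4)‖ < ‖c (z 3)‖ := by
      have e : c (z 3) + c (z 4) - c (z 5) - c (z 6) = -((2 : ℝ) • c (t - z 3 - z 4)) := by
        apply Complex.ext
        · simp only [hc, Complex.add_re, Complex.sub_re, Complex.neg_re, Complex.real_smul,
            Complex.mul_re, Complex.ofReal_re, Complex.ofReal_im, map_sub, half_eq ht, map_add]
          ring
        · simp only [hc, Complex.add_im, Complex.sub_im, Complex.neg_im, Complex.real_smul,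
            Complex.mul_im, Complex.ofReal_re, Complex.ofReal_im, map_sub, half_eq ht, map_add]
          ring
      rw [e, norm_neg, norm_smul, Real.norm_eq_abs, abs_of_pos (by norm_num)] at g
      linarith
    have x1 : X (t - z 3 - z 4) = (X (z 5) + X (z 6) - X (z 3) - X (z 4)) / 2 := by
      rw [map_sub, map_sub, x0]; ring
    have := h.E 3 (w := t - z 3 - z 4) (by rw [x1]; intro; linarith) (by rw [x1]; linarith)
        (by rw [x1]; linarith)
    exact absurd (hq3 _ hy) (not_lt.2 this)
  · exfalso
    have hy : ‖c (t - z 3 - z 5)‖ < ‖c (z 3)‖ := by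
      have e : c (z 3) + c (z 5) - c (z 4) - c (z 6) = -((2 : ℝ) • c (t - z 3 - z 5)) := by
        apply Complex.ext
        · simp only [hc, Complex.add_re, Complex.sub_re, Complex.neg_re, Complex.real_smul,
            Complex.mul_re, Complex.ofReal_re, Complex.ofReal_im, map_sub, half_eq ht, map_add]
          ring
        · simp only [hc, Complex.add_im, Complex.sub_im, Complex.neg_im, Complex.real_smul,
            Complex.mul_im, Complex.ofReal_re, Complex.ofReal_im, map_sub, half_eq ht, map_add]
          ring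
      rw [e, norm_neg, norm_smul, Real.norm_eq_abs, abs_of_pos (by norm_num)] at g
      linarith
    have x1 : X (t - z 3 - z 5) = (X (z 4) + X (z 6) - X (z 3) - X (z 5)) / 2 := by
      rw [map_sub, map_sub, x0]; ring
    have := h.E 3 (w := t - z 3 - z 5) (by rw [x1]; intro; linarith) (by rw [x1]; linarith)
        (by rw [x1]; linarith)
    exact absurd (hq3 _ hy) (not_lt.2 this)
  · have hy : ‖c (t - z 3 - z 6)‖ < ‖c (z 3)‖ := by
      have e : c (z 3) + c (z 6) - c (z 4) - c (z 5) = -((2 : ℝ) • c (t - z 3 - z 6)) := by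
        apply Complex.ext
        · simp only [hc, Complex.add_re, Complex.sub_re, Complex.neg_re, Complex.real_smul,
            Complex.mul_re, Complex.ofReal_re, Complex.ofReal_im, map_sub, half_eq ht, map_add]
          ring
        · simp only [hc, Complex.add_im, Complex.sub_im, Complex.neg_im, Complex.real_smul,
            Complex.mul_im, Complex.ofReal_re, Complex.ofReal_im, map_sub, half_eq ht, map_add]
          ring
      rw [e, norm_neg, norm_smul, Real.norm_eq_abs, abs_of_pos (by norm_num)] at g
      linarith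
    have x1 : X (t - z 3 - z 6) = (X (z 4) + X (z 5) - X (z 3) - X (z 6)) / 2 := by
      rw [map_sub, map_sub, x0]; ring
    have h0 : t - z 3 - z 6 = 0 := by
      by_contra hne
      have := h.emp 3 (t - z 3 - z 6) hne (abs_lt.2 ⟨by
        rw [x1]; simp only [show (3 : ℕ) + 1 = 4 from rfl]; linarith, by
        rw [x1]; simp only [show (3 : ℕ) + 1 = 4 from rfl]; linarith⟩)
      exact absurd (hq3 _ hy) (not_lt.2 this)
    have h1 : t = z 3 + z 6 := by
      rw [sub_sub, sub_eq_zero] at h0; exact h0
    have h2 : z 3 + z 6 = z 4 + z 5 := by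
      have : (z 3 + z 6) + (z 3 + z 6) = (z 3 + z 6) + (z 4 + z 5) := by
        rw [← h1, ht, h1]; abel
      exact add_left_cancel this
    rw [← h2]; abel

end Q277.EP
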