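import Mathlib
import Pool.Agent.TH970.GB.Core
import Pool.Agent.Q277.EP.Parity

/-! From the best approximation vectors of a pair of numbers to chains with empty boxes. -/

set_option autoImplicit false

open Filter Topology Pool.Agent.TH970.GB

namespace Q277.EP

/-- the lattice -/
abbrev Lat : Type := (Fin 1 → ℤ) × (Fin 2 → ℤ)

/-- the chain with respect to a function `N` of the lattice points -/
structure NChain {L : Type*} [AddCommGroup L] (X : L →+ ℝ) (N : L → ℝ) (z : ℕ → L) : Prop where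
  pos : ∀ i, 0 < X (z i)
  mono : ∀ i, X (z i) < X (z (i + 1))
  anti : ∀ i, N (z (i + 1)) < N (z i)
  emp : ∀ i w, w ≠ 0 → |X w| < X (z (i + 1)) → N (z i) ≤ N w
  four : Four L

/-- the first coordinate -/
def X0 : Lat →+ ℝ where
  toFun w := (w.1 0 : ℝ)
  map_zero' := by simp
  map_add' a b := by simp

@[simp] theorem X0_apply (w : Lat) : X0 w = (w.1 0 : ℝ) := rfl

/-- the error vector, as an additive map -/
noncomputable def Ve (Θ : Matrix (Fin 2) (Fin 1) ℝ) : Lat →+ (Fin 2 → ℝ) where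
  toFun w := vec Θ w
  map_zero' := by
    have := vec_sub Θ (0 : Lat) 0
    rw [sub_self, sub_self] at this
    exact this
  map_add' a b := by
    have h := vec_sub Θ (a + b) b
    rw [add_sub_cancel_right] at h
    rw [h]; abel

@[simp] theorem Ve_apply (Θ : Matrix (Fin 2) (Fin 1) ℝ) (w : Lat) : Ve Θ w = vec Θ w := rfl

theorem norm_low {k : ℕ} {N : (Fin k → ℝ) → ℝ} (h : IsNorm N) :
    ∃ c : ℝ, 0 < c ∧ ∀ v, c * ‖v‖ ≤ N v := by
  -- `N` is continuous
  have hneg : ∀ v, N (-v) = N v := by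
    intro v
    have := h.smul (-1) v
    simpa using this
  have hup : ∃ B : ℝ, 0 ≤ B ∧ ∀ v, N v ≤ B * ‖v‖ := by
    refine ⟨∑ i, N (Pi.single i 1), Finset.sum_nonneg fun i _ => h.nonneg _, fun v => ?_⟩
    have e : v = ∑ i, v i • (Pi.single i 1 : Fin k → ℝ) := by
      funext j
      simp [Finset.sum_apply, Pi.single_apply]
    have hs : ∀ (s : Finset (Fin k)) (f : Fin k → (Fin k → ℝ)), N (∑ i ∈ s, f i) ≤
        ∑ i ∈ s, N (f i) := by
      intro s f
      induction s using Finset.induction_on with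
      | empty => simp [(h.zero_iff 0).2 rfl]
      | insert a s ha ih =>
        rw [Finset.sum_insert ha, Finset.sum_insert ha]
        exact (h.add_le _ _).trans (by linarith)
    calc N v = N (∑ i, v i • (Pi.single i 1 : Fin k → ℝ)) := by rw [← e]
      _ ≤ ∑ i, N (v i • (Pi.single i 1 : Fin k → ℝ)) := hs _ _
      _ ≤ ∑ i, N (Pi.single i 1) * ‖v‖ := by
          refine Finset.sum_le_sum fun i _ => ?_
          rw [h.smul, mul_comm]
          refine mul_le_mul_of_nonneg_left ?_ (h.nonneg _)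
          rw [← Real.norm_eq_abs]
          exact norm_le_pi_norm v i
      _ = _ := by rw [Finset.sum_mul]
  obtain ⟨B, hB, hup⟩ := hup
  have hcont : Continuous N := by
    have hl : LipschitzWith B.toNNReal N := by
      refine LipschitzWith.of_dist_le_mul fun x y => ?_
      rw [Real.dist_eq, dist_eq_norm, abs_le]
      have e1 := h.add_le (x - y) y
      have e2 := h.add_le (y - x) x
      rw [sub_add_cancel] at e1 e2
      have e3 := hup (x - y)
      have e4 : N (y - x) = N (x - y) := by rw [← hneg, neg_sub]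
      rw [Real.coe_toNNReal B hB]
      constructor <;> linarith
    exact hl.continuous
  rcases Nat.eq_zero_or_pos k with rfl | hk
  · refine ⟨1, one_pos, fun v => ?_⟩
    have : v = 0 := Subsingleton.elim _ _
    rw [this, norm_zero, mul_zero]
    exact h.nonneg _
  have hne : (Metric.sphere (0 : Fin k → ℝ) 1).Nonempty := by
    have : Nonempty (Fin k) := ⟨⟨0, hk⟩⟩
    refine ⟨fun _ => 1, ?_⟩
    simp
  obtain ⟨p, hp, hmin⟩ := (isCompact_sphere (0 : Fin k → ℝ) 1).exists_isMinOn hne hcont.continuousOn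
  have hp0 : p ≠ 0 := by
    rintro rfl
    simp at hp
  have hNp : 0 < N p := lt_of_le_of_ne (h.nonneg p) fun e => hp0 ((h.zero_iff p).1 e.symm)
  refine ⟨N p, hNp, fun v => ?_⟩
  rcases eq_or_ne v 0 with rfl | hv
  · rw [norm_zero, mul_zero]; exact h.nonneg _
  have hv' : 0 < ‖v‖ := norm_pos_iff.2 hv
  have h1 : ‖v‖⁻¹ • v ∈ Metric.sphere (0 : Fin k → ℝ) 1 := by
    rw [mem_sphere_zero_iff_norm, norm_smul, norm_inv, norm_norm]
    exact inv_mul_cancel₀ hv'.ne'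
  have h2 : N p ≤ N (‖v‖⁻¹ • v) := hmin h1
  rw [h.smul, abs_of_pos (inv_pos.2 hv')] at h2
  calc N p * ‖v‖ ≤ (‖v‖⁻¹ * N v) * ‖v‖ := mul_le_mul_of_nonneg_right h2 hv'.le
    _ = N v := by field_simp

theorem norm_up {k : ℕ} {N : (Fin k → ℝ) → ℝ} (h : IsNorm N) :
    ∃ B : ℝ, 0 < B ∧ ∀ v, N v ≤ B * ‖v‖ := by
  refine ⟨∑ i, N (Pi.single i 1) + 1, ?_, fun v => ?_⟩
  · have := Finset.sum_nonneg (s := (Finset.univ : Finset (Fin k))) fun i _ =>
      h.nonneg (Pi.single i 1)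
    linarith
  have e : v = ∑ i, v i • (Pi.single i 1 : Fin k → ℝ) := by
    funext j
    simp [Finset.sum_apply, Pi.single_apply]
  have hs : ∀ (s : Finset (Fin k)) (f : Fin k → (Fin k → ℝ)), N (∑ i ∈ s, f i) ≤
      ∑ i ∈ s, N (f i) := by
    intro s f
    induction s using Finset.induction_on with
    | empty => simp [(h.zero_iff 0).2 rfl]
    | insert a s ha ih =>
      rw [Finset.sum_insert ha, Finset.sum_insert ha]
      exact (h.add_le _ _).trans (by linarith)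
  calc N v = N (∑ i, v i • (Pi.single i 1 : Fin k → ℝ)) := by rw [← e]
    _ ≤ ∑ i, N (v i • (Pi.single i 1 : Fin k → ℝ)) := hs _ _
    _ ≤ ∑ i, N (Pi.single i 1) * ‖v‖ := by
        refine Finset.sum_le_sum fun i _ => ?_
        rw [h.smul, mul_comm]
        refine mul_le_mul_of_nonneg_left ?_ (h.nonneg _)
        rw [← Real.norm_eq_abs]
        exact norm_le_pi_norm v i
    _ = (∑ i, N (Pi.single i 1)) * ‖v‖ := by rw [Finset.sum_mul]
    _ ≤ _ := by
        have := norm_nonneg v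
        nlinarith

theorem cv_norm {k : ℕ} {y : Fin k → ℤ} (hy : y ≠ 0) : 1 ≤ ‖cv y‖ := by
  obtain ⟨i, hi⟩ := Function.ne_iff.1 hy
  have h1 : (1 : ℤ) ≤ |y i| := Int.one_le_abs hi
  have h2 : ‖cv y i‖ ≤ ‖cv y‖ := norm_le_pi_norm _ i
  rw [Real.norm_eq_abs] at h2
  have h3 : (1 : ℝ) ≤ |cv y i| := by
    unfold cv
    exact_mod_cast h1
  linarith

/-- Dirichlet's theorem, without a rate -/
theorem dirichlet {N : (Fin 2 → ℝ) → ℝ} (h : IsNorm N) (Θ : Matrix (Fin 2) (Fin 1) ℝ) {ε : ℝ}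
    (hε : 0 < ε) : ∃ w : Lat, w.1 0 ≠ 0 ∧ N (vec Θ w) < ε := by
  obtain ⟨B, hB, hup⟩ := norm_up h
  set f : ℕ → Fin 2 → ℝ := fun q i => Int.fract ((q : ℝ) * Θ i 0) with hf
  have hmem : ∀ q, f q ∈ Set.Icc (0 : Fin 2 → ℝ) 1 := fun q =>
    ⟨fun i => Int.fract_nonneg _, fun i => (Int.fract_lt_one _).le⟩
  obtain ⟨a, -, g, hg, hlim⟩ := (isCompact_Icc (a := (0 : Fin 2 → ℝ)) (b := 1)).tendsto_subseq hmem
  have hc := hlim.cauchySeq
  rw [Metric.cauchySeq_iff'] at hc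
  obtain ⟨n, hn⟩ := hc (ε / B) (by positivity)
  have h1 := hn (n + 1) (by omega)
  have hlt : g n < g (n + 1) := hg (by omega)
  refine ⟨(fun _ => (g (n + 1) : ℤ) - g n, fun i => ⌊((g (n + 1) : ℕ) : ℝ) * Θ i 0⌋ -
    ⌊((g n : ℕ) : ℝ) * Θ i 0⌋), ?_, ?_⟩
  · simp only
    omega
  · have e : vec Θ ((fun _ => (g (n + 1) : ℤ) - g n, fun i => ⌊((g (n + 1) : ℕ) : ℝ) * Θ i 0⌋ -
        ⌊((g n : ℕ) : ℝ) * Θ i 0⌋) : Lat) = f (g (n + 1)) - f (g n) := by
      funext i
      simp only [vec, cv, Pi.sub_apply, Matrix.mulVec, dotProduct, Fin.sum_univ_one, hf, Int.fract]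
      push_cast
      ring
    rw [e]
    calc N (f (g (n + 1)) - f (g n)) ≤ B * ‖f (g (n + 1)) - f (g n)‖ := hup _
      _ < B * (ε / B) := by
          refine mul_lt_mul_of_pos_left ?_ hB
          rw [← dist_eq_norm]
          exact h1
      _ = ε := by field_simp

theorem N1_eq {N1 : (Fin 1 → ℝ) → ℝ} (h1 : IsNorm N1) (x : Fin 1 → ℝ) :
    N1 x = |x 0| * N1 (fun _ => 1) := by
  rw [← h1.smul]
  congr 1
  funext k
  rw [Subsingleton.elim k 0]
  simp

theorem N1_pos {N1 : (Fin 1 → ℝ) → ℝ} (h1 : IsNorm N1) : 0 < N1 (fun _ => 1) := by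
  refine lt_of_le_of_ne (h1.nonneg _) fun e => ?_
  have := (h1.zero_iff _).1 e.symm
  have := congrFun this 0
  simp at this

theorem N1_lt {N1 : (Fin 1 → ℝ) → ℝ} (h1 : IsNorm N1) (x y : Fin 1 → ℤ) :
    N1 (cv x) < N1 (cv y) ↔ |x 0| < |y 0| := by
  have he := N1_pos h1
  rw [N1_eq h1 (cv x), N1_eq h1 (cv y), mul_lt_mul_iff_left₀ he]
  unfold cv
  exact_mod_cast Iff.rfl

theorem N1_le {N1 : (Fin 1 → ℝ) → ℝ} (h1 : IsNorm N1) (x y : Fin 1 → ℤ) :
    N1 (cv x) ≤ N1 (cv y) ↔ |x 0| ≤ |y 0| := by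
  rw [← not_lt, N1_lt h1, not_lt]

/-- The vectors `z 1, z 2, …` are the best approximation vectors of `Θ` (one from each pair `±z`)
in order of increasing `|x|`. -/
def IsEnum (N1 : (Fin 1 → ℝ) → ℝ) (N2 : (Fin 2 → ℝ) → ℝ) (Θ : Matrix (Fin 2) (Fin 1) ℝ)
    (z : ℕ → Lat) : Prop :=
  (∀ ν, 1 ≤ ν → IsBest N1 N2 Θ (z ν)) ∧
  (∀ i j, 1 ≤ i → i < j → N1 (cv (z i).1) < N1 (cv (z j).1)) ∧
  (∀ v, IsBest N1 N2 Θ v → ∃ ν, 1 ≤ ν ∧ (v = z ν ∨ v = -z ν))

section

variable {N1 : (Fin 1 → ℝ) → ℝ} {N2 : (Fin 2 → ℝ) → ℝ} {Θ : Matrix (Fin 2) (Fin 1) ℝ}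
  {z : ℕ → Lat}

theorem IsEnum.grow (h1 : IsNorm N1) (hz : IsEnum N1 N2 Θ z) (n : ℕ) :
    (n : ℤ) ≤ |(z (n + 1)).1 0| := by
  induction n with
  | zero => simp
  | succ n ih =>
    have := (N1_lt h1 _ _).1 (hz.2.1 (n + 1) (n + 1 + 1) (by omega) (by omega))
    push_cast
    omega

theorem IsEnum.anti (h1 : IsNorm N1) (hz : IsEnum N1 N2 Θ z) {i j : ℕ} (hi : 1 ≤ i) (hij : i < j) :
    N2 (vec Θ (z j)) < N2 (vec Θ (z i)) :=
  err_lt h1 (hz.1 i hi) (hz.1 j (by omega)) (hz.2.1 i j hi hij)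

theorem vec_neg' (w : Lat) : vec Θ (-w) = - vec Θ w := by
  rw [← Ve_apply, ← Ve_apply, map_neg]

theorem N_neg {k : ℕ} {N : (Fin k → ℝ) → ℝ} (h : IsNorm N) (v : Fin k → ℝ) : N (-v) = N v := by
  have := h.smul (-1) v
  simpa using this

/-- the errors tend to zero -/
theorem IsEnum.small (h1 : IsNorm N1) (h2 : IsNorm N2) (hz : IsEnum N1 N2 Θ z) {ε : ℝ}
    (hε : 0 < ε) : ∃ ν₀, 1 ≤ ν₀ ∧ ∀ ν, ν₀ ≤ ν → N2 (vec Θ (z ν)) < ε := by
  obtain ⟨w, hw0, hw⟩ := dirichlet h2 Θ hε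
  have key : ∀ ν, 1 ≤ ν → |w.1 0| < |(z ν).1 0| → N2 (vec Θ (z ν)) < ε := by
    intro ν hν hlt
    by_contra hc
    push Not at hc
    rcases (hz.1 ν hν).2 w ((N1_le h1 _ _).2 hlt.le) (by linarith) with e | e | e
    · rw [e] at hw0; exact hw0 rfl
    · rw [e] at hlt; exact lt_irrefl _ hlt
    · rw [e] at hlt
      simp at hlt
  refine ⟨(|w.1 0|).toNat + 2, by omega, fun ν hν => key ν (by omega) ?_⟩
  obtain ⟨m, rfl⟩ := Nat.exists_eq_add_of_le hν
  have := hz.grow h1 ((|w.1 0|).toNat + 1 + m)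
  rw [show (|w.1 0|).toNat + 1 + m + 1 = (|w.1 0|).toNat + 2 + m by ring] at this
  push_cast at this
  rw [Int.toNat_of_nonneg (abs_nonneg _)] at this
  omega

/-- The boxes of the best approximations are empty from some index on. -/
theorem IsEnum.empty (h1 : IsNorm N1) (h2 : IsNorm N2) (hz : IsEnum N1 N2 Θ z) :
    ∃ ν₀, 1 ≤ ν₀ ∧ ∀ ν, ν₀ ≤ ν → ∀ w : Lat, w ≠ 0 → |w.1 0| < |(z (ν + 1)).1 0| →
      N2 (vec Θ (z ν)) ≤ N2 (vec Θ w) := by
  obtain ⟨c, hc, hlow⟩ := norm_low h2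
  obtain ⟨ν₀, hν₀, hsm⟩ := hz.small h1 h2 (ε := c / 2) (by positivity)
  refine ⟨ν₀, hν₀, fun ν hν w hw hwx => ?_⟩
  by_contra hlt
  push Not at hlt
  have hr := hsm ν hν
  -- vectors with first coordinate zero
  have hy : ∀ y : Lat, y ≠ 0 → y.1 0 = 0 → c ≤ N2 (vec Θ y) := by
    intro y hy h0
    have h10 : y.1 = 0 := by
      funext i
      rw [Subsingleton.elim i 0]
      exact h0
    have hy2 : y.2 ≠ 0 := fun e => hy (Prod.ext h10 e)
    have e : vec Θ y = - cv y.2 := by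
      unfold vec
      rw [h10]
      have : cv (0 : Fin 1 → ℤ) = 0 := by funext i; simp [cv]
      rw [this, Matrix.mulVec_zero, zero_sub]
    rw [e, N_neg h2]
    have := hlow (cv y.2)
    have h3 := cv_norm hy2
    nlinarith
  -- two vectors with the same first coordinate
  have htw : ∀ a b : Lat, (a.1 0).natAbs = (b.1 0).natAbs → N2 (vec Θ a) < c / 2 →
      N2 (vec Θ b) < c / 2 → a = b ∨ a = -b := by
    intro a b hab ha hb
    rcases Int.natAbs_eq_natAbs_iff.1 hab with e | e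
    · left
      by_contra hne
      have := hy (a - b) (sub_ne_zero.2 hne) (by simp [e])
      rw [vec_sub] at this
      have := h2.sub_le (vec Θ a) (vec Θ b)
      linarith
    · right
      by_contra hne
      have := hy (a + b) (fun h => hne (eq_neg_of_add_eq_zero_left h)) (by simp [e])
      have e2 : vec Θ (a + b) = vec Θ a + vec Θ b := by
        rw [← Ve_apply, map_add]; rfl
      rw [e2] at this
      have := h2.add_le (vec Θ a) (vec Θ b)
      linarith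
  classical
  set P : ℕ → Prop := fun k => ∃ w : Lat, w ≠ 0 ∧ (w.1 0).natAbs = k ∧
    N2 (vec Θ w) < N2 (vec Θ (z ν)) with hP
  have hex : ∃ k, P k := ⟨_, w, hw, rfl, hlt⟩
  obtain ⟨v, hv0, hvk, hvN⟩ := Nat.find_spec hex
  have hmin : ∀ y : Lat, y ≠ 0 → N2 (vec Θ y) < N2 (vec Θ (z ν)) →
      Nat.find hex ≤ (y.1 0).natAbs := fun y hy0 hyN => Nat.find_min' hex ⟨y, hy0, rfl, hyN⟩
  have hvw := hmin w hw hlt
  have hbest : IsBest N1 N2 Θ v := by
    refine ⟨fun e => ?_, fun y hyx hyN => ?_⟩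
    · have := hy v hv0 (by rw [e]; rfl)
      linarith
    · by_cases hy0 : y = 0
      · exact Or.inl hy0
      · right
        have hy1 := hmin y hy0 (by linarith)
        have hy2 := (N1_le h1 _ _).1 hyx
        rw [Int.abs_eq_natAbs, Int.abs_eq_natAbs] at hy2
        have hy3 : (y.1 0).natAbs ≤ (v.1 0).natAbs := by exact_mod_cast hy2
        exact htw y v (by omega) (by linarith) (by linarith)
  obtain ⟨μ, hμ, hvz⟩ := hz.2.2 v hbest
  have hxv : |v.1 0| = |(z μ).1 0| := by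
    rcases hvz with e | e
    · rw [e]
    · rw [e]; simp
  have hNv : N2 (vec Θ v) = N2 (vec Θ (z μ)) := by
    rcases hvz with e | e
    · rw [e]
    · rw [e, vec_neg', N_neg h2]
  have hvx : |v.1 0| < |(z (ν + 1)).1 0| := by
    refine lt_of_le_of_lt ?_ hwx
    rw [Int.abs_eq_natAbs, Int.abs_eq_natAbs]
    have : (v.1 0).natAbs ≤ (w.1 0).natAbs := by omega
    exact_mod_cast this
  have hμν : μ ≤ ν := by
    by_contra hgt
    push Not at hgt
    rw [hxv] at hvx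
    rcases Nat.eq_or_lt_of_le (show ν + 1 ≤ μ from hgt) with e | e
    · rw [e] at hvx; exact lt_irrefl _ hvx
    · have := (N1_lt h1 _ _).1 (hz.2.1 (ν + 1) μ (by omega) e)
      exact lt_irrefl _ (this.trans hvx)
  rcases Nat.eq_or_lt_of_le hμν with e | e
  · rw [hNv, e] at hvN; exact lt_irrefl _ hvN
  · have := hz.anti h1 hμ e
    rw [hNv] at hvN
    exact lt_irrefl _ (this.trans hvN)

/-- The chain of the best approximations, with positive first coordinates. -/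
theorem IsEnum.chain (h1 : IsNorm N1) (h2 : IsNorm N2) (hz : IsEnum N1 N2 Θ z) :
    ∃ (ν₀ : ℕ) (y : ℕ → Lat), 1 ≤ ν₀ ∧ (∀ i, y i = z (ν₀ + i) ∨ y i = -z (ν₀ + i)) ∧
      (∀ i, X0 (y i) = |((z (ν₀ + i)).1 0 : ℝ)|) ∧
      NChain X0 (fun w => N2 (vec Θ w)) y := by
  obtain ⟨ν₀, hν₀, hemp⟩ := hz.empty h1 h2
  set y : ℕ → Lat := fun i => if 0 < (z (ν₀ + i)).1 0 then z (ν₀ + i) else -z (ν₀ + i) with hy
  have hy1 : ∀ i, y i = z (ν₀ + i) ∨ y i = -z (ν₀ + i) := by
    intro i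
    simp only [hy]
    split_ifs
    · exact Or.inl rfl
    · exact Or.inr rfl
  have hyX : ∀ i, X0 (y i) = |((z (ν₀ + i)).1 0 : ℝ)| := by
    intro i
    simp only [hy]
    split_ifs with hp
    · rw [X0_apply, abs_of_pos (by exact_mod_cast hp)]
    · rw [X0_apply, abs_of_nonpos (by exact_mod_cast not_lt.1 hp)]
      simp
  have hyN : ∀ i, N2 (vec Θ (y i)) = N2 (vec Θ (z (ν₀ + i))) := by
    intro i
    rcases hy1 i with e | e
    · rw [e]
    · rw [e, vec_neg', N_neg h2]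
  have hlt : ∀ i j : ℕ, 1 ≤ i → i < j → |((z i).1 0 : ℝ)| < |((z j).1 0 : ℝ)| := by
    intro i j hi hij
    have := (N1_lt h1 _ _).1 (hz.2.1 i j hi hij)
    exact_mod_cast this
  refine ⟨ν₀, y, hν₀, hy1, hyX, ?_, ?_, ?_, ?_, four_prod⟩
  · intro i
    rw [hyX, abs_pos]
    have := (hz.1 (ν₀ + i) (by omega)).1
    intro h0
    apply this
    funext k
    rw [Subsingleton.elim k 0]
    exact_mod_cast h0
  · intro i
    rw [hyX, hyX]
    exact hlt _ _ (by omega) (by omega)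
  · intro i
    simp only [hyN]
    exact hz.anti h1 (by omega) (by omega)
  · intro i w hw hwx
    simp only [hyN]
    refine hemp (ν₀ + i) (by omega) w hw ?_
    rw [hyX, X0_apply] at hwx
    rw [show ν₀ + (i + 1) = ν₀ + i + 1 by ring] at hwx
    exact_mod_cast hwx

end

end Q277.EP
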