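import Mathlib
import Pool.Agent.Q247.PG.Basic

/-! The order `ℤ[φ]`, `φ³ = φ + 1`: the two absolute values, the powers of `φ`, and the elements of
small size. -/

set_option autoImplicit false

namespace Q277.EP

open Q247.PG

variable {φ : ℝ}

/-- the real value of `a + b φ + c φ²` -/
def fA (φ : ℝ) (w : ℤ × ℤ × ℤ) : ℝ := w.1 + w.2.1 * φ + w.2.2 * φ ^ 2

/-- the real part of the complex conjugate -/
noncomputable def fB (φ : ℝ) (w : ℤ × ℤ × ℤ) : ℝ :=
  w.1 - w.2.1 * φ / 2 + w.2.2 * (1 - φ ^ 2 / 2)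

/-- the normalised imaginary part of the complex conjugate -/
def fD (φ : ℝ) (w : ℤ × ℤ × ℤ) : ℝ := w.2.1 - w.2.2 * φ

/-- the square of the absolute value of the complex conjugate -/
noncomputable def fF (φ : ℝ) (w : ℤ × ℤ × ℤ) : ℝ :=
  fB φ w ^ 2 + (3 * φ ^ 2 / 4 - 1) * fD φ w ^ 2

theorem fF_eq (hφ : φ ^ 3 = φ + 1) (w : ℤ × ℤ × ℤ) :
    fF φ w = w.1 ^ 2 + w.2.1 ^ 2 * (φ ^ 2 - 1) + w.2.2 ^ 2 * (1 + φ - φ ^ 2) - w.1 * w.2.1 * φ +
      w.1 * w.2.2 * (2 - φ ^ 2) - w.2.1 * w.2.2 := by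
  unfold fF fB fD
  linear_combination ((w.2.2 : ℝ) ^ 2 * φ - w.2.1 * w.2.2) * hφ

/-- multiplication by `φ` -/
def mulPhi : (ℤ × ℤ × ℤ) ≃+ (ℤ × ℤ × ℤ) where
  toFun w := (w.2.2, w.1 + w.2.2, w.2.1)
  invFun w := (w.2.1 - w.1, w.2.2, w.1)
  left_inv w := by simp
  right_inv w := by simp
  map_add' v w := by
    simp only [Prod.snd_add, Prod.fst_add, Prod.mk_add_mk, Prod.mk.injEq, true_and, and_true]
    ring

theorem fA_mul (hφ : φ ^ 3 = φ + 1) (w : ℤ × ℤ × ℤ) : fA φ (mulPhi w) = φ * fA φ w := by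
  simp only [fA, mulPhi, AddEquiv.coe_mk, Equiv.coe_fn_mk]
  push_cast
  linear_combination (-(w.2.2 : ℝ)) * hφ

theorem fF_mul (hφ : φ ^ 3 = φ + 1) (w : ℤ × ℤ × ℤ) :
    fF φ (mulPhi w) = (φ ^ 2 - 1) * fF φ w := by
  have h1 : fB φ (mulPhi w) = - φ * fB φ w / 2 - (3 * φ ^ 2 / 4 - 1) * fD φ w := by
    simp only [fB, fD, mulPhi, AddEquiv.coe_mk, Equiv.coe_fn_mk]
    push_cast
    linear_combination (-(w.2.2 : ℝ)) * hφ
  have h2 : fD φ (mulPhi w) = fB φ w - φ * fD φ w / 2 := by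
    simp only [fB, fD, mulPhi, AddEquiv.coe_mk, Equiv.coe_fn_mk]
    push_cast
    ring
  unfold fF
  rw [h1, h2]
  ring

theorem phi_bounds (hφ : φ ^ 3 = φ + 1) :
    1.3247 < φ ∧ φ < 1.3248 ∧ 1.7548 < φ ^ 2 ∧ φ ^ 2 < 1.7552 := by
  have h1 := phi_gt hφ
  have h2 := phi_lt hφ
  refine ⟨h1, h2, ?_, ?_⟩ <;> nlinarith

/-- The only elements of the order of small size are `0` and `±1`. -/
theorem small_elements (hφ : φ ^ 3 = φ + 1) (w : ℤ × ℤ × ℤ) (hA : |fA φ w| ≤ 1.01)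
    (hF : fF φ w ≤ 1.3) : w = 0 ∨ w = (1, 0, 0) ∨ w = (-1, 0, 0) := by
  obtain ⟨h1, h2, h3, h4⟩ := phi_bounds hφ
  have hq : 0.316 < 3 * φ ^ 2 / 4 - 1 := by linarith
  have hB2 : fB φ w ^ 2 ≤ 1.3 := by
    have : 0 ≤ (3 * φ ^ 2 / 4 - 1) * fD φ w ^ 2 := mul_nonneg (by linarith) (sq_nonneg _)
    unfold fF at hF
    linarith
  have hD2 : fD φ w ^ 2 ≤ 4.12 := by
    have : 0 ≤ fB φ w ^ 2 := sq_nonneg _
    unfold fF at hF
    nlinarith [sq_nonneg (fD φ w)]
  have hB : |fB φ w| ≤ 1.141 := abs_le_of_sq_le_sq (by norm_num; linarith) (by norm_num)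
  have hD : |fD φ w| ≤ 2.03 := abs_le_of_sq_le_sq (by norm_num; linarith) (by norm_num)
  rw [abs_le] at hA hB hD
  have hFe := fF_eq hφ w
  obtain ⟨a, b, c⟩ := w
  have e1 : 3 * (a : ℝ) + 2 * c = fA φ (a, b, c) + 2 * fB φ (a, b, c) := by
    simp only [fA, fB]; ring
  have e2 : (3 * φ ^ 2 - 1) * (c : ℝ) =
      fA φ (a, b, c) - fB φ (a, b, c) - 3 / 2 * φ * fD φ (a, b, c) := by
    simp only [fA, fB, fD]; ring
  have e3 : (b : ℝ) - c * φ = fD φ (a, b, c) := by simp only [fD]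
  have hc : |(c : ℝ)| < 2 := by
    have h5 : |(3 * φ ^ 2 - 1) * (c : ℝ)| ≤ 6.3 := by
      rw [e2, abs_le]
      have h6 : 3 / 2 * φ * fD φ (a, b, c) ≤ 4.04 := by nlinarith
      have h7 : -4.04 ≤ 3 / 2 * φ * fD φ (a, b, c) := by nlinarith
      constructor <;> linarith
    rw [abs_mul, abs_of_pos (by linarith)] at h5
    have h8 := abs_nonneg (c : ℝ)
    nlinarith
  have hc1 : -2 < c ∧ c < 2 := by
    rw [abs_lt] at hc
    exact ⟨by exact_mod_cast hc.1, by exact_mod_cast hc.2⟩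
  obtain ⟨hc1, hc2⟩ := hc1
  have ha1 : (-4 : ℝ) < 3 * a + 2 * c := by rw [e1]; linarith
  have ha2 : 3 * (a : ℝ) + 2 * c < 4 := by rw [e1]; linarith
  have ha1' : -4 < 3 * a + 2 * c := by exact_mod_cast ha1
  have ha2' : 3 * a + 2 * c < 4 := by exact_mod_cast ha2
  have hb1 : -2.1 < (b : ℝ) - c * φ := by rw [e3]; linarith
  have hb2 : (b : ℝ) - c * φ < 2.1 := by rw [e3]; linarith
  rw [hFe] at hF
  simp only [fA] at hA
  have hb3 : (-4 : ℝ) < b := by
    have : (-2 : ℝ) < c ∧ (c : ℝ) < 2 := ⟨by exact_mod_cast hc1, by exact_mod_cast hc2⟩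
    have hc3 : (-1 : ℝ) ≤ c := by exact_mod_cast (show (-1 : ℤ) ≤ c by omega)
    nlinarith
  have hb4 : (b : ℝ) < 4 := by
    have hc3 : (c : ℝ) ≤ 1 := by exact_mod_cast (show c ≤ 1 by omega)
    nlinarith
  have hb3' : -4 < b := by exact_mod_cast hb3
  have hb4' : b < 4 := by exact_mod_cast hb4
  have ha3 : -2 ≤ a := by omega
  have ha4 : a ≤ 2 := by omega
  clear e1 e2 e3 hc hFe hB2 hD2 hB hD
  have hzero : (a, b, c) = (0 : ℤ × ℤ × ℤ) ↔ a = 0 ∧ b = 0 ∧ c = 0 := by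
    constructor
    · intro h; simp only [Prod.ext_iff] at h; exact ⟨h.1, h.2.1, h.2.2⟩
    · rintro ⟨rfl, rfl, rfl⟩; rfl
  interval_cases c <;> interval_cases b <;> first
    | (exfalso; push_cast at hb1 hb2; linarith)
    | (interval_cases a <;> first
        | (exfalso; omega)
        | (left; rfl)
        | (right; left; rfl)
        | (right; right; rfl)
        | (exfalso; push_cast at hA hF; obtain ⟨hA1, hA2⟩ := hA; linarith))

/-- the powers of `φ` -/
def U (n : ℕ) : ℤ × ℤ × ℤ := mulPhi^[n] (1, 0, 0)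

theorem fA_iter (hφ : φ ^ 3 = φ + 1) (n : ℕ) (w : ℤ × ℤ × ℤ) :
    fA φ (mulPhi^[n] w) = φ ^ n * fA φ w := by
  induction n with
  | zero => simp
  | succ n ih => rw [Function.iterate_succ_apply', fA_mul hφ, ih, pow_succ]; ring

theorem fF_iter (hφ : φ ^ 3 = φ + 1) (n : ℕ) (w : ℤ × ℤ × ℤ) :
    fF φ (mulPhi^[n] w) = (φ ^ 2 - 1) ^ n * fF φ w := by
  induction n with
  | zero => simp
  | succ n ih => rw [Function.iterate_succ_apply', fF_mul hφ, ih, pow_succ]; ring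

theorem fA_U (hφ : φ ^ 3 = φ + 1) (n : ℕ) : fA φ (U n) = φ ^ n := by
  unfold U
  rw [fA_iter hφ]
  simp [fA]

theorem fF_U (hφ : φ ^ 3 = φ + 1) (n : ℕ) : fF φ (U n) = (φ ^ 2 - 1) ^ n := by
  unfold U
  rw [fF_iter hφ]
  simp [fF, fB, fD]

theorem U_rec (n : ℕ) : U (n + 3) = U (n + 1) + U n := by
  unfold U
  have : ∀ w : ℤ × ℤ × ℤ, mulPhi (mulPhi (mulPhi w)) = mulPhi w + w := by
    intro w
    simp only [mulPhi, AddEquiv.coe_mk, Equiv.coe_fn_mk]
    refine Prod.ext ?_ (Prod.ext ?_ ?_) <;> simp <;> ring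
  rw [Function.iterate_succ_apply', Function.iterate_succ_apply', Function.iterate_succ_apply',
    this, ← Function.iterate_succ_apply' (f := mulPhi)]

/-- the denominators -/
def xs (n : ℕ) : ℤ := 3 * (U n).2.1 - 2 * (U n).2.2

theorem xs_rec (n : ℕ) : xs (n + 3) = xs (n + 1) + xs n := by
  unfold xs
  rw [U_rec]
  simp only [Prod.snd_add, Prod.fst_add]
  ring

theorem xs_inc (n : ℕ) : xs (n + 7) < xs (n + 8) := by
  induction n using Nat.strong_induction_on with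
  | _ n ih =>
    match n, ih with
    | 0, _ => decide
    | 1, _ => decide
    | 2, _ => decide
    | (n + 3), ih =>
      have h1 := ih n (by omega)
      have h2 := ih (n + 1) (by omega)
      have e1 := xs_rec (n + 7)
      have e2 := xs_rec (n + 8)
      simp only [show n + 1 + 7 = n + 8 by ring, show n + 1 + 8 = n + 9 by ring] at h2
      simp only [show n + 7 + 3 = n + 10 by ring, show n + 7 + 1 = n + 8 by ring] at e1
      simp only [show n + 8 + 3 = n + 11 by ring, show n + 8 + 1 = n + 9 by ring] at e2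
      simp only [show n + 3 + 7 = n + 10 by ring, show n + 3 + 8 = n + 11 by ring]
      omega

theorem xs_pos (n : ℕ) : 0 < xs (n + 7) := by
  induction n with
  | zero => decide
  | succ n ih =>
    have := xs_inc n
    rw [show n + 1 + 7 = n + 8 by ring]
    omega

theorem xs_le (hφ : φ ^ 3 = φ + 1) (n : ℕ) : (xs n : ℝ) ≤ 3 * φ ^ n := by
  obtain ⟨h1, h2, h3, h4⟩ := phi_bounds hφ
  induction n using Nat.strong_induction_on with
  | _ n ih =>
    match n, ih with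
    | 0, _ =>
      have : xs 0 = 0 := by decide
      rw [this]; norm_num
    | 1, _ =>
      have : xs 1 = 3 := by decide
      rw [this]; norm_num; linarith
    | 2, _ =>
      have : xs 2 = -2 := by decide
      rw [this]; norm_num; linarith
    | (n + 3), ih =>
      have e1 := ih n (by omega)
      have e2 := ih (n + 1) (by omega)
      rw [xs_rec]
      push_cast
      have e : (3 : ℝ) * φ ^ (n + 3) = 3 * φ ^ (n + 1) + 3 * φ ^ n := by
        rw [pow_add, hφ]; ring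
      linarith

/-- An element which is small compared with a large power of `φ` is `0` or plus or minus this
power. -/
theorem small_of (hφ : φ ^ 3 = φ + 1) {n : ℕ} (w : ℤ × ℤ × ℤ) (hA : |fA φ w| ≤ 1.01 * φ ^ n)
    (hF : fF φ w ≤ 1.3 * (φ ^ 2 - 1) ^ n) : w = 0 ∨ w = U n ∨ w = - U n := by
  obtain ⟨h1, h2, h3, h4⟩ := phi_bounds hφ
  have hp : 0 < φ ^ n := by positivity
  have hq : 0 < (φ ^ 2 - 1) ^ n := pow_pos (by linarith) n
  obtain ⟨v, rfl⟩ := (mulPhi.surjective.iterate n) w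
  rw [fA_iter hφ, abs_mul, abs_of_pos hp, mul_comm] at hA
  rw [fF_iter hφ, mul_comm] at hF
  have hA' := le_of_mul_le_mul_right hA hp
  have hF' := le_of_mul_le_mul_right hF hq
  rcases small_elements hφ v hA' hF' with e | e | e
  · left
    rw [e]
    exact iterate_map_zero mulPhi n
  · right; left
    rw [e]; rfl
  · right; right
    have : v = -(1, 0, 0) := by rw [e]; rfl
    rw [this]
    exact iterate_map_neg mulPhi n _

end Q277.EP
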