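import Mathlib
import Pool.Agent.Q277.EP.Units
import Pool.Agent.Q277.EP.Interface

/-! A pair of numbers of the cubic field of discriminant `-23` whose best approximations with respect
to the Euclidean norm grow like the powers of `φ`. -/

set_option autoImplicit false

open Filter Topology Pool.Agent.TH970.GB Q247.PG

namespace Q277.EP

/-- the Euclidean norm on the plane -/
noncomputable def euc (v : Fin 2 → ℝ) : ℝ := Real.sqrt (v 0 ^ 2 + v 1 ^ 2)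

theorem euc_eq (v : Fin 2 → ℝ) : euc v = ‖(WithLp.toLp 2 v : EuclideanSpace ℝ (Fin 2))‖ := by
  rw [EuclideanSpace.norm_eq, Fin.sum_univ_two]
  simp [euc]

theorem euc_norm : IsNorm euc := by
  refine ⟨fun x => ?_, fun x y => ?_, fun r x => ?_⟩
  · rw [euc_eq, norm_eq_zero]
    constructor
    · intro h
      funext i
      have := congrFun (congrArg (WithLp.ofLp) h) i
      simpa using this
    · rintro rfl; rfl
  · rw [euc_eq, euc_eq, euc_eq]
    exact norm_add_le (WithLp.toLp 2 x : EuclideanSpace ℝ (Fin 2)) (WithLp.toLp 2 y)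
  · rw [euc_eq, euc_eq, ← Real.norm_eq_abs, ← norm_smul]
    rfl

theorem euc_le (v w : Fin 2 → ℝ) : euc v ≤ euc w ↔ v 0 ^ 2 + v 1 ^ 2 ≤ w 0 ^ 2 + w 1 ^ 2 := by
  unfold euc
  rw [Real.sqrt_le_sqrt_iff (by positivity)]

/-- The pair of numbers. -/
noncomputable def Th (φ : ℝ) : Matrix (Fin 2) (Fin 1) ℝ :=
  !![(φ ^ 2 + φ - 2) / (3 * φ - 2); (φ - 1) / (3 * φ - 2)]

/-- the lattice vector of `a + b φ + c φ²` -/
def toLat (w : ℤ × ℤ × ℤ) : Lat :=
  (fun _ => 3 * w.2.1 - 2 * w.2.2, ![w.1 + w.2.1 - w.2.2, w.2.1 - w.2.2])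

theorem toLat_surj (y : Lat) : ∃ w, toLat w = y := by
  refine ⟨(y.2 0 - y.2 1, y.1 0 - 2 * y.2 1, y.1 0 - 3 * y.2 1), ?_⟩
  refine Prod.ext ?_ ?_
  · funext i
    rw [Subsingleton.elim i 0]
    simp only [toLat]
    ring
  · funext i
    fin_cases i <;> simp [toLat] <;> ring

theorem toLat_neg (w : ℤ × ℤ × ℤ) : toLat (-w) = - toLat w := by
  refine Prod.ext ?_ ?_
  · funext i
    simp only [toLat, Prod.snd_neg, Prod.fst_neg, Pi.neg_apply]
    ring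
  · funext i
    fin_cases i <;> simp [toLat] <;> ring

theorem toLat_zero : toLat 0 = 0 := by
  refine Prod.ext ?_ ?_
  · funext i; simp [toLat]
  · funext i
    fin_cases i <;> simp [toLat]

variable {φ : ℝ}

theorem den_pos (hφ : φ ^ 3 = φ + 1) : 0 < 3 * φ - 2 := by
  have := (phi_bounds hφ).1
  linarith

theorem vecs (hφ : φ ^ 3 = φ + 1) (w : ℤ × ℤ × ℤ) :
    fB φ w = - vec (Th φ) (toLat w) 0 - (-4 + φ + 3 * φ ^ 2 / 2) * vec (Th φ) (toLat w) 1 ∧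
    fD φ w = - (3 * φ - 2) * vec (Th φ) (toLat w) 1 := by
  have hd := den_pos hφ
  obtain ⟨t1, ht1⟩ : ∃ t, t = (φ ^ 2 + φ - 2) / (3 * φ - 2) := ⟨_, rfl⟩
  obtain ⟨t2, ht2⟩ : ∃ t, t = (φ - 1) / (3 * φ - 2) := ⟨_, rfl⟩
  have h1 : t1 * (3 * φ - 2) = φ ^ 2 + φ - 2 := by rw [ht1]; exact div_mul_cancel₀ _ hd.ne'
  have h2 : t2 * (3 * φ - 2) = φ - 1 := by rw [ht2]; exact div_mul_cancel₀ _ hd.ne'
  have e0 : vec (Th φ) (toLat w) 0 = t1 * (3 * w.2.1 - 2 * w.2.2) - (w.1 + w.2.1 - w.2.2) := by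
    rw [ht1]
    simp [vec, Th, toLat, cv, dotProduct]
  have e1 : vec (Th φ) (toLat w) 1 = t2 * (3 * w.2.1 - 2 * w.2.2) - (w.2.1 - w.2.2) := by
    rw [ht2]
    simp [vec, Th, toLat, cv, dotProduct]
  rw [e0, e1]
  constructor
  · unfold fB
    apply mul_left_cancel₀ hd.ne'
    linear_combination (3 * (w.2.1 : ℝ) - 2 * w.2.2) * h1 +
      (-4 + φ + 3 * φ ^ 2 / 2) * (3 * (w.2.1 : ℝ) - 2 * w.2.2) * h2
  · unfold fD
    linear_combination (3 * (w.2.1 : ℝ) - 2 * w.2.2) * h2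

/-- The Euclidean norm of the error and the absolute value of the conjugate. -/
theorem compare (hφ : φ ^ 3 = φ + 1) (w : ℤ × ℤ × ℤ) :
    0.99 * (vec (Th φ) (toLat w) 0 ^ 2 + vec (Th φ) (toLat w) 1 ^ 2) ≤ fF φ w ∧
    fF φ w ≤ 1.245 * (vec (Th φ) (toLat w) 0 ^ 2 + vec (Th φ) (toLat w) 1 ^ 2) := by
  obtain ⟨h1, h2, h3, h4⟩ := phi_bounds hφ
  obtain ⟨e0, e1⟩ := vecs hφ w
  unfold fF
  rw [e0, e1]
  set x := vec (Th φ) (toLat w) 0
  set y := vec (Th φ) (toLat w) 1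
  obtain ⟨r, hr⟩ : ∃ r, r = -4 + φ + 3 * φ ^ 2 / 2 := ⟨_, rfl⟩
  obtain ⟨q, hq⟩ : ∃ q, q = (3 * φ ^ 2 / 4 - 1) * (3 * φ - 2) ^ 2 := ⟨_, rfl⟩
  have hr1 : -0.0432 < r := by rw [hr]; linarith
  have hr2 : r < -0.0424 := by rw [hr]; linarith
  have hs1 : 3.8954 < (3 * φ - 2) ^ 2 := by nlinarith
  have hs2 : (3 * φ - 2) ^ 2 < 3.9006 := by nlinarith
  have hq1 : 1.2312 < q := by rw [hq]; nlinarith
  have hq2 : q < 1.2343 := by rw [hq]; nlinarith
  have e : (-x - (-4 + φ + 3 * φ ^ 2 / 2) * y) ^ 2 +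
      (3 * φ ^ 2 / 4 - 1) * (-(3 * φ - 2) * y) ^ 2 = (x + r * y) ^ 2 + q * y ^ 2 := by
    rw [hr, hq]; ring
  rw [e]
  have hr3 : r ^ 2 < 0.001867 := by nlinarith
  have hr4 : 0.00179 < r ^ 2 := by nlinarith
  constructor
  · have h5 : 0 ≤ 0.01 * (x + 100 * r * y) ^ 2 := by positivity
    have h6 : 0 ≤ (q - 0.99 - 99 * r ^ 2) * y ^ 2 := mul_nonneg (by linarith) (sq_nonneg _)
    nlinarith
  · have h5 : 0 ≤ 0.245 * (x - r / 0.245 * y) ^ 2 := by positivity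
    have h6 : 0 ≤ (1.245 - q - r ^ 2 - r ^ 2 / 0.245) * y ^ 2 :=
      mul_nonneg (by norm_num; linarith) (sq_nonneg _)
    have h7 : 1.245 * (x ^ 2 + y ^ 2) - ((x + r * y) ^ 2 + q * y ^ 2) =
        0.245 * (x - r / 0.245 * y) ^ 2 + (1.245 - q - r ^ 2 - r ^ 2 / 0.245) * y ^ 2 := by
      ring
    linarith

/-- The denominator in terms of the two absolute values. -/
theorem den_eq (w : ℤ × ℤ × ℤ) :
    (3 * φ ^ 2 - 1) * (3 * (w.2.1 : ℝ) - 2 * w.2.2) = (3 * φ - 2) * (fA φ w - fB φ w) +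
      (9 * φ ^ 2 / 2 + 3 * φ - 3) * fD φ w := by
  unfold fA fB fD
  ring

theorem BD_le (hφ : φ ^ 3 = φ + 1) (w : ℤ × ℤ × ℤ) (hF : fF φ w ≤ 1.3) :
    |(3 * φ - 2) * fB φ w - (9 * φ ^ 2 / 2 + 3 * φ - 3) * fD φ w| ≤ 22 := by
  obtain ⟨h1, h2, h3, h4⟩ := phi_bounds hφ
  have hB2 : fB φ w ^ 2 ≤ 1.3 := by
    have : 0 ≤ (3 * φ ^ 2 / 4 - 1) * fD φ w ^ 2 := mul_nonneg (by linarith) (sq_nonneg _)
    unfold fF at hF
    linarith
  have hD2 : fD φ w ^ 2 ≤ 4.12 := by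
    have : 0 ≤ fB φ w ^ 2 := sq_nonneg _
    unfold fF at hF
    nlinarith [sq_nonneg (fD φ w)]
  have hB : |fB φ w| ≤ 1.141 := abs_le_of_sq_le_sq (by norm_num; linarith) (by norm_num)
  have hD : |fD φ w| ≤ 2.03 := abs_le_of_sq_le_sq (by norm_num; linarith) (by norm_num)
  calc |(3 * φ - 2) * fB φ w - (9 * φ ^ 2 / 2 + 3 * φ - 3) * fD φ w|
      ≤ |(3 * φ - 2) * fB φ w| + |(9 * φ ^ 2 / 2 + 3 * φ - 3) * fD φ w| := abs_sub _ _
    _ = (3 * φ - 2) * |fB φ w| + (9 * φ ^ 2 / 2 + 3 * φ - 3) * |fD φ w| := by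
        rw [abs_mul, abs_mul, abs_of_pos (by linarith : 0 < 3 * φ - 2),
          abs_of_pos (by linarith : 0 < 9 * φ ^ 2 / 2 + 3 * φ - 3)]
    _ ≤ 22 := by
        have g1 : (3 * φ - 2) * |fB φ w| ≤ 1.9744 * 1.141 :=
          mul_le_mul (by linarith) hB (abs_nonneg _) (by norm_num)
        have g2 : (9 * φ ^ 2 / 2 + 3 * φ - 3) * |fD φ w| ≤ 8.8728 * 2.03 :=
          mul_le_mul (by linarith) hD (abs_nonneg _) (by norm_num)
        norm_num at g1 g2 ⊢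
        linarith

/-- Large powers of `φ` are best approximation vectors. -/
theorem best_U (hφ : φ ^ 3 = φ + 1) {N1 : (Fin 1 → ℝ) → ℝ} (h1 : IsNorm N1) {n : ℕ} (hn : 7 ≤ n)
    (hbig : 2300 ≤ φ ^ n) : IsBest N1 euc (Th φ) (toLat (U n)) := by
  obtain ⟨b1, b2, b3, b4⟩ := phi_bounds hφ
  have hx0 : (toLat (U n)).1 0 = xs n := rfl
  have hxp : 0 < xs n := by
    obtain ⟨m, rfl⟩ := Nat.exists_eq_add_of_le hn
    rw [add_comm]
    exact xs_pos m
  have hq1 : 0 < φ ^ 2 - 1 := by linarith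
  have hq : 0 < (φ ^ 2 - 1) ^ n := pow_pos hq1 n
  have hqle : (φ ^ 2 - 1) ^ n ≤ 1 := pow_le_one₀ hq1.le (by linarith)
  refine ⟨fun e => ?_, fun y hy1 hy2 => ?_⟩
  · rw [e] at hx0
    simp at hx0
    omega
  · obtain ⟨w, rfl⟩ := toLat_surj y
    rw [euc_le] at hy2
    rw [N1_le h1, hx0, abs_of_pos hxp] at hy1
    have c1 := (compare hφ w).2
    have c2 := (compare hφ (U n)).1
    rw [fF_U hφ] at c2
    have hF : fF φ w ≤ 1.3 * (φ ^ 2 - 1) ^ n := by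
      have : 0.99 * (vec (Th φ) (toLat w) 0 ^ 2 + vec (Th φ) (toLat w) 1 ^ 2) ≤
        (φ ^ 2 - 1) ^ n := by linarith
      linarith
    have hF1 : fF φ w ≤ 1.3 := by linarith
    have hFU : fF φ (U n) ≤ 1.3 := by rw [fF_U hφ]; linarith
    have d1 := den_eq (φ := φ) w
    have d2 := den_eq (φ := φ) (U n)
    have g1 := BD_le hφ w hF1
    have g2 := BD_le hφ (U n) hFU
    rw [fA_U hφ] at d2
    have hxw : (toLat w).1 0 = 3 * w.2.1 - 2 * w.2.2 := rfl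
    have hxU : xs n = 3 * (U n).2.1 - 2 * (U n).2.2 := rfl
    rw [hxw] at hy1
    have hy : |3 * (w.2.1 : ℝ) - 2 * w.2.2| ≤ xs n := by exact_mod_cast hy1
    have hU : (xs n : ℝ) = 3 * ((U n).2.1 : ℝ) - 2 * (U n).2.2 := by rw [hxU]; push_cast; ring
    rw [← hU] at d2
    rw [abs_le] at g1 g2 hy
    have k0 : 0 < 3 * φ ^ 2 - 1 := by linarith
    have hA : |fA φ w| ≤ 1.01 * φ ^ n := by
      have t1 : (3 * φ ^ 2 - 1) * (3 * (w.2.1 : ℝ) - 2 * w.2.2) ≤ (3 * φ ^ 2 - 1) * xs n :=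
        mul_le_mul_of_nonneg_left hy.2 k0.le
      have t2 : (3 * φ ^ 2 - 1) * (-(xs n : ℝ)) ≤ (3 * φ ^ 2 - 1) * (3 * (w.2.1 : ℝ) - 2 * w.2.2) :=
        mul_le_mul_of_nonneg_left hy.1 k0.le
      have s1 : (3 * φ - 2) * fA φ w ≤ (3 * φ - 2) * φ ^ n + 44 := by nlinarith
      have s2 : -((3 * φ - 2) * φ ^ n + 44) ≤ (3 * φ - 2) * fA φ w := by nlinarith
      have hden : 1.974 < 3 * φ - 2 := by linarith
      rw [abs_le]
      constructor
      · by_contra hc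
        push Not at hc
        nlinarith
      · by_contra hc
        push Not at hc
        nlinarith
    rcases small_of hφ w hA hF with e | e | e
    · left; rw [e, toLat_zero]
    · right; left; rw [e]
    · right; right; rw [e, toLat_neg]

/-- `φ` is irrational, so the pair is admissible. -/
theorem Th_star (hφ : φ ^ 3 = φ + 1) (x : Fin 1 → ℤ) (hx : x ≠ 0) (y : Fin 2 → ℤ) :
    (Th φ).mulVec (fun i => (x i : ℝ)) ≠ fun j => (y j : ℝ) := by
  intro h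
  have hd := den_pos hφ
  have h1 := congrFun h 1
  simp only [Th, Matrix.mulVec, dotProduct, Fin.sum_univ_one, Matrix.of_apply,
    Matrix.cons_val_one, Matrix.cons_val_zero] at h1
  have h2 : (φ - 1) * (x 0 : ℝ) = (3 * φ - 2) * (y 1 : ℝ) := by
    have h3 : (φ - 1) / (3 * φ - 2) * (x 0 : ℝ) * (3 * φ - 2) = (y 1 : ℝ) * (3 * φ - 2) := by
      rw [← h1]
    have h4 : (φ - 1) / (3 * φ - 2) * (x 0 : ℝ) * (3 * φ - 2) = (φ - 1) * (x 0 : ℝ) := by
      rw [mul_right_comm, div_mul_cancel₀ _ hd.ne']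
    rw [h4] at h3
    linarith
  have hx0 : x 0 ≠ 0 := by
    intro h0
    apply hx
    funext i
    rw [Subsingleton.elim i 0]
    exact h0
  have h3 : φ * ((x 0 - 3 * y 1 : ℤ) : ℝ) = ((x 0 - 2 * y 1 : ℤ) : ℝ) := by
    push_cast
    linarith
  have h4 : x 0 - 3 * y 1 ≠ 0 := by
    intro h0
    rw [h0] at h3
    have h5 : x 0 - 2 * y 1 = 0 := by
      have : ((x 0 - 2 * y 1 : ℤ) : ℝ) = 0 := by rw [← h3]; simp
      exact_mod_cast this
    apply hx0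
    omega
  exact ((phi_irrat hφ).mul_intCast h4).ne_int _ h3

/-- The powers from some index on. -/
theorem exists_good (hφ : φ ^ 3 = φ + 1) : ∃ n₀ : ℕ, 7 ≤ n₀ ∧ ∀ n, n₀ ≤ n → 2300 ≤ φ ^ n := by
  have h1 := (phi_bounds hφ).1
  have := tendsto_pow_atTop_atTop_of_one_lt (show 1 < φ by linarith)
  obtain ⟨n₀, h⟩ := eventually_atTop.1 (this.eventually_ge_atTop 2300)
  exact ⟨max n₀ 7, le_max_right _ _, fun n hn => h n ((le_max_left _ _).trans hn)⟩

section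

variable {N1 : (Fin 1 → ℝ) → ℝ} {N2 : (Fin 2 → ℝ) → ℝ} {Θ : Matrix (Fin 2) (Fin 1) ℝ}
  {z : ℕ → Lat}

/-- two best approximation vectors with the same first coordinate -/
theorem best_unique (h1 : IsNorm N1) {v w : Lat} (hv : IsBest N1 N2 Θ v) (hw : IsBest N1 N2 Θ w)
    (h : (v.1 0).natAbs = (w.1 0).natAbs) : v = w ∨ v = -w := by
  have hab : |v.1 0| = |w.1 0| := by rw [Int.abs_eq_natAbs, Int.abs_eq_natAbs, h]
  rcases le_total (N2 (vec Θ v)) (N2 (vec Θ w)) with hle | hle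
  · rcases hw.2 v ((N1_le h1 _ _).2 hab.le) hle with e | e | e
    · exact absurd (by rw [e]; rfl) hv.1
    · exact Or.inl e
    · exact Or.inr e
  · rcases hv.2 w ((N1_le h1 _ _).2 hab.ge) hle with e | e | e
    · exact absurd (by rw [e]; rfl) hw.1
    · exact Or.inl e.symm
    · right; rw [e, neg_neg]

/-- If there are infinitely many best approximation vectors, they can be enumerated. -/
theorem exists_enum (h1 : IsNorm N1)
    (hinf : ∀ K : ℕ, ∃ v, IsBest N1 N2 Θ v ∧ K < (v.1 0).natAbs) : ∃ z, IsEnum N1 N2 Θ z := by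
  classical
  set S : Set ℕ := {k | ∃ v, IsBest N1 N2 Θ v ∧ (v.1 0).natAbs = k} with hS
  have hSi : S.Infinite := by
    rw [Set.infinite_iff_exists_gt]
    intro K
    obtain ⟨v, hv, hK⟩ := hinf K
    exact ⟨_, ⟨v, hv, rfl⟩, hK⟩
  have hm : ∀ n, ∃ v, IsBest N1 N2 Θ v ∧ (v.1 0).natAbs = Nat.nth (· ∈ S) n := by
    intro n
    have : Nat.nth (· ∈ S) n ∈ S := Nat.nth_mem_of_infinite hSi n
    exact this
  choose f hf hfn using hm
  refine ⟨fun ν => f (ν - 1), fun ν _ => hf _, fun i j hi hij => ?_, fun v hv => ?_⟩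
  · rw [N1_lt h1, Int.abs_eq_natAbs, Int.abs_eq_natAbs, hfn, hfn]
    have : Nat.nth (· ∈ S) (i - 1) < Nat.nth (· ∈ S) (j - 1) :=
      Nat.nth_strictMono hSi (by omega)
    exact_mod_cast this
  · have hvS : (v.1 0).natAbs ∈ S := ⟨v, hv, rfl⟩
    have hr : Set.range (Nat.nth (· ∈ S)) = {k | k ∈ S} := Nat.range_nth_of_infinite hSi
    have : (v.1 0).natAbs ∈ Set.range (Nat.nth (· ∈ S)) := by
      rw [hr]
      exact hvS
    obtain ⟨n, hn⟩ := this
    refine ⟨n + 1, by omega, ?_⟩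
    apply best_unique h1 hv (hf _)
    rw [← hn, hfn]
    rfl

/-- A sequence of best approximation vectors bounds the enumeration. -/
theorem IsEnum.le_of_seq (h1 : IsNorm N1) (hz : IsEnum N1 N2 Θ z) {y : ℕ → Lat}
    (hy : ∀ k, IsBest N1 N2 Θ (y k)) (hinc : ∀ k, |(y k).1 0| < |(y (k + 1)).1 0|) (k : ℕ) :
    |(z (k + 1)).1 0| ≤ |(y k).1 0| := by
  have hm : ∀ k, ∃ μ, 1 ≤ μ ∧ |(y k).1 0| = |(z μ).1 0| := by
    intro k
    obtain ⟨μ, hμ, e | e⟩ := hz.2.2 _ (hy k)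
    · exact ⟨μ, hμ, by rw [e]⟩
    · exact ⟨μ, hμ, by rw [e]; simp⟩
  have hlt : ∀ i j : ℕ, 1 ≤ i → i < j → |(z i).1 0| < |(z j).1 0| := fun i j hi hij =>
    (N1_lt h1 _ _).1 (hz.2.1 i j hi hij)
  have hle : ∀ i j : ℕ, 1 ≤ i → i ≤ j → |(z i).1 0| ≤ |(z j).1 0| := by
    intro i j hi hij
    rcases Nat.eq_or_lt_of_le hij with e | e
    · rw [e]
    · exact (hlt i j hi e).le
  choose μ hμ hμe using hm
  have hmono : ∀ k, μ k < μ (k + 1) := by
    intro k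
    by_contra hc
    push Not at hc
    have := hle _ _ (hμ (k + 1)) hc
    rw [← hμe, ← hμe] at this
    exact absurd (hinc k) (not_lt.2 this)
  have hge : ∀ k, k + 1 ≤ μ k := by
    intro k
    induction k with
    | zero => exact hμ 0
    | succ k ih => have := hmono k; omega
  rw [hμe]
  exact hle _ _ (by omega) (hge k)

end

/-- The denominators of the example grow like the powers of `φ`. -/
theorem example_growth (hφ : φ ^ 3 = φ + 1) {N1 : (Fin 1 → ℝ) → ℝ} (h1 : IsNorm N1) :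
    (∃ z, IsEnum N1 euc (Th φ) z) ∧ ∃ C : ℝ, 0 < C ∧ ∀ z, IsEnum N1 euc (Th φ) z → ∀ ν, 1 ≤ ν →
      N1 (cv (z ν).1) ≤ C * φ ^ ν := by
  obtain ⟨n₀, hn7, hn⟩ := exists_good hφ
  have hb := (phi_bounds hφ).1
  have hx : ∀ n, (toLat (U n)).1 0 = xs n := fun n => rfl
  have hpos : ∀ n, n₀ ≤ n → 0 < xs n := by
    intro n h
    obtain ⟨m, rfl⟩ := Nat.exists_eq_add_of_le (hn7.trans h)
    rw [add_comm]
    exact xs_pos m
  have hinc : ∀ k, |(toLat (U (n₀ + k))).1 0| < |(toLat (U (n₀ + (k + 1)))).1 0| := by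
    intro k
    rw [hx, hx, abs_of_pos (hpos _ (by omega)), abs_of_pos (hpos _ (by omega))]
    obtain ⟨m, hm⟩ := Nat.exists_eq_add_of_le (show 7 ≤ n₀ + k by omega)
    have := xs_inc m
    rw [show n₀ + (k + 1) = m + 8 by omega, show n₀ + k = m + 7 by omega]
    exact this
  have hbest : ∀ k, IsBest N1 euc (Th φ) (toLat (U (n₀ + k))) := fun k =>
    best_U hφ h1 (by omega) (hn _ (by omega))
  constructor
  · apply exists_enum h1
    intro K
    refine ⟨toLat (U (n₀ + (K + 1))), hbest _, ?_⟩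
    have : ∀ k : ℕ, (k : ℤ) < |(toLat (U (n₀ + (k + 1)))).1 0| := by
      intro k
      induction k with
      | zero =>
        have := hinc 0
        have h0 := abs_nonneg ((toLat (U (n₀ + 0))).1 0)
        push_cast
        linarith
      | succ k ih =>
        have := hinc (k + 1)
        push_cast
        linarith
    have h2 := this K
    rw [Int.abs_eq_natAbs] at h2
    exact_mod_cast h2
  · have he := N1_pos h1
    have hp : 0 < φ := by linarith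
    refine ⟨3 * φ ^ n₀ * N1 (fun _ => 1), by positivity, fun z hz ν hν => ?_⟩
    obtain ⟨k, rfl⟩ : ∃ k, ν = k + 1 := ⟨ν - 1, by omega⟩
    have h3 := hz.le_of_seq h1 (y := fun k => toLat (U (n₀ + k))) hbest hinc k
    rw [hx, abs_of_pos (hpos _ (by omega))] at h3
    have h4 := xs_le hφ (n₀ + k)
    have h5 : |((z (k + 1)).1 0 : ℝ)| ≤ xs (n₀ + k) := by exact_mod_cast h3
    rw [N1_eq h1]
    have h6 : |cv (z (k + 1)).1 0| ≤ 3 * φ ^ n₀ * φ ^ (k + 1) := by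
      calc |cv (z (k + 1)).1 0| ≤ xs (n₀ + k) := h5
        _ ≤ 3 * φ ^ (n₀ + k) := h4
        _ ≤ 3 * φ ^ (n₀ + (k + 1)) := by
            have : φ ^ (n₀ + k) ≤ φ ^ (n₀ + (k + 1)) :=
              pow_le_pow_right₀ (by linarith) (by omega)
            linarith
        _ = 3 * φ ^ n₀ * φ ^ (k + 1) := by rw [pow_add]; ring
    calc |cv (z (k + 1)).1 0| * N1 (fun _ => 1) ≤ (3 * φ ^ n₀ * φ ^ (k + 1)) * N1 (fun _ => 1) :=
          mul_le_mul_of_nonneg_right h6 he.le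
      _ = _ := by ring

end Q277.EP
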