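import Mathlib
import Pool.Agent.Q277.EP.Core

/-! The steps before a slow step. -/

set_option autoImplicit false

namespace Q277.EP

variable {L : Type*} [AddCommGroup L] {X u v : L →+ ℝ} {z : ℕ → L}

/-- the order of the lengths and of the errors -/
theorem Chain.ord (h : Chain X u v z) :
    (0 < X (z 1) ∧ X (z 1) < X (z 2) ∧ X (z 2) < X (z 3) ∧ X (z 3) < X (z 4) ∧ X (z 4) < X (z 5) ∧
      X (z 5) < X (z 6)) ∧
    (Q u v (z 1) < Q u v (z 0) ∧ Q u v (z 2) < Q u v (z 1) ∧ Q u v (z 3) < Q u v (z 2) ∧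
      Q u v (z 4) < Q u v (z 3) ∧ Q u v (z 5) < Q u v (z 4) ∧ Q u v (z 6) < Q u v (z 5) ∧
      0 ≤ Q u v (z 6)) :=
  ⟨⟨h.pos 1, h.mono 1, h.mono 2, h.mono 3, h.mono 4, h.mono 5⟩,
    h.anti 0, h.anti 1, h.anti 2, h.anti 3, h.anti 4, h.anti 5, Q_nonneg _⟩

/-- the identity for the parallelogram and the bounds of the differences -/
theorem Chain.star (h : Chain X u v z) (hs : X (z 6) < X (z 3) + X (z 4)) :
    X (z 6) = X (z 4) + X (z 5) - X (z 3) ∧ X (z 5) < 2 * X (z 3) ∧
    Q u v (z 4 - z 3) + Q u v (z 5 - z 3) ≤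
      Q u v (z 3) + Q u v (z 4) + Q u v (z 5) + Q u v (z 6) ∧
    Q u v (z 2) ≤ Q u v (z 4 - z 3) ∧ Q u v (z 2) ≤ Q u v (z 5 - z 3) := by
  have hr := h.rel hs
  obtain ⟨⟨p1, m1, m2, m3, m4, m5⟩, a0, a1, a2, a3, a4, a5, q6⟩ := h.ord
  have hX : X (z 6) = X (z 4) + X (z 5) - X (z 3) := by rw [hr, map_sub, map_add]
  have h5 : X (z 5) < 2 * X (z 3) := by linarith
  refine ⟨hX, h5, ?_, ?_, ?_⟩
  · have := Q_nonneg (u := u) (v := v) (z 4 + z 5)
    have e : Q u v (z 4 - z 3) + Q u v (z 5 - z 3) + Q u v (z 4 + z 5) =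
        Q u v (z 3) + Q u v (z 4) + Q u v (z 5) + Q u v (z 6) := by
      rw [hr]; unfold Q; simp only [map_sub, map_add]; ring
    linarith
  · refine h.E 2 ?_ ?_ ?_
    · rw [map_sub]; intro; linarith
    · simp only [show (2 : ℕ) + 1 = 3 from rfl]; rw [map_sub]; linarith
    · simp only [show (2 : ℕ) + 1 = 3 from rfl]; rw [map_sub]; linarith
  · refine h.E 2 ?_ ?_ ?_
    · rw [map_sub]; intro; linarith
    · simp only [show (2 : ℕ) + 1 = 3 from rfl]; rw [map_sub]; linarith
    · simp only [show (2 : ℕ) + 1 = 3 from rfl]; rw [map_sub]; linarith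

/-- Step 2: `z 2` is one of the differences. -/
theorem Chain.two (h : Chain X u v z) (hs : X (z 6) < X (z 3) + X (z 4)) :
    z 2 = z 4 - z 3 ∨ z 2 = z 5 - z 3 ∨ z 2 = z 5 - z 4 := by
  have hr := h.rel hs
  obtain ⟨hX, h5, hst, hd, he⟩ := h.star hs
  obtain ⟨⟨p1, m1, m2, m3, m4, m5⟩, a0, a1, a2, a3, a4, a5, q6⟩ := h.ord
  have E2 : ∀ w : L, X w ≠ 0 → X w < X (z 3) → -X (z 3) < X w → Q u v (z 2) ≤ Q u v w :=
    fun w => h.E 2
  have E2' : ∀ w : L, w ≠ 0 → X w < X (z 3) → -X (z 3) < X w → Q u v (z 2) ≤ Q u v w :=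
    fun w h1 h2 h3 => h.emp 2 w h1 (abs_lt.2 ⟨h3, h2⟩)
  have E3 : ∀ w : L, X w ≠ 0 → X w < X (z 4) → -X (z 4) < X w → Q u v (z 3) ≤ Q u v w :=
    fun w => h.E 3
  have E4 : ∀ w : L, X w ≠ 0 → X w < X (z 5) → -X (z 5) < X w → Q u v (z 4) ≤ Q u v w :=
    fun w => h.E 4
  rcases h.four (z 2) (z 3) (z 4) (z 5) with e | e | e | e | e | e | e | e | e | e | e | e | e | e | e
  · exact absurd e (h.not_single 2)
  · exact absurd e (h.not_single 3)
  · exact absurd e (h.not_single 4)
  · exact absurd e (h.not_single 5)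
  · have := h.pair_bd (i := 2) rfl (by linarith) (by linarith) e
    simp only [show (2 : ℕ) + 1 = 3 from rfl] at this
    linarith
  · have := h.pair_bd (i := 2) rfl (by linarith) (by linarith) e
    simp only [show (2 : ℕ) + 1 = 3 from rfl] at this
    linarith
  · have := h.pair_bd (i := 2) rfl (by linarith) (by linarith) e
    simp only [show (2 : ℕ) + 1 = 3 from rfl] at this
    linarith
  · have := h.pair_bd (i := 3) rfl (by linarith) (by linarith) e
    simp only [show (3 : ℕ) + 1 = 4 from rfl] at this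
    linarith
  · have := h.pair_bd (i := 3) rfl (by linarith) (by linarith) e
    simp only [show (3 : ℕ) + 1 = 4 from rfl] at this
    linarith
  · have := h.pair_bd (i := 4) rfl (by linarith) (by linarith) e
    simp only [show (4 : ℕ) + 1 = 5 from rfl] at this
    linarith
  · -- 2 3 4
    left
    obtain ⟨t, ht⟩ := e
    have q := trip (u := u) (v := v) ht
    have x0 : X t = (X (z 2) + X (z 3) + X (z 4)) / 2 := by rw [half_eq ht, map_add, map_add]
    have x1 : X (t - z 3) = (X (z 2) + X (z 4) - X (z 3)) / 2 := by rw [map_sub, x0]; ring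
    have x2 : X (t - z 4) = (X (z 2) + X (z 3) - X (z 4)) / 2 := by rw [map_sub, x0]; ring
    have x3 : X (t - z 2) = (X (z 3) + X (z 4) - X (z 2)) / 2 := by rw [map_sub, x0]; ring
    have e1 := E2 (t - z 3) (by rw [x1]; intro; linarith) (by rw [x1]; linarith)
      (by rw [x1]; linarith)
    have e3 := E3 (t - z 2) (by rw [x3]; intro; linarith) (by rw [x3]; linarith)
      (by rw [x3]; linarith)
    have h0 : t - z 4 = 0 := by
      by_contra hne
      have e2 := E2' (t - z 4) hne (by rw [x2]; linarith) (by rw [x2]; linarith)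
      have := Q_nonneg (u := u) (v := v) t
      linarith
    rw [sub_eq_zero] at h0
    rw [h0] at ht
    have : z 2 + z 3 = z 4 := by
      have h1 : z 4 + z 4 = z 4 + (z 2 + z 3) := by rw [ht]; abel
      exact (add_left_cancel h1).symm
    rw [← this]; abel
  · -- 2 3 5
    right; left
    obtain ⟨t, ht⟩ := e
    have q := trip (u := u) (v := v) ht
    have x0 : X t = (X (z 2) + X (z 3) + X (z 5)) / 2 := by rw [half_eq ht, map_add, map_add]
    have x1 : X (t - z 3) = (X (z 2) + X (z 5) - X (z 3)) / 2 := by rw [map_sub, x0]; ring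
    have x2 : X (t - z 5) = (X (z 2) + X (z 3) - X (z 5)) / 2 := by rw [map_sub, x0]; ring
    have x3 : X (t - z 2) = (X (z 3) + X (z 5) - X (z 2)) / 2 := by rw [map_sub, x0]; ring
    have e1 := E2 (t - z 3) (by rw [x1]; intro; linarith) (by rw [x1]; linarith)
      (by rw [x1]; linarith)
    have e3 := E4 (t - z 2) (by rw [x3]; intro; linarith) (by rw [x3]; linarith)
      (by rw [x3]; linarith)
    have h0 : t - z 5 = 0 := by
      by_contra hne
      have e2 := E2' (t - z 5) hne (by rw [x2]; linarith) (by rw [x2]; linarith)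
      have := Q_nonneg (u := u) (v := v) t
      linarith
    rw [sub_eq_zero] at h0
    rw [h0] at ht
    have : z 2 + z 3 = z 5 := by
      have h1 : z 5 + z 5 = z 5 + (z 2 + z 3) := by rw [ht]; abel
      exact (add_left_cancel h1).symm
    rw [← this]; abel
  · -- 2 4 5
    right; right
    obtain ⟨t, ht⟩ := e
    have q := trip (u := u) (v := v) ht
    have x0 : X t = (X (z 2) + X (z 4) + X (z 5)) / 2 := by rw [half_eq ht, map_add, map_add]
    have x1 : X (t - z 4) = (X (z 2) + X (z 5) - X (z 4)) / 2 := by rw [map_sub, x0]; ring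
    have x2 : X (t - z 5) = (X (z 2) + X (z 4) - X (z 5)) / 2 := by rw [map_sub, x0]; ring
    have x3 : X (t - z 2) = (X (z 4) + X (z 5) - X (z 2)) / 2 := by rw [map_sub, x0]; ring
    have e1 := E2 (t - z 4) (by rw [x1]; intro; linarith) (by rw [x1]; linarith)
      (by rw [x1]; linarith)
    have e3 := E4 (t - z 2) (by rw [x3]; intro; linarith) (by rw [x3]; linarith)
      (by rw [x3]; linarith)
    have h0 : t - z 5 = 0 := by
      by_contra hne
      have e2 := E2' (t - z 5) hne (by rw [x2]; linarith) (by rw [x2]; linarith)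
      have := Q_nonneg (u := u) (v := v) t
      linarith
    rw [sub_eq_zero] at h0
    rw [h0] at ht
    have : z 2 + z 4 = z 5 := by
      have h1 : z 5 + z 5 = z 5 + (z 2 + z 4) := by rw [ht]; abel
      exact (add_left_cancel h1).symm
    rw [← this]; abel
  · -- 3 4 5
    exfalso
    obtain ⟨t, ht⟩ := e
    have q := trip (u := u) (v := v) ht
    have x0 : X t = (X (z 3) + X (z 4) + X (z 5)) / 2 := by rw [half_eq ht, map_add, map_add]
    have x1 : X (t - z 3) = (X (z 4) + X (z 5) - X (z 3)) / 2 := by rw [map_sub, x0]; ring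
    have x2 : X (t - z 4) = (X (z 3) + X (z 5) - X (z 4)) / 2 := by rw [map_sub, x0]; ring
    have x3 : X (t - z 5) = (X (z 3) + X (z 4) - X (z 5)) / 2 := by rw [map_sub, x0]; ring
    have e1 := E3 (t - z 3) (by rw [x1]; intro; linarith) (by rw [x1]; linarith)
      (by rw [x1]; linarith)
    have e2 := E3 (t - z 4) (by rw [x2]; intro; linarith) (by rw [x2]; linarith)
      (by rw [x2]; linarith)
    have e3 := E3 (t - z 5) (by rw [x3]; intro; linarith) (by rw [x3]; linarith)
      (by rw [x3]; linarith)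
    have := Q_nonneg (u := u) (v := v) t
    linarith
  · -- 2 3 4 5
    exfalso
    obtain ⟨t, ht⟩ := e
    have ht' : (t - z 3) + (t - z 3) = z 2 + z 6 := by
      rw [hr, show (t - z 3) + (t - z 3) = (t + t) - z 3 - z 3 by abel, ht]; abel
    have q := pair (u := u) (v := v) ht'
    have x0 : X (t - z 3) = (X (z 2) + X (z 6)) / 2 := by rw [half_eq ht', map_add]
    have x1 : X (t - z 3 - z 2) = (X (z 6) - X (z 2)) / 2 := by rw [map_sub, x0]; ring
    have e1 := E4 (t - z 3) (by rw [x0]; intro; linarith) (by rw [x0]; linarith)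
      (by rw [x0]; linarith)
    have e2 := E3 (t - z 3 - z 2) (by rw [x1]; intro; linarith) (by rw [x1]; linarith)
      (by rw [x1]; linarith)
    linarith

/-- Step 3: the bound for `z 1`. -/
theorem Chain.one (h : Chain X u v z) (hs : X (z 6) < X (z 3) + X (z 4)) :
    X (z 1) ≤ X (z 4) - X (z 3) := by
  by_contra hc
  push Not at hc
  have hr := h.rel hs
  have h2 := h.two hs
  obtain ⟨hX, h5, hst, hd, he⟩ := h.star hs
  obtain ⟨⟨p1, m1, m2, m3, m4, m5⟩, a0, a1, a2, a3, a4, a5, q6⟩ := h.ord
  have E0 : ∀ w : L, X w ≠ 0 → X w < X (z 1) → -X (z 1) < X w → Q u v (z 0) ≤ Q u v w :=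
    fun w => h.E 0
  have E1 : ∀ w : L, X w ≠ 0 → X w < X (z 2) → -X (z 2) < X w → Q u v (z 1) ≤ Q u v w :=
    fun w => h.E 1
  have E1' : ∀ w : L, w ≠ 0 → X w < X (z 2) → -X (z 2) < X w → Q u v (z 1) ≤ Q u v w :=
    fun w h1 h2 h3 => h.emp 1 w h1 (abs_lt.2 ⟨h3, h2⟩)
  have E2 : ∀ w : L, X w ≠ 0 → X w < X (z 3) → -X (z 3) < X w → Q u v (z 2) ≤ Q u v w :=
    fun w => h.E 2
  have E3 : ∀ w : L, X w ≠ 0 → X w < X (z 4) → -X (z 4) < X w → Q u v (z 3) ≤ Q u v w :=
    fun w => h.E 3
  have E4 : ∀ w : L, X w ≠ 0 → X w < X (z 5) → -X (z 5) < X w → Q u v (z 4) ≤ Q u v w :=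
    fun w => h.E 4
  have hd0 : Q u v (z 0) ≤ Q u v (z 4 - z 3) := by
    refine E0 _ ?_ ?_ ?_
    · rw [map_sub]; intro; linarith
    · rw [map_sub]; linarith
    · rw [map_sub]; linarith
  have h12 : ¬ Ev (z 1 + z 2) := by
    intro e
    have := h.pair_bd (i := 1) rfl (by linarith) (by linarith) e
    simp only [show (1 : ℕ) + 1 = 2 from rfl] at this
    linarith
  have h2' : z 2 = z 5 - z 3 ∨ z 2 = z 5 - z 4 := by
    rcases h2 with h2 | h2 | h2
    · exfalso
      have := congrArg X h2
      rw [map_sub] at this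
      linarith
    · exact Or.inl h2
    · exact Or.inr h2
  rcases h.four (z 1) (z 3) (z 4) (z 5) with e | e | e | e | e | e | e | e | e | e | e | e | e | e | e
  · exact absurd e (h.not_single 1)
  · exact absurd e (h.not_single 3)
  · exact absurd e (h.not_single 4)
  · exact absurd e (h.not_single 5)
  · -- 1 3
    obtain ⟨t, ht⟩ := e
    have q := pair (u := u) (v := v) ht
    have x0 : X t = (X (z 1) + X (z 3)) / 2 := by rw [half_eq ht, map_add]
    have x1 : X (t - z 1) = (X (z 3) - X (z 1)) / 2 := by rw [map_sub, x0]; ring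
    have e1 := E2 t (by rw [x0]; intro; linarith) (by rw [x0]; linarith) (by rw [x0]; linarith)
    have e2 := E2 (t - z 1) (by rw [x1]; intro; linarith) (by rw [x1]; linarith)
      (by rw [x1]; linarith)
    linarith
  · -- 1 4
    obtain ⟨t, ht⟩ := e
    have q := pair (u := u) (v := v) ht
    have x0 : X t = (X (z 1) + X (z 4)) / 2 := by rw [half_eq ht, map_add]
    have x1 : X (t - z 1) = (X (z 4) - X (z 1)) / 2 := by rw [map_sub, x0]; ring
    have e1 := E3 t (by rw [x0]; intro; linarith) (by rw [x0]; linarith) (by rw [x0]; linarith)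
    have e2 := E3 (t - z 1) (by rw [x1]; intro; linarith) (by rw [x1]; linarith)
      (by rw [x1]; linarith)
    linarith
  · -- 1 5
    obtain ⟨t, ht⟩ := e
    have q := pair (u := u) (v := v) ht
    have x0 : X t = (X (z 1) + X (z 5)) / 2 := by rw [half_eq ht, map_add]
    have x1 : X (t - z 1) = (X (z 5) - X (z 1)) / 2 := by rw [map_sub, x0]; ring
    have e1 := E4 t (by rw [x0]; intro; linarith) (by rw [x0]; linarith) (by rw [x0]; linarith)
    have e2 := E3 (t - z 1) (by rw [x1]; intro; linarith) (by rw [x1]; linarith)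
      (by rw [x1]; linarith)
    linarith
  · have := h.pair_bd (i := 3) rfl (by linarith) (by linarith) e
    simp only [show (3 : ℕ) + 1 = 4 from rfl] at this
    linarith
  · have := h.pair_bd (i := 3) rfl (by linarith) (by linarith) e
    simp only [show (3 : ℕ) + 1 = 4 from rfl] at this
    linarith
  · have := h.pair_bd (i := 4) rfl (by linarith) (by linarith) e
    simp only [show (4 : ℕ) + 1 = 5 from rfl] at this
    linarith
  · -- 1 3 4
    obtain ⟨t, ht⟩ := e
    have q := trip (u := u) (v := v) ht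
    have x0 : X t = (X (z 1) + X (z 3) + X (z 4)) / 2 := by rw [half_eq ht, map_add, map_add]
    have x1 : X (t - z 3) = (X (z 1) + X (z 4) - X (z 3)) / 2 := by rw [map_sub, x0]; ring
    have x2 : X (t - z 4) = (X (z 1) + X (z 3) - X (z 4)) / 2 := by rw [map_sub, x0]; ring
    have x3 : X (t - z 1) = (X (z 3) + X (z 4) - X (z 1)) / 2 := by rw [map_sub, x0]; ring
    have e1 := E0 (t - z 3) (by rw [x1]; intro; linarith) (by rw [x1]; linarith)
      (by rw [x1]; linarith)
    have e2 := E0 (t - z 4) (by rw [x2]; intro; linarith) (by rw [x2]; linarith)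
      (by rw [x2]; linarith)
    have e3 := E3 (t - z 1) (by rw [x3]; intro; linarith) (by rw [x3]; linarith)
      (by rw [x3]; linarith)
    have := Q_nonneg (u := u) (v := v) t
    linarith
  · -- 1 3 5
    rcases h2' with hb | hb
    · apply h12
      refine e.congr (t := - z 3) ?_
      rw [hb]; abel
    · obtain ⟨t, ht⟩ := e
      have q := trip (u := u) (v := v) ht
      have hXb : X (z 5) = X (z 4) + X (z 2) := by
        have := congrArg X hb
        rw [map_sub] at this
        linarith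
      have x0 : X t = (X (z 1) + X (z 3) + X (z 5)) / 2 := by rw [half_eq ht, map_add, map_add]
      have x1 : X (t - z 3) = (X (z 1) + X (z 5) - X (z 3)) / 2 := by rw [map_sub, x0]; ring
      have x2 : X (t - z 5) = (X (z 1) + X (z 3) - X (z 5)) / 2 := by rw [map_sub, x0]; ring
      have x3 : X (t - z 1) = (X (z 3) + X (z 5) - X (z 1)) / 2 := by rw [map_sub, x0]; ring
      have e2 := E1 (t - z 5) (by rw [x2]; intro; linarith) (by rw [x2]; linarith)
        (by rw [x2]; linarith)
      have e3 := E4 (t - z 1) (by rw [x3]; intro; linarith) (by rw [x3]; linarith)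
        (by rw [x3]; linarith)
      have e1 := E3 (t - z 3) (by rw [x1]; intro; linarith) (by rw [x1]; linarith)
        (by rw [x1]; linarith)
      have := Q_nonneg (u := u) (v := v) t
      linarith
  · -- 1 4 5
    rcases h2' with hb | hb
    · obtain ⟨t, ht⟩ := e
      have q := trip (u := u) (v := v) ht
      have hXb : X (z 5) = X (z 3) + X (z 2) := by
        have := congrArg X hb
        rw [map_sub] at this
        linarith
      have x0 : X t = (X (z 1) + X (z 4) + X (z 5)) / 2 := by rw [half_eq ht, map_add, map_add]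
      have x1 : X (t - z 5) = (X (z 1) + X (z 4) - X (z 5)) / 2 := by rw [map_sub, x0]; ring
      have x2 : X (t - z 4) = (X (z 1) + X (z 5) - X (z 4)) / 2 := by rw [map_sub, x0]; ring
      have x3 : X (t - z 1) = (X (z 4) + X (z 5) - X (z 1)) / 2 := by rw [map_sub, x0]; ring
      have e2 := E1 (t - z 4) (by rw [x2]; intro; linarith) (by rw [x2]; linarith)
        (by rw [x2]; linarith)
      have e3 := E4 (t - z 1) (by rw [x3]; intro; linarith) (by rw [x3]; linarith)
        (by rw [x3]; linarith)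
      have h0 : t - z 5 = 0 := by
        by_contra hne
        have e1 := E1' (t - z 5) hne (by rw [x1]; linarith) (by rw [x1]; linarith)
        have := Q_nonneg (u := u) (v := v) t
        linarith
      rw [sub_eq_zero] at h0
      rw [h0] at ht
      have h1 : z 5 = z 1 + z 4 := by
        have h1 : z 5 + z 5 = z 5 + (z 1 + z 4) := by rw [ht]; abel
        exact add_left_cancel h1
      have h3 : z 5 = z 2 + z 3 := by rw [hb]; abel
      -- everything in terms of `z 1, z 2, z 3`
      have h4 : z 4 = z 3 + z 2 - z 1 := by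
        have : z 4 = z 5 - z 1 := by rw [h1]; abel
        rw [this, h3]; abel
      have h6 : z 6 = z 3 + z 2 + z 2 - z 1 := by
        rw [hr, h4, h3]; abel
      have hd1 : Q u v (z 1) < Q u v (z 4 - z 3) := by linarith
      rw [h3] at a4 a5
      rw [h4] at a3 a4 hd1
      rw [h6] at a5 q6
      unfold Q at a0 a1 a2 a3 a4 a5 hd1
      simp only [map_sub, map_add] at a0 a1 a2 a3 a4 a5 hd1
      nlinarith
    · apply h12
      refine e.congr (t := - z 4) ?_
      rw [hb]; abel
  · -- 3 4 5
    obtain ⟨t, ht⟩ := e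
    have q := trip (u := u) (v := v) ht
    have x0 : X t = (X (z 3) + X (z 4) + X (z 5)) / 2 := by rw [half_eq ht, map_add, map_add]
    have x1 : X (t - z 3) = (X (z 4) + X (z 5) - X (z 3)) / 2 := by rw [map_sub, x0]; ring
    have x2 : X (t - z 4) = (X (z 3) + X (z 5) - X (z 4)) / 2 := by rw [map_sub, x0]; ring
    have x3 : X (t - z 5) = (X (z 3) + X (z 4) - X (z 5)) / 2 := by rw [map_sub, x0]; ring
    have e1 := E3 (t - z 3) (by rw [x1]; intro; linarith) (by rw [x1]; linarith)
      (by rw [x1]; linarith)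
    have e2 := E3 (t - z 4) (by rw [x2]; intro; linarith) (by rw [x2]; linarith)
      (by rw [x2]; linarith)
    have e3 := E3 (t - z 5) (by rw [x3]; intro; linarith) (by rw [x3]; linarith)
      (by rw [x3]; linarith)
    have := Q_nonneg (u := u) (v := v) t
    linarith
  · -- 1 3 4 5
    obtain ⟨t, ht⟩ := e
    have ht' : (t - z 3) + (t - z 3) = z 1 + z 6 := by
      rw [hr, show (t - z 3) + (t - z 3) = (t + t) - z 3 - z 3 by abel, ht]; abel
    have q := pair (u := u) (v := v) ht'
    have x0 : X (t - z 3) = (X (z 1) + X (z 6)) / 2 := by rw [half_eq ht', map_add]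
    have x1 : X (t - z 3 - z 1) = (X (z 6) - X (z 1)) / 2 := by rw [map_sub, x0]; ring
    have e1 := E4 (t - z 3) (by rw [x0]; intro; linarith) (by rw [x0]; linarith)
      (by rw [x0]; linarith)
    have e2 := E3 (t - z 3 - z 1) (by rw [x1]; intro; linarith) (by rw [x1]; linarith)
      (by rw [x1]; linarith)
    linarith

/-- The structure at a slow step. -/
theorem Chain.slow (h : Chain X u v z) (hs : X (z 6) < X (z 3) + X (z 4)) :
    X (z 6) = X (z 4) + X (z 5) - X (z 3) ∧ X (z 3) + X (z 2) ≤ X (z 5) ∧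
      X (z 3) + X (z 1) ≤ X (z 4) := by
  refine ⟨(h.star hs).1, ?_, by linarith [h.one hs]⟩
  obtain ⟨⟨p1, m1, m2, m3, m4, m5⟩, -⟩ := h.ord
  rcases h.two hs with e | e | e <;>
  · have := congrArg X e
    rw [map_sub] at this
    linarith

end Q277.EP
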