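import Mathlib
import Pool.Agent.Q277.EP.Slow

/-! The growth of the lengths in a chain of best approximations. -/

set_option autoImplicit false

namespace Q277.EP

theorem plastic_gt {φ : ℝ} (hφ : φ ^ 3 = φ + 1) : 1 < φ := by
  nlinarith [sq_nonneg (φ + 1), sq_nonneg (φ - 1), sq_nonneg φ]

/-- a sequence which is multiplied by `φ` in one step or by `φ ^ 3` in three steps -/
theorem potential {φ : ℝ} (h0 : 0 < φ) {V : ℕ → ℝ} (hp : ∀ n, 0 < V n)
    (hV : ∀ n, φ * V (n + 3) ≤ V (n + 4) ∨ φ ^ 3 * V (n + 1) ≤ V (n + 4)) :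
    ∃ C : ℝ, 0 < C ∧ ∀ n, C * φ ^ n ≤ V n := by
  have hq : ∀ n, 0 < V n / φ ^ n := fun n => div_pos (hp n) (pow_pos h0 n)
  obtain ⟨C, hC, b0, b1, b2, b3⟩ : ∃ C : ℝ, 0 < C ∧ C ≤ V 0 / φ ^ 0 ∧ C ≤ V 1 / φ ^ 1 ∧
      C ≤ V 2 / φ ^ 2 ∧ C ≤ V 3 / φ ^ 3 := by
    refine ⟨min (min (V 0 / φ ^ 0) (V 1 / φ ^ 1)) (min (V 2 / φ ^ 2) (V 3 / φ ^ 3)), ?_, ?_, ?_, ?_,
      ?_⟩
    · exact lt_min (lt_min (hq 0) (hq 1)) (lt_min (hq 2) (hq 3))
    · exact (min_le_left _ _).trans (min_le_left _ _)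
    · exact (min_le_left _ _).trans (min_le_right _ _)
    · exact (min_le_right _ _).trans (min_le_left _ _)
    · exact (min_le_right _ _).trans (min_le_right _ _)
  refine ⟨C, hC, fun n => ?_⟩
  induction n using Nat.strong_induction_on with
  | _ n ih =>
    match n, ih with
    | 0, _ => exact (le_div_iff₀ (pow_pos h0 _)).1 b0
    | 1, _ => exact (le_div_iff₀ (pow_pos h0 _)).1 b1
    | 2, _ => exact (le_div_iff₀ (pow_pos h0 _)).1 b2
    | 3, _ => exact (le_div_iff₀ (pow_pos h0 _)).1 b3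
    | (n + 4), ih =>
      rcases hV n with h | h
      · have := ih (n + 3) (by omega)
        calc C * φ ^ (n + 4) = φ * (C * φ ^ (n + 3)) := by ring
          _ ≤ φ * V (n + 3) := mul_le_mul_of_nonneg_left this h0.le
          _ ≤ _ := h
      · have := ih (n + 1) (by omega)
        calc C * φ ^ (n + 4) = φ ^ 3 * (C * φ ^ (n + 1)) := by ring
          _ ≤ φ ^ 3 * V (n + 1) := mul_le_mul_of_nonneg_left this (by positivity)
          _ ≤ _ := h

variable {L : Type*} [AddCommGroup L] {X u v : L →+ ℝ} {z : ℕ → L}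

/-- The lengths in a chain grow at least like the powers of `φ`. -/
theorem Chain.growth (h : Chain X u v z) {φ : ℝ} (hφ : φ ^ 3 = φ + 1) :
    ∃ C : ℝ, 0 < C ∧ ∀ n, C * φ ^ n ≤ X (z n) := by
  have h1 := plastic_gt hφ
  have h0 : 0 < φ := by linarith
  set V : ℕ → ℝ := fun n => X (z n) + φ ^ 2 * X (z (n + 1)) + φ * X (z (n + 2)) with hV
  have hp : ∀ n, 0 < V n := by
    intro n
    have e0 := h.pos n
    have e1 := h.pos (n + 1)
    have e2 := h.pos (n + 2)
    simp only [hV]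
    positivity
  obtain ⟨C, hC, hCV⟩ := potential (φ := φ) h0 hp (fun n => by
    have hch := h.shift n
    by_cases hs : X (z (n + 6)) < X (z (n + 3)) + X (z (n + 4))
    · right
      obtain ⟨s1, s2, s3⟩ := hch.slow hs
      have m2 := h.mono (n + 2)
      simp only [show n + 2 + 1 = n + 3 by ring] at m2
      simp only [hV, show n + 1 + 1 = n + 2 by ring, show n + 1 + 2 = n + 3 by ring,
        show n + 4 + 1 = n + 5 by ring, show n + 4 + 2 = n + 6 by ring]
      set x1 := X (z (n + 1))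
      set x2 := X (z (n + 2))
      set x3 := X (z (n + 3))
      set x4 := X (z (n + 4))
      set x5 := X (z (n + 5))
      set x6 := X (z (n + 6))
      have e : x4 + φ ^ 2 * x5 + φ * x6 - φ ^ 3 * (x1 + φ ^ 2 * x2 + φ * x3) =
          φ * ((φ ^ 2 - 1) * (x3 - x2) + φ ^ 2 * (x4 - x3 - x1) + φ ^ 3 * (x5 - x3 - x2)) := by
        rw [s1]
        have e4 : φ ^ 4 = φ ^ 2 + φ := by
          calc φ ^ 4 = φ * φ ^ 3 := by ring
            _ = _ := by rw [hφ]; ring
        have e5 : φ ^ 5 = φ ^ 2 + φ + 1 := by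
          have : φ ^ 5 = φ ^ 2 * φ ^ 3 := by ring
          rw [hφ] at this
          nlinarith
        ring_nf
        rw [e4, e5, hφ]
        ring
      have hφ2 : 0 ≤ φ ^ 2 - 1 := by nlinarith
      have : 0 ≤ φ * ((φ ^ 2 - 1) * (x3 - x2) + φ ^ 2 * (x4 - x3 - x1) +
          φ ^ 3 * (x5 - x3 - x2)) := by
        apply mul_nonneg h0.le
        have t1 : 0 ≤ (φ ^ 2 - 1) * (x3 - x2) := mul_nonneg hφ2 (by linarith)
        have t2 : 0 ≤ φ ^ 2 * (x4 - x3 - x1) := mul_nonneg (by positivity) (by linarith)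
        have t3 : 0 ≤ φ ^ 3 * (x5 - x3 - x2) := mul_nonneg (by positivity) (by linarith)
        linarith
      linarith
    · left
      push Not at hs
      simp only [hV, show n + 3 + 1 = n + 4 by ring, show n + 3 + 2 = n + 5 by ring,
        show n + 4 + 2 = n + 6 by ring]
      have := mul_le_mul_of_nonneg_left hs h0.le
      have e : φ * (X (z (n + 3)) + φ ^ 2 * X (z (n + 4)) + φ * X (z (n + 5))) =
          φ * X (z (n + 3)) + (φ + 1) * X (z (n + 4)) + φ ^ 2 * X (z (n + 5)) := by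
        rw [← hφ]; ring
      rw [e]
      linarith)
  set D := C / (φ ^ 2 * (1 + φ ^ 2 + φ)) with hD
  have hDp : 0 < D := by positivity
  refine ⟨min D (min (X (z 0)) (X (z 1) / φ)), ?_, fun n => ?_⟩
  · exact lt_min hDp (lt_min (h.pos 0) (div_pos (h.pos 1) h0))
  rcases n with _ | _ | n
  · rw [pow_zero, mul_one]
    exact (min_le_right _ _).trans (min_le_left _ _)
  · rw [zero_add, pow_one]
    calc min D (min (X (z 0)) (X (z 1) / φ)) * φ ≤ (X (z 1) / φ) * φ :=
          mul_le_mul_of_nonneg_right ((min_le_right _ _).trans (min_le_right _ _)) h0.le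
      _ = X (z 1) := by field_simp
  · have h2 := hCV n
    have m0 := h.mono n
    have m1 := h.mono (n + 1)
    simp only [show n + 1 + 1 = n + 2 by ring] at m1 ⊢
    have h3 : V n ≤ (1 + φ ^ 2 + φ) * X (z (n + 2)) := by
      simp only [hV]
      have t1 : φ ^ 2 * X (z (n + 1)) ≤ φ ^ 2 * X (z (n + 2)) :=
        mul_le_mul_of_nonneg_left m1.le (by positivity)
      linarith
    calc min D (min (X (z 0)) (X (z 1) / φ)) * φ ^ (n + 2) ≤ D * φ ^ (n + 2) :=
          mul_le_mul_of_nonneg_right (min_le_left _ _) (by positivity)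
      _ = (C * φ ^ n) / (1 + φ ^ 2 + φ) := by
          rw [hD, pow_add]; field_simp
      _ ≤ X (z (n + 2)) := by
          rw [div_le_iff₀ (by positivity)]
          linarith

end Q277.EP
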