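import Mathlib
import Pool.Agent.Q277.EP.Growth
import Pool.Agent.Q277.EP.Interface

/-! The lower bound for norms with the parallelogram law. -/

set_option autoImplicit false

open Filter Topology Pool.Agent.TH970.GB

namespace Q277.EP

/-- the parallelogram law -/
def Parallelogram (N : (Fin 2 → ℝ) → ℝ) : Prop :=
  ∀ x y, N (x + y) ^ 2 + N (x - y) ^ 2 = 2 * (N x ^ 2 + N y ^ 2)

/-- a copy of the plane -/
def Syn : Type := Fin 2 → ℝ

noncomputable instance : AddCommGroup Syn := inferInstanceAs (AddCommGroup (Fin 2 → ℝ))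

noncomputable instance : Module ℝ Syn := inferInstanceAs (Module ℝ (Fin 2 → ℝ))

/-- the theorem of Jordan and von Neumann in the plane -/
theorem quad_of_par {N : (Fin 2 → ℝ) → ℝ} (h : IsNorm N) (hp : Parallelogram N) :
    ∃ a b c : ℝ, ∀ v, N v ^ 2 = a * v 0 ^ 2 + b * (v 0 * v 1) + c * v 1 ^ 2 := by
  let G : AddGroupNorm Syn :=
    { toFun := N
      map_zero' := (h.zero_iff 0).2 rfl
      add_le' := h.add_le
      neg' := N_neg h
      eq_zero_of_map_eq_zero' := fun x hx => (h.zero_iff x).1 hx }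
  letI I1 : NormedAddCommGroup Syn := G.toNormedAddCommGroup
  have hN : ∀ x : Syn, ‖x‖ = N x := fun x => rfl
  letI I2 : NormedSpace ℝ Syn :=
    { norm_smul_le := fun r x => by
        rw [hN, hN, Real.norm_eq_abs]
        exact (h.smul r x).le }
  letI I3 : InnerProductSpace ℝ Syn := InnerProductSpace.ofNorm ℝ (fun x y => by
    have := hp x y
    rw [← pow_two, ← pow_two, ← pow_two, ← pow_two]
    exact this)
  set e0 : Syn := (Pi.single 0 1 : Fin 2 → ℝ) with he0
  set e1 : Syn := (Pi.single 1 1 : Fin 2 → ℝ) with he1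
  refine ⟨inner ℝ e0 e0, 2 * inner ℝ e0 e1, inner ℝ e1 e1, fun v => ?_⟩
  have e : (v : Syn) = v 0 • e0 + v 1 • e1 := by
    have : v = v 0 • (Pi.single 0 1 : Fin 2 → ℝ) + v 1 • (Pi.single 1 1 : Fin 2 → ℝ) := by
      funext i
      fin_cases i <;> simp
    exact this
  have h1 : N v ^ 2 = inner ℝ (v 0 • e0 + v 1 • e1) (v 0 • e0 + v 1 • e1) := by
    rw [real_inner_self_eq_norm_sq, ← e]
    rfl
  rw [h1, inner_add_left, inner_add_right, inner_add_right, real_inner_smul_left,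
    real_inner_smul_left, real_inner_smul_left, real_inner_smul_left, real_inner_smul_right,
    real_inner_smul_right, real_inner_smul_right, real_inner_smul_right,
    real_inner_comm e0 e1]
  ring

/-- the square of the norm of the error is the sum of the squares of two additive functions -/
theorem exists_uv {N : (Fin 2 → ℝ) → ℝ} (h : IsNorm N) (hp : Parallelogram N)
    (Θ : Matrix (Fin 2) (Fin 1) ℝ) :
    ∃ u v : Lat →+ ℝ, ∀ w, Q u v w = N (vec Θ w) ^ 2 := by
  obtain ⟨a, b, c, hq⟩ := quad_of_par h hp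
  have ha : 0 < a := by
    have h1 := hq (Pi.single 0 1)
    simp only [Pi.single_eq_same, one_pow, mul_one, ne_eq, one_ne_zero, not_false_eq_true,
      Pi.single_eq_of_ne, mul_zero, add_zero, OfNat.ofNat_ne_zero, zero_pow] at h1
    have h2 : N (Pi.single 0 1) ≠ 0 := by
      intro h0
      have := congrFun ((h.zero_iff _).1 h0) 0
      simp at this
    rw [← h1]; positivity
  have hd : 0 ≤ c - b ^ 2 / (4 * a) := by
    have h1 := hq ![-b / (2 * a), 1]
    simp only [Matrix.cons_val_zero, Matrix.cons_val_one] at h1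
    have h2 : 0 ≤ N ![-b / (2 * a), 1] ^ 2 := sq_nonneg _
    rw [h1] at h2
    have h3 : a * (-b / (2 * a)) ^ 2 + b * (-b / (2 * a) * 1) + c * 1 ^ 2 = c - b ^ 2 / (4 * a) := by
      field_simp
      ring
    linarith
  have sa : Real.sqrt a ^ 2 = a := Real.sq_sqrt ha.le
  have sa0 : 0 < Real.sqrt a := Real.sqrt_pos.2 ha
  have sd : Real.sqrt (c - b ^ 2 / (4 * a)) ^ 2 = c - b ^ 2 / (4 * a) := Real.sq_sqrt hd
  have hadd : ∀ x y : Lat, vec Θ (x + y) = vec Θ x + vec Θ y := fun x y => by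
    rw [← Ve_apply, map_add]; rfl
  have hz : vec Θ (0 : Lat) = 0 := by rw [← Ve_apply, map_zero]
  refine ⟨{ toFun := fun w => Real.sqrt a * vec Θ w 0 + b / (2 * Real.sqrt a) * vec Θ w 1
            map_zero' := by rw [hz]; simp
            map_add' := fun x y => by rw [hadd]; simp only [Pi.add_apply]; ring },
    { toFun := fun w => Real.sqrt (c - b ^ 2 / (4 * a)) * vec Θ w 1
      map_zero' := by rw [hz]; simp
      map_add' := fun x y => by rw [hadd]; simp only [Pi.add_apply]; ring }, fun w => ?_⟩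
  rw [hq]
  simp only [Q, AddMonoidHom.coe_mk, ZeroHom.coe_mk, mul_pow, sd]
  have e : (Real.sqrt a * vec Θ w 0 + b / (2 * Real.sqrt a) * vec Θ w 1) ^ 2 =
      Real.sqrt a ^ 2 * vec Θ w 0 ^ 2 + b * (vec Θ w 0 * vec Θ w 1) +
        b ^ 2 / (4 * Real.sqrt a ^ 2) * vec Θ w 1 ^ 2 := by
    field_simp
    ring
  rw [e, sa]
  ring

variable {N1 : (Fin 1 → ℝ) → ℝ} {N2 : (Fin 2 → ℝ) → ℝ} {Θ : Matrix (Fin 2) (Fin 1) ℝ}
  {z : ℕ → Lat}

/-- The general passage from chains to enumerations. -/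
theorem IsEnum.bound (h1 : IsNorm N1) (hz : IsEnum N1 N2 Θ z) {r : ℝ} (hr : 1 ≤ r)
    {ν₀ : ℕ} {C : ℝ} (hC : 0 < C) (h : ∀ i, C * r ^ i ≤ |((z (ν₀ + i)).1 0 : ℝ)|) :
    ∃ D : ℝ, 0 < D ∧ ∀ ν, 1 ≤ ν → D * r ^ ν ≤ N1 (cv (z ν).1) := by
  have he := N1_pos h1
  have hr0 : 0 < r := by linarith
  set D := min (C / r ^ ν₀) (1 / r ^ ν₀) * N1 (fun _ => 1) with hD
  have hm : 0 < min (C / r ^ ν₀) (1 / r ^ ν₀) := lt_min (by positivity) (by positivity)
  refine ⟨D, mul_pos hm he, fun ν hν => ?_⟩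
  rw [N1_eq h1]
  have key : min (C / r ^ ν₀) (1 / r ^ ν₀) * r ^ ν ≤ |cv (z ν).1 0| := by
    rcases lt_or_ge ν ν₀ with hlt | hge
    · have h3 : (1 : ℝ) ≤ |cv (z ν).1 0| := by
        have h4 : (z ν).1 0 ≠ 0 := by
          intro h0
          apply (hz.1 ν hν).1
          funext k
          rw [Subsingleton.elim k 0]
          exact h0
        have := Int.one_le_abs h4
        unfold cv
        exact_mod_cast this
      refine le_trans ?_ h3
      calc min (C / r ^ ν₀) (1 / r ^ ν₀) * r ^ ν ≤ (1 / r ^ ν₀) * r ^ ν₀ := by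
            apply mul_le_mul (min_le_right _ _) (pow_le_pow_right₀ hr hlt.le) (by positivity)
              (by positivity)
        _ = 1 := by field_simp
    · obtain ⟨i, rfl⟩ := Nat.exists_eq_add_of_le hge
      refine le_trans ?_ (h i)
      calc min (C / r ^ ν₀) (1 / r ^ ν₀) * r ^ (ν₀ + i) ≤ (C / r ^ ν₀) * r ^ (ν₀ + i) :=
            mul_le_mul_of_nonneg_right (min_le_left _ _) (by positivity)
        _ = C * r ^ i := by rw [pow_add]; field_simp
  calc D * r ^ ν = (min (C / r ^ ν₀) (1 / r ^ ν₀) * r ^ ν) * N1 (fun _ => 1) := by rw [hD]; ring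
    _ ≤ _ := mul_le_mul_of_nonneg_right key he.le

/-- The lower bound for norms with the parallelogram law. -/
theorem IsEnum.lower (h1 : IsNorm N1) (h2 : IsNorm N2) (hp : Parallelogram N2)
    (hz : IsEnum N1 N2 Θ z) {φ : ℝ} (hφ : φ ^ 3 = φ + 1) :
    ∃ C : ℝ, 0 < C ∧ ∀ ν, 1 ≤ ν → C * φ ^ ν ≤ N1 (cv (z ν).1) := by
  obtain ⟨ν₀, y, hν₀, hy1, hyX, hch⟩ := hz.chain h1 h2
  obtain ⟨u, v, hQ⟩ := exists_uv h2 hp Θ
  have hc : Chain X0 u v y := by
    refine ⟨hch.pos, hch.mono, fun i => ?_, fun i w hw hwx => ?_, four_prod⟩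
    · rw [hQ, hQ]
      exact pow_lt_pow_left₀ (hch.anti i) (h2.nonneg _) (by norm_num)
    · rw [hQ, hQ]
      exact pow_le_pow_left₀ (h2.nonneg _) (hch.emp i w hw hwx) 2
  obtain ⟨C, hC, hb⟩ := hc.growth hφ
  refine hz.bound h1 (plastic_gt hφ).le (ν₀ := ν₀) hC fun i => ?_
  rw [← hyX]
  exact hb i

end Q277.EP
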