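import Mathlib
import Pool.Agent.Q277.EP.Planar
import Pool.Agent.Q277.EP.Interface
import Pool.Agent.Q277.EP.Core

/-! Chains of best approximations with respect to an arbitrary norm of the plane: the structure at a
slow step. -/

set_option autoImplicit false

open Module Pool.Agent.TH970.GB

namespace Q277.EP

section

variable {E : Type*} [AddCommGroup E] [Module ℝ E]

/-- three vectors of a plane are dependent; the largest coefficient is `1` -/
theorem rel3 [FiniteDimensional ℝ E] (hE : finrank ℝ E ≤ 2) (p q r : E) :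
    (∃ a b : ℝ, |a| ≤ 1 ∧ |b| ≤ 1 ∧ p = a • q + b • r) ∨
    (∃ a b : ℝ, |a| ≤ 1 ∧ |b| ≤ 1 ∧ q = a • p + b • r) ∨
    (∃ a b : ℝ, |a| ≤ 1 ∧ |b| ≤ 1 ∧ r = a • p + b • q) := by
  have hdep : ¬ LinearIndependent ℝ ![p, q, r] := by
    intro h
    have := h.fintype_card_le_finrank
    simp at this
    omega
  rw [Fintype.not_linearIndependent_iff] at hdep
  obtain ⟨g, hg, i, hi⟩ := hdep
  rw [Fin.sum_univ_three] at hg
  simp only [Matrix.cons_val_zero, Matrix.cons_val_one, Matrix.cons_val] at hg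
  -- the index of the largest coefficient
  obtain ⟨j, hj⟩ : ∃ j, ∀ k, |g k| ≤ |g j| := by
    obtain ⟨j, -, hj⟩ := Finset.exists_max_image Finset.univ (fun k => |g k|) ⟨0, Finset.mem_univ _⟩
    exact ⟨j, fun k => hj k (Finset.mem_univ _)⟩
  have hj0 : 0 < |g j| := lt_of_lt_of_le (abs_pos.2 hi) (hj i)
  have hj1 : g j ≠ 0 := abs_pos.1 hj0
  have hb : ∀ k, |-(g k / g j)| ≤ 1 := by
    intro k
    rw [abs_neg, abs_div, div_le_one hj0]
    exact hj k
  fin_cases j
  · left
    simp only [Fin.zero_eta] at hj1 hb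
    refine ⟨_, _, hb 1, hb 2, ?_⟩
    have : g 0 • p = -(g 1 • q + g 2 • r) := by
      rw [add_assoc] at hg; exact eq_neg_of_add_eq_zero_left hg
    calc p = (g 0)⁻¹ • (g 0 • p) := by rw [smul_smul, inv_mul_cancel₀ hj1, one_smul]
      _ = _ := by rw [this]; module
  · right; left
    simp only [Fin.mk_one] at hj1 hb
    refine ⟨_, _, hb 0, hb 2, ?_⟩
    have : g 1 • q = -(g 0 • p + g 2 • r) := by
      rw [← sub_eq_zero, ← hg]; module
    calc q = (g 1)⁻¹ • (g 1 • q) := by rw [smul_smul, inv_mul_cancel₀ hj1, one_smul]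
      _ = _ := by rw [this]; module
  · right; right
    simp only [Fin.reduceFinMk] at hj1 hb
    refine ⟨_, _, hb 0, hb 1, ?_⟩
    have : g 2 • r = -(g 0 • p + g 1 • q) := by
      rw [← sub_eq_zero, ← hg]; module
    calc r = (g 2)⁻¹ • (g 2 • r) := by rw [smul_smul, inv_mul_cancel₀ hj1, one_smul]
      _ = _ := by rw [this]; module

/-- The lemma on three vectors. -/
theorem three [FiniteDimensional ℝ E] (hE : finrank ℝ E ≤ 2) {N : E → ℝ}
    (hadd : ∀ x y, N (x + y) ≤ N x + N y) (hsm : ∀ (r : ℝ) x, N (r • x) = |r| * N x)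
    {p q r : E} {ρ s : ℝ} (hp : N p ≤ ρ) (hq : N q < ρ) (hr : N r < ρ)
    (h1 : 2 * ρ ≤ N (p + q - r)) (h2 : 2 * ρ ≤ N (p - q + r)) (hqs : N q < s) (hrs : N r < s)
    (h3 : 2 * s ≤ N (q + r - p)) : False := by
  have key : ∀ (a b : ℝ) (x y : E), N (a • x + b • y) ≤ |a| * N x + |b| * N y := by
    intro a b x y
    refine (hadd _ _).trans ?_
    rw [hsm, hsm]
  rcases rel3 hE p q r with ⟨a, b, ha, hb, e⟩ | ⟨a, b, ha, hb, e⟩ | ⟨a, b, ha, hb, e⟩
  · rw [abs_le] at ha hb
    have e1 : p + q - r = (1 + a) • q + (-(1 - b)) • r := by rw [e]; module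
    have e2 : p - q + r = (-(1 - a)) • q + (1 + b) • r := by rw [e]; module
    have k1 := key (1 + a) (-(1 - b)) q r
    have k2 := key (-(1 - a)) (1 + b) q r
    rw [abs_neg, abs_of_nonneg (by linarith), abs_of_nonneg (by linarith)] at k1 k2
    rw [e1] at h1
    rw [e2] at h2
    linarith
  · rw [abs_le] at ha hb
    have e2 : p + q - r = (1 + a) • p + (-(1 - b)) • r := by rw [e]; module
    have e3 : q + r - p = (-(1 - a)) • p + (1 + b) • r := by rw [e]; module
    have k2 := key (1 + a) (-(1 - b)) p r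
    have k3 := key (-(1 - a)) (1 + b) p r
    rw [abs_neg, abs_of_nonneg (by linarith), abs_of_nonneg (by linarith)] at k2 k3
    rw [e2] at h1
    rw [e3] at h3
    have t1 : (1 + a) * N p ≤ (1 + a) * ρ := mul_le_mul_of_nonneg_left hp (by linarith)
    have t2 : (1 - a) * N p ≤ (1 - a) * ρ := mul_le_mul_of_nonneg_left hp (by linarith)
    linarith
  · rw [abs_le] at ha hb
    have e2 : p - q + r = (1 + a) • p + (-(1 - b)) • q := by rw [e]; module
    have e3 : q + r - p = (-(1 - a)) • p + (1 + b) • q := by rw [e]; module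
    have k2 := key (1 + a) (-(1 - b)) p q
    have k3 := key (-(1 - a)) (1 + b) p q
    rw [abs_neg, abs_of_nonneg (by linarith), abs_of_nonneg (by linarith)] at k2 k3
    rw [e2] at h2
    rw [e3] at h3
    have t1 : (1 + a) * N p ≤ (1 + a) * ρ := mul_le_mul_of_nonneg_left hp (by linarith)
    have t2 : (1 - a) * N p ≤ (1 - a) * ρ := mul_le_mul_of_nonneg_left hp (by linarith)
    linarith

end

section

variable {E : Type*} [AddCommGroup E] [Module ℝ E] {L : Type*} [AddCommGroup L]
  {X : L →+ ℝ} {ξ : L →+ E} {N : E → ℝ} {z : ℕ → L}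

theorem two_smul_eq (hsm : ∀ (r : ℝ) x, N (r • x) = |r| * N x) {t w : L} (ht : t + t = w) :
    N (ξ w) = 2 * N (ξ t) := by
  rw [← ht, map_add, ← two_smul ℝ, hsm, abs_of_pos (by norm_num)]

omit [Module ℝ E] in
theorem NChain.low (h : NChain X (fun w => N (ξ w)) z) (i : ℕ) {w : L} (h0 : X w ≠ 0)
    (h1 : X w < X (z (i + 1))) (h2 : - X (z (i + 1)) < X w) : N (ξ (z i)) ≤ N (ξ w) := by
  refine h.emp i w ?_ (abs_lt.2 ⟨h2, h1⟩)
  rintro rfl
  exact h0 (map_zero X)

theorem NChain.not_single (hsm : ∀ (r : ℝ) x, N (r • x) = |r| * N x) (hpos : ∀ x, 0 ≤ N x)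
    (h : NChain X (fun w => N (ξ w)) z) (i : ℕ) : ¬ Ev (z i) := by
  rintro ⟨t, ht⟩
  have hp := h.pos i
  have hm := h.mono i
  have hX := half_eq (f := X) ht
  have h1 := h.low i (w := t) (by rw [hX]; positivity) (by rw [hX]; linarith) (by rw [hX]; linarith)
  have h2 := two_smul_eq (N := N) (ξ := ξ) hsm ht
  have h3 := h.anti i
  have h4 := hpos (ξ (z (i + 1)))
  linarith

theorem N_sub_le (hadd : ∀ x y, N (x + y) ≤ N x + N y)
    (hsm : ∀ (r : ℝ) x, N (r • x) = |r| * N x) (x y : E) : N (x - y) ≤ N x + N y := by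
  have h1 := hadd x ((-1 : ℝ) • y)
  rw [hsm, neg_one_smul, ← sub_eq_add_neg] at h1
  simpa using h1

theorem NChain.pair_bd (hadd : ∀ x y, N (x + y) ≤ N x + N y)
    (hsm : ∀ (r : ℝ) x, N (r • x) = |r| * N x) (h : NChain X (fun w => N (ξ w)) z) {i : ℕ}
    {a b : L} (ha : a = z i) (hij : X a < X b) (hN : N (ξ b) < N (ξ a)) (he : Ev (a + b)) :
    2 * X (z (i + 1)) + X a ≤ X b := by
  by_contra hc
  push Not at hc
  obtain ⟨t, ht⟩ := he
  have hp := h.pos i
  have hm := h.mono i
  have hX : X (t - a) = (X b - X a) / 2 := by rw [map_sub, half_eq ht, map_add]; ring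
  have h1 := h.low i (w := t - a) (by rw [hX]; intro h0; linarith) (by rw [hX]; linarith)
    (by rw [hX]; linarith)
  have h2 : (t - a) + (t - a) = b - a := by
    rw [show (t - a) + (t - a) = (t + t) - a - a by abel, ht]; abel
  have h3 := two_smul_eq (N := N) (ξ := ξ) hsm h2
  have h4 := N_sub_le hadd hsm (ξ b) (ξ a)
  rw [map_sub] at h3
  rw [← ha] at h1
  linarith

variable [FiniteDimensional ℝ E]

theorem trip_false (hE : finrank ℝ E ≤ 2) (hadd : ∀ x y, N (x + y) ≤ N x + N y)
    (hsm : ∀ (r : ℝ) x, N (r • x) = |r| * N x) {a b c t : L} (ht : t + t = a + b + c) {ρ s : ℝ}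
    (ha : N (ξ a) ≤ ρ) (hb : N (ξ b) < ρ) (hc : N (ξ c) < ρ) (h1 : ρ ≤ N (ξ (t - b)))
    (h2 : ρ ≤ N (ξ (t - c))) (hbs : N (ξ b) < s) (hcs : N (ξ c) < s)
    (h3 : s ≤ N (ξ (t - a))) : False := by
  have e1 : (t - b) + (t - b) = a - b + c := by
    rw [show (t - b) + (t - b) = (t + t) - b - b by abel, ht]; abel
  have e2 : (t - c) + (t - c) = a + b - c := by
    rw [show (t - c) + (t - c) = (t + t) - c - c by abel, ht]; abel
  have e3 : (t - a) + (t - a) = b + c - a := by
    rw [show (t - a) + (t - a) = (t + t) - a - a by abel, ht]; abel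
  have f1 := two_smul_eq (N := N) (ξ := ξ) hsm e1
  have f2 := two_smul_eq (N := N) (ξ := ξ) hsm e2
  have f3 := two_smul_eq (N := N) (ξ := ξ) hsm e3
  rw [map_add, map_sub] at f1
  rw [map_sub, map_add] at f2 f3
  exact three hE hadd hsm (p := ξ a) (q := ξ b) (r := ξ c) (ρ := ρ) (s := s) ha hb hc
    (by linarith) (by linarith) hbs hcs (by linarith)

/-- The structure at a slow step for an arbitrary norm. -/
theorem NChain.slow (hE : finrank ℝ E ≤ 2) (hadd : ∀ x y, N (x + y) ≤ N x + N y)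
    (hsm : ∀ (r : ℝ) x, N (r • x) = |r| * N x) (hpos : ∀ x, 0 ≤ N x)
    (h : NChain X (fun w => N (ξ w)) z) (hs : X (z 4) < X (z 1) + X (z 2)) :
    z 4 = z 2 + z 3 - z 1 ∧ X (z 1) + X (z 0) ≤ X (z 3) := by
  have p0 := h.pos 0
  have m0 := h.mono 0
  have m1 := h.mono 1
  have m2 := h.mono 2
  have m3 := h.mono 3
  have a0 := h.anti 0
  have a1 := h.anti 1
  have a2 := h.anti 2
  have a3 := h.anti 3
  simp only [show (0 : ℕ) + 1 = 1 from rfl, show (3 : ℕ) + 1 = 4 from rfl,
    show (1 : ℕ) + 1 = 2 from rfl, show (2 : ℕ) + 1 = 3 from rfl] at m0 m1 m2 m3 a0 a1 a2 a3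
  have E0 : ∀ w : L, X w ≠ 0 → X w < X (z 1) → -X (z 1) < X w → N (ξ (z 0)) ≤ N (ξ w) :=
    fun w => h.low 0
  have E1 : ∀ w : L, X w ≠ 0 → X w < X (z 2) → -X (z 2) < X w → N (ξ (z 1)) ≤ N (ξ w) :=
    fun w => h.low 1
  have E2 : ∀ w : L, X w ≠ 0 → X w < X (z 3) → -X (z 3) < X w → N (ξ (z 2)) ≤ N (ξ w) :=
    fun w => h.low 2
  have s1 := h.not_single hsm hpos 1
  have s2 := h.not_single hsm hpos 2
  have s3 := h.not_single hsm hpos 3
  have s4 := h.not_single hsm hpos 4
  have pr : ∀ (i : ℕ) (b : L), X (z i) < X b → N (ξ b) < N (ξ (z i)) → Ev (z i + b) →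
      2 * X (z (i + 1)) + X (z i) ≤ X b := fun i b => h.pair_bd hadd hsm rfl
  have n12 : ¬ Ev (z 1 + z 2) := fun e => by
    have := pr 1 _ (by linarith) (by linarith) e
    simp only [show (1 : ℕ) + 1 = 2 from rfl] at this
    linarith
  have n13 : ¬ Ev (z 1 + z 3) := fun e => by
    have := pr 1 _ (by linarith) (by linarith) e
    simp only [show (1 : ℕ) + 1 = 2 from rfl] at this
    linarith
  have n14 : ¬ Ev (z 1 + z 4) := fun e => by
    have := pr 1 _ (by linarith) (by linarith) e
    simp only [show (1 : ℕ) + 1 = 2 from rfl] at this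
    linarith
  have n23 : ¬ Ev (z 2 + z 3) := fun e => by
    have := pr 2 _ (by linarith) (by linarith) e
    simp only [show (2 : ℕ) + 1 = 3 from rfl] at this
    linarith
  have n24 : ¬ Ev (z 2 + z 4) := fun e => by
    have := pr 2 _ (by linarith) (by linarith) e
    simp only [show (2 : ℕ) + 1 = 3 from rfl] at this
    linarith
  have n34 : ¬ Ev (z 3 + z 4) := fun e => by
    have := pr 3 _ (by linarith) (by linarith) e
    simp only [show (3 : ℕ) + 1 = 4 from rfl] at this
    linarith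
  -- triples among 1 2 3 4
  have n123 : ¬ Ev (z 1 + z 2 + z 3) := by
    rintro ⟨t, ht⟩
    have x0 : X t = (X (z 1) + X (z 2) + X (z 3)) / 2 := by rw [half_eq ht, map_add, map_add]
    have x1 : X (t - z 1) = (X (z 2) + X (z 3) - X (z 1)) / 2 := by rw [map_sub, x0]; ring
    have x2 : X (t - z 2) = (X (z 1) + X (z 3) - X (z 2)) / 2 := by rw [map_sub, x0]; ring
    have x3 : X (t - z 3) = (X (z 1) + X (z 2) - X (z 3)) / 2 := by rw [map_sub, x0]; ring
    exact trip_false hE hadd hsm ht (ρ := N (ξ (z 1))) (s := N (ξ (z 1))) le_rfl (by linarith)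
      (by linarith)
      (E1 _ (by rw [x2]; intro; linarith) (by rw [x2]; linarith) (by rw [x2]; linarith))
      (E1 _ (by rw [x3]; intro; linarith) (by rw [x3]; linarith) (by rw [x3]; linarith))
      (by linarith) (by linarith)
      (E1 _ (by rw [x1]; intro; linarith) (by rw [x1]; linarith) (by rw [x1]; linarith))
  have n124 : ¬ Ev (z 1 + z 2 + z 4) := by
    rintro ⟨t, ht⟩
    have x0 : X t = (X (z 1) + X (z 2) + X (z 4)) / 2 := by rw [half_eq ht, map_add, map_add]
    have x1 : X (t - z 1) = (X (z 2) + X (z 4) - X (z 1)) / 2 := by rw [map_sub, x0]; ring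
    have x2 : X (t - z 2) = (X (z 1) + X (z 4) - X (z 2)) / 2 := by rw [map_sub, x0]; ring
    have x3 : X (t - z 4) = (X (z 1) + X (z 2) - X (z 4)) / 2 := by rw [map_sub, x0]; ring
    exact trip_false hE hadd hsm ht (ρ := N (ξ (z 1))) (s := N (ξ (z 1))) le_rfl (by linarith)
      (by linarith)
      (E1 _ (by rw [x2]; intro; linarith) (by rw [x2]; linarith) (by rw [x2]; linarith))
      (E1 _ (by rw [x3]; intro; linarith) (by rw [x3]; linarith) (by rw [x3]; linarith))
      (by linarith) (by linarith)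
      (E1 _ (by rw [x1]; intro; linarith) (by rw [x1]; linarith) (by rw [x1]; linarith))
  have n134 : ¬ Ev (z 1 + z 3 + z 4) := by
    rintro ⟨t, ht⟩
    have x0 : X t = (X (z 1) + X (z 3) + X (z 4)) / 2 := by rw [half_eq ht, map_add, map_add]
    have x1 : X (t - z 1) = (X (z 3) + X (z 4) - X (z 1)) / 2 := by rw [map_sub, x0]; ring
    have x2 : X (t - z 3) = (X (z 1) + X (z 4) - X (z 3)) / 2 := by rw [map_sub, x0]; ring
    have x3 : X (t - z 4) = (X (z 1) + X (z 3) - X (z 4)) / 2 := by rw [map_sub, x0]; ring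
    exact trip_false hE hadd hsm ht (ρ := N (ξ (z 1))) (s := N (ξ (z 2))) le_rfl (by linarith)
      (by linarith)
      (a0.le.trans
        (E0 _ (by rw [x2]; intro; linarith) (by rw [x2]; linarith) (by rw [x2]; linarith)))
      (a0.le.trans
        (E0 _ (by rw [x3]; intro; linarith) (by rw [x3]; linarith) (by rw [x3]; linarith)))
      (by linarith) (by linarith)
      (E2 _ (by rw [x1]; intro; linarith) (by rw [x1]; linarith) (by rw [x1]; linarith))
  have n234 : ¬ Ev (z 2 + z 3 + z 4) := by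
    rintro ⟨t, ht⟩
    have x0 : X t = (X (z 2) + X (z 3) + X (z 4)) / 2 := by rw [half_eq ht, map_add, map_add]
    have x1 : X (t - z 2) = (X (z 3) + X (z 4) - X (z 2)) / 2 := by rw [map_sub, x0]; ring
    have x2 : X (t - z 3) = (X (z 2) + X (z 4) - X (z 3)) / 2 := by rw [map_sub, x0]; ring
    have x3 : X (t - z 4) = (X (z 2) + X (z 3) - X (z 4)) / 2 := by rw [map_sub, x0]; ring
    exact trip_false hE hadd hsm ht (ρ := N (ξ (z 2))) (s := N (ξ (z 2))) le_rfl (by linarith)
      (by linarith)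
      (E2 _ (by rw [x2]; intro; linarith) (by rw [x2]; linarith) (by rw [x2]; linarith))
      (E2 _ (by rw [x3]; intro; linarith) (by rw [x3]; linarith) (by rw [x3]; linarith))
      (by linarith) (by linarith)
      (E2 _ (by rw [x1]; intro; linarith) (by rw [x1]; linarith) (by rw [x1]; linarith))
  have n1234 : Ev (z 1 + z 2 + z 3 + z 4) := by
    rcases h.four (z 1) (z 2) (z 3) (z 4) with e | e | e | e | e | e | e | e | e | e | e | e | e | e | e
    · exact absurd e s1
    · exact absurd e s2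
    · exact absurd e s3
    · exact absurd e s4
    · exact absurd e n12
    · exact absurd e n13
    · exact absurd e n14
    · exact absurd e n23
    · exact absurd e n24
    · exact absurd e n34
    · exact absurd e n123
    · exact absurd e n124
    · exact absurd e n134
    · exact absurd e n234
    · exact e
  have hrel : z 4 = z 2 + z 3 - z 1 := by
    obtain ⟨t, ht⟩ := n1234
    have x0 : X t = (X (z 1) + X (z 2) + X (z 3) + X (z 4)) / 2 := by
      rw [half_eq ht, map_add, map_add, map_add]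
    have hp := pairing hE hadd hsm (p0 := ξ (z 1)) (p1 := ξ (z 2)) (p2 := ξ (z 3)) (p3 := ξ (z 4))
      (r := N (ξ (z 1))) le_rfl (by linarith) (by linarith) (by linarith)
    have y1 : (t - z 1 - z 2) + (t - z 1 - z 2) = -(z 1 + z 2 - z 3 - z 4) := by
      rw [show (t - z 1 - z 2) + (t - z 1 - z 2) = (t + t) - z 1 - z 2 - z 1 - z 2 by abel, ht]
      abel
    have y2 : (t - z 1 - z 3) + (t - z 1 - z 3) = -(z 1 + z 3 - z 2 - z 4) := by
      rw [show (t - z 1 - z 3) + (t - z 1 - z 3) = (t + t) - z 1 - z 3 - z 1 - z 3 by abel, ht]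
      abel
    have y3 : (t - z 1 - z 4) + (t - z 1 - z 4) = -(z 1 + z 4 - z 2 - z 3) := by
      rw [show (t - z 1 - z 4) + (t - z 1 - z 4) = (t + t) - z 1 - z 4 - z 1 - z 4 by abel, ht]
      abel
    have hneg : ∀ x, N (-x) = N x := fun x => by
      have := hsm (-1) x
      simpa using this
    rcases hp with g | g | g
    · exfalso
      have e := two_smul_eq (N := N) (ξ := ξ) hsm y1
      rw [map_neg, hneg, map_sub, map_sub, map_add] at e
      have x1 : X (t - z 1 - z 2) = (X (z 3) + X (z 4) - X (z 1) - X (z 2)) / 2 := by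
        rw [map_sub, map_sub, x0]; ring
      have := E1 (t - z 1 - z 2) (by rw [x1]; intro; linarith) (by rw [x1]; linarith)
        (by rw [x1]; linarith)
      linarith
    · exfalso
      have e := two_smul_eq (N := N) (ξ := ξ) hsm y2
      rw [map_neg, hneg, map_sub, map_sub, map_add] at e
      have x1 : X (t - z 1 - z 3) = (X (z 2) + X (z 4) - X (z 1) - X (z 3)) / 2 := by
        rw [map_sub, map_sub, x0]; ring
      have := E1 (t - z 1 - z 3) (by rw [x1]; intro; linarith) (by rw [x1]; linarith)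
        (by rw [x1]; linarith)
      linarith
    · have e := two_smul_eq (N := N) (ξ := ξ) hsm y3
      rw [map_neg, hneg, map_sub, map_sub, map_add] at e
      have x1 : X (t - z 1 - z 4) = (X (z 2) + X (z 3) - X (z 1) - X (z 4)) / 2 := by
        rw [map_sub, map_sub, x0]; ring
      have h0 : t - z 1 - z 4 = 0 := by
        by_contra hne
        have := h.emp 1 (t - z 1 - z 4) hne (abs_lt.2 ⟨by
          rw [x1]; simp only [show (1 : ℕ) + 1 = 2 from rfl]; linarith, by
          rw [x1]; simp only [show (1 : ℕ) + 1 = 2 from rfl]; linarith⟩)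
        linarith
      rw [h0, add_zero] at y3
      have y4 : z 1 + z 4 - z 2 - z 3 = 0 := neg_eq_zero.1 y3.symm
      have y5 : z 4 = (z 1 + z 4 - z 2 - z 3) + (z 2 + z 3 - z 1) := by abel
      rw [y4, zero_add] at y5
      exact y5
  refine ⟨hrel, ?_⟩
  by_contra hc
  push Not at hc
  have hX4 : X (z 4) = X (z 2) + X (z 3) - X (z 1) := by rw [hrel, map_sub, map_add]
  rcases h.four (z 0) (z 1) (z 2) (z 3) with e | e | e | e | e | e | e | e | e | e | e | e | e | e | e
  · exact h.not_single hsm hpos 0 e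
  · exact s1 e
  · exact s2 e
  · exact s3 e
  · have := pr 0 _ (by linarith) (by linarith) e
    simp only [show (0 : ℕ) + 1 = 1 from rfl] at this
    linarith
  · have := pr 0 _ (by linarith) (by linarith) e
    simp only [show (0 : ℕ) + 1 = 1 from rfl] at this
    linarith
  · have := pr 0 _ (by linarith) (by linarith) e
    simp only [show (0 : ℕ) + 1 = 1 from rfl] at this
    linarith
  · exact n12 e
  · exact n13 e
  · exact n23 e
  · -- 0 1 2
    obtain ⟨t, ht⟩ := e
    have x0 : X t = (X (z 0) + X (z 1) + X (z 2)) / 2 := by rw [half_eq ht, map_add, map_add]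
    have x1 : X (t - z 0) = (X (z 1) + X (z 2) - X (z 0)) / 2 := by rw [map_sub, x0]; ring
    have x2 : X (t - z 1) = (X (z 0) + X (z 2) - X (z 1)) / 2 := by rw [map_sub, x0]; ring
    have x3 : X (t - z 2) = (X (z 0) + X (z 1) - X (z 2)) / 2 := by rw [map_sub, x0]; ring
    exact trip_false hE hadd hsm ht (ρ := N (ξ (z 0))) (s := N (ξ (z 0))) le_rfl (by linarith)
      (by linarith)
      (E0 _ (by rw [x2]; intro; linarith) (by rw [x2]; linarith) (by rw [x2]; linarith))
      (E0 _ (by rw [x3]; intro; linarith) (by rw [x3]; linarith) (by rw [x3]; linarith))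
      (by linarith) (by linarith)
      (E0 _ (by rw [x1]; intro; linarith) (by rw [x1]; linarith) (by rw [x1]; linarith))
  · -- 0 1 3
    obtain ⟨t, ht⟩ := e
    have x0 : X t = (X (z 0) + X (z 1) + X (z 3)) / 2 := by rw [half_eq ht, map_add, map_add]
    have x1 : X (t - z 0) = (X (z 1) + X (z 3) - X (z 0)) / 2 := by rw [map_sub, x0]; ring
    have x2 : X (t - z 1) = (X (z 0) + X (z 3) - X (z 1)) / 2 := by rw [map_sub, x0]; ring
    have x3 : X (t - z 3) = (X (z 0) + X (z 1) - X (z 3)) / 2 := by rw [map_sub, x0]; ring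
    exact trip_false hE hadd hsm ht (ρ := N (ξ (z 0))) (s := N (ξ (z 0))) le_rfl (by linarith)
      (by linarith)
      (E0 _ (by rw [x2]; intro; linarith) (by rw [x2]; linarith) (by rw [x2]; linarith))
      (E0 _ (by rw [x3]; intro; linarith) (by rw [x3]; linarith) (by rw [x3]; linarith))
      (by linarith) (by linarith)
      (E0 _ (by rw [x1]; intro; linarith) (by rw [x1]; linarith) (by rw [x1]; linarith))
  · -- 0 2 3
    obtain ⟨t, ht⟩ := e
    have x0 : X t = (X (z 0) + X (z 2) + X (z 3)) / 2 := by rw [half_eq ht, map_add, map_add]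
    have x1 : X (t - z 0) = (X (z 2) + X (z 3) - X (z 0)) / 2 := by rw [map_sub, x0]; ring
    have x2 : X (t - z 2) = (X (z 0) + X (z 3) - X (z 2)) / 2 := by rw [map_sub, x0]; ring
    have x3 : X (t - z 3) = (X (z 0) + X (z 2) - X (z 3)) / 2 := by rw [map_sub, x0]; ring
    exact trip_false hE hadd hsm ht (ρ := N (ξ (z 0))) (s := N (ξ (z 1))) le_rfl (by linarith)
      (by linarith)
      (E0 _ (by rw [x2]; intro; linarith) (by rw [x2]; linarith) (by rw [x2]; linarith))
      (E0 _ (by rw [x3]; intro; linarith) (by rw [x3]; linarith) (by rw [x3]; linarith))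
      (by linarith) (by linarith)
      (E1 _ (by rw [x1]; intro; linarith) (by rw [x1]; linarith) (by rw [x1]; linarith))
  · exact n123 e
  · -- 0 1 2 3
    have e2 : Ev (z 0 + z 4) := by
      refine e.congr (t := - z 1) ?_
      rw [hrel]; abel
    have := pr 0 _ (by linarith) (by linarith) e2
    simp only [show (0 : ℕ) + 1 = 1 from rfl] at this
    linarith

/-- Four consecutive steps for an arbitrary norm. -/
theorem NChain.four_steps (hE : finrank ℝ E ≤ 2) (hadd : ∀ x y, N (x + y) ≤ N x + N y)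
    (hsm : ∀ (r : ℝ) x, N (r • x) = |r| * N x) (hpos : ∀ x, 0 ≤ N x)
    (h : NChain X (fun w => N (ξ w)) z) : X (z 2) + X (z 0) ≤ X (z 4) := by
  by_cases hs : X (z 4) < X (z 1) + X (z 2)
  · obtain ⟨h1, h2⟩ := h.slow hE hadd hsm hpos hs
    rw [h1, map_sub, map_add]
    linarith
  · have m0 := h.mono 0
    simp only [show (0 : ℕ) + 1 = 1 from rfl] at m0
    linarith

end

end Q277.EP
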