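import Mathlib
import Pool.Agent.Q277.EP.Norm
import Pool.Agent.Q277.EP.Lower

/-! The growth for arbitrary norms: the square root of the golden ratio. -/

set_option autoImplicit false

open Module Pool.Agent.TH970.GB

namespace Q277.EP

theorem four_step_growth {t : ℝ} (ht0 : 0 < t) (ht : t ^ 4 = t ^ 2 + 1) {x : ℕ → ℝ}
    (hp : ∀ n, 0 < x n) (hx : ∀ n, x (n + 2) + x n ≤ x (n + 4)) :
    ∃ C : ℝ, 0 < C ∧ ∀ n, C * t ^ n ≤ x n := by
  have hq : ∀ n, 0 < x n / t ^ n := fun n => div_pos (hp n) (pow_pos ht0 n)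
  obtain ⟨C, hC, b0, b1, b2, b3⟩ : ∃ C : ℝ, 0 < C ∧ C ≤ x 0 / t ^ 0 ∧ C ≤ x 1 / t ^ 1 ∧
      C ≤ x 2 / t ^ 2 ∧ C ≤ x 3 / t ^ 3 := by
    refine ⟨min (min (x 0 / t ^ 0) (x 1 / t ^ 1)) (min (x 2 / t ^ 2) (x 3 / t ^ 3)), ?_, ?_, ?_, ?_,
      ?_⟩
    · exact lt_min (lt_min (hq 0) (hq 1)) (lt_min (hq 2) (hq 3))
    · exact (min_le_left _ _).trans (min_le_left _ _)
    · exact (min_le_left _ _).trans (min_le_right _ _)
    · exact (min_le_right _ _).trans (min_le_left _ _)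
    · exact (min_le_right _ _).trans (min_le_right _ _)
  refine ⟨C, hC, fun n => ?_⟩
  induction n using Nat.strong_induction_on with
  | _ n ih =>
    match n, ih with
    | 0, _ => exact (le_div_iff₀ (pow_pos ht0 _)).1 b0
    | 1, _ => exact (le_div_iff₀ (pow_pos ht0 _)).1 b1
    | 2, _ => exact (le_div_iff₀ (pow_pos ht0 _)).1 b2
    | 3, _ => exact (le_div_iff₀ (pow_pos ht0 _)).1 b3
    | (n + 4), ih =>
      have h1 := ih n (by omega)
      have h2 := ih (n + 2) (by omega)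
      have h3 := hx n
      calc C * t ^ (n + 4) = C * t ^ (n + 2) + C * t ^ n := by
            rw [pow_add t n 4, ht]; ring
        _ ≤ x (n + 2) + x n := by linarith
        _ ≤ _ := h3

variable {N1 : (Fin 1 → ℝ) → ℝ} {N2 : (Fin 2 → ℝ) → ℝ} {Θ : Matrix (Fin 2) (Fin 1) ℝ}
  {z : ℕ → Lat}

theorem NChain.shift {L : Type*} [AddCommGroup L] {X : L →+ ℝ} {N : L → ℝ} {z : ℕ → L}
    (h : NChain X N z) (n : ℕ) : NChain X N fun i => z (n + i) where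
  pos _ := h.pos _
  mono _ := h.mono _
  anti _ := h.anti _
  emp _ := h.emp _
  four := h.four

/-- The recursion for arbitrary norms. -/
theorem IsEnum.steps (h1 : IsNorm N1) (h2 : IsNorm N2) (hz : IsEnum N1 N2 Θ z) :
    ∃ ν₀, 1 ≤ ν₀ ∧ ∀ ν, ν₀ ≤ ν →
      N1 (cv (z (ν + 2)).1) + N1 (cv (z ν).1) ≤ N1 (cv (z (ν + 4)).1) := by
  obtain ⟨ν₀, y, hν₀, hy1, hyX, hch⟩ := hz.chain h1 h2
  refine ⟨ν₀, hν₀, fun ν hν => ?_⟩
  obtain ⟨n, rfl⟩ := Nat.exists_eq_add_of_le hν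
  have hc := (hch.shift n).four_steps (E := Fin 2 → ℝ) (ξ := Ve Θ) (N := N2) (by simp) h2.add_le
    h2.smul h2.nonneg
  simp only [hyX] at hc
  rw [N1_eq h1 (cv (z (ν₀ + n + 2)).1), N1_eq h1 (cv (z (ν₀ + n)).1),
    N1_eq h1 (cv (z (ν₀ + n + 4)).1)]
  simp only [cv]
  have he := N1_pos h1
  rw [← add_mul]
  refine mul_le_mul_of_nonneg_right ?_ he.le
  exact hc

/-- The lower bound for arbitrary norms. -/
theorem IsEnum.lowerN (h1 : IsNorm N1) (h2 : IsNorm N2) (hz : IsEnum N1 N2 Θ z) {t : ℝ}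
    (ht0 : 0 < t) (ht : t ^ 4 = t ^ 2 + 1) :
    ∃ C : ℝ, 0 < C ∧ ∀ ν, 1 ≤ ν → C * t ^ ν ≤ N1 (cv (z ν).1) := by
  obtain ⟨ν₀, y, hν₀, hy1, hyX, hch⟩ := hz.chain h1 h2
  have ht1 : 1 ≤ t := by
    by_contra hlt
    push Not at hlt
    have : t ^ 4 < 1 := pow_lt_one₀ ht0.le hlt (by norm_num)
    have h3 : 0 < t ^ 2 := by positivity
    linarith
  obtain ⟨C, hC, hb⟩ := four_step_growth ht0 ht (x := fun n => X0 (y n)) hch.pos (fun n => by
    have hc := (hch.shift n).four_steps (E := Fin 2 → ℝ) (ξ := Ve Θ) (N := N2) (by simp) h2.add_le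
      h2.smul h2.nonneg
    exact hc)
  refine hz.bound h1 ht1 (ν₀ := ν₀) hC fun i => ?_
  rw [← hyX]
  exact hb i

end Q277.EP
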