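import Mathlib

/-! From `C φ ^ ν ≤ M ν` to the lower limit of `M ν ^ (1 / ν)`. -/

set_option autoImplicit false

open Filter Topology

namespace Q277.EP

theorem tendsto_const_root {C φ : ℝ} (hC : 0 < C) :
    Tendsto (fun ν : ℕ => ((C ^ (1 / (ν : ℝ)) * φ : ℝ) : EReal)) atTop (𝓝 (φ : EReal)) := by
  have h1 : Tendsto (fun ν : ℕ => C ^ (1 / (ν : ℝ))) atTop (𝓝 (C ^ (0 : ℝ))) := by
    have h0 : Tendsto (fun ν : ℕ => 1 / (ν : ℝ)) atTop (𝓝 0) := tendsto_one_div_atTop_nhds_zero_nat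
    exact (Real.continuousAt_const_rpow hC.ne').tendsto.comp h0
  rw [Real.rpow_zero] at h1
  have h2 := h1.mul_const φ
  rw [one_mul] at h2
  exact (continuous_coe_real_ereal.tendsto φ).comp h2

theorem root_eq {C φ : ℝ} (hC : 0 < C) (hφ : 0 < φ) {ν : ℕ} (hν : 1 ≤ ν) :
    (C * φ ^ ν) ^ (1 / (ν : ℝ)) = C ^ (1 / (ν : ℝ)) * φ := by
  have hν0 : (ν : ℝ) ≠ 0 := by
    have : ν ≠ 0 := by omega
    exact_mod_cast this
  rw [Real.mul_rpow hC.le (by positivity), ← Real.rpow_natCast φ ν, ← Real.rpow_mul hφ.le,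
    mul_one_div_cancel hν0, Real.rpow_one]

theorem liminf_ge {M : ℕ → ℝ} {C φ : ℝ} (hC : 0 < C) (hφ : 0 < φ)
    (h : ∀ ν, 1 ≤ ν → C * φ ^ ν ≤ M ν) :
    (φ : EReal) ≤ liminf (fun ν : ℕ => ((M ν ^ (1 / (ν : ℝ)) : ℝ) : EReal)) atTop := by
  rw [← (tendsto_const_root (φ := φ) hC).liminf_eq]
  refine liminf_le_liminf ?_
  filter_upwards [eventually_ge_atTop 1] with ν hν
  rw [EReal.coe_le_coe_iff, ← root_eq hC hφ hν]
  exact Real.rpow_le_rpow (by positivity) (h ν hν) (by positivity)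

theorem liminf_le {M : ℕ → ℝ} {C φ : ℝ} (hC : 0 < C) (hφ : 0 < φ) (h0 : ∀ ν, 1 ≤ ν → 0 ≤ M ν)
    (h : ∀ ν, 1 ≤ ν → M ν ≤ C * φ ^ ν) :
    liminf (fun ν : ℕ => ((M ν ^ (1 / (ν : ℝ)) : ℝ) : EReal)) atTop ≤ (φ : EReal) := by
  rw [← (tendsto_const_root (φ := φ) hC).liminf_eq]
  refine liminf_le_liminf ?_
  filter_upwards [eventually_ge_atTop 1] with ν hν
  rw [EReal.coe_le_coe_iff, ← root_eq hC hφ hν]
  exact Real.rpow_le_rpow (h0 ν hν) (h ν hν) (by positivity)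

end Q277.EP
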