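import Mathlib
import Pool.Agent.Q277.EP.GrowthN
import Pool.Agent.Q277.EP.Example
import Pool.Agent.Q277.EP.Limits

/-! Best approximation vectors `(x, y) ∈ ℤ × ℤ²` of a vector in the plane. -/

set_option autoImplicit false

open Module Filter Pool.Agent.TH970.GB

namespace Q277.EP

/-- `x θ - y` -/
def err (θ : Fin 2 → ℝ) (z : ℤ × (Fin 2 → ℤ)) : Fin 2 → ℝ := fun i => z.1 * θ i - z.2 i

/-- the only integer points `(x', y')` with `|x'| ≤ |x|` and `|x' θ - y'| ≤ |x θ - y|` are `0` and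
`±z` -/
def Best (N : (Fin 2 → ℝ) → ℝ) (θ : Fin 2 → ℝ) (z : ℤ × (Fin 2 → ℤ)) : Prop :=
  z ≠ 0 ∧ ∀ z' : ℤ × (Fin 2 → ℤ), |z'.1| ≤ |z.1| → N (err θ z') ≤ N (err θ z) →
    z' = 0 ∨ z' = z ∨ z' = -z

/-- the best approximation vectors up to sign, by increasing `|x|` -/
def Enumeration (N : (Fin 2 → ℝ) → ℝ) (θ : Fin 2 → ℝ) (z : ℕ → ℤ × (Fin 2 → ℤ)) : Prop :=
  (∀ ν, 1 ≤ ν → Best N θ (z ν)) ∧ (∀ i j, 1 ≤ i → i < j → |(z i).1| < |(z j).1|) ∧
  (∀ v, Best N θ v → ∃ ν, 1 ≤ ν ∧ (v = z ν ∨ v = -z ν))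

/-- the absolute value as a norm on `ℝ¹` -/
def ab (x : Fin 1 → ℝ) : ℝ := |x 0|

theorem ab_norm : IsNorm ab := by
  refine ⟨fun x => ?_, fun x y => ?_, fun r x => ?_⟩
  · unfold ab
    rw [abs_eq_zero]
    constructor
    · intro h
      funext i
      rw [Subsingleton.elim i 0]
      exact h
    · rintro rfl; rfl
  · exact abs_add_le _ _
  · unfold ab
    rw [← abs_mul]
    rfl

/-- the matrix of `θ` -/
def mat (θ : Fin 2 → ℝ) : Matrix (Fin 2) (Fin 1) ℝ := Matrix.of fun i _ => θ i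

/-- the same vector in the notation of matrices -/
def conv : (ℤ × (Fin 2 → ℤ)) ≃+ Lat where
  toFun z := (fun _ => z.1, z.2)
  invFun w := (w.1 0, w.2)
  left_inv z := rfl
  right_inv w := by
    refine Prod.ext ?_ rfl
    funext i
    rw [Subsingleton.elim i 0]
  map_add' a b := rfl

theorem conv_fst (z : ℤ × (Fin 2 → ℤ)) : (conv z).1 0 = z.1 := rfl

theorem vec_conv (θ : Fin 2 → ℝ) (z : ℤ × (Fin 2 → ℤ)) : vec (mat θ) (conv z) = err θ z := by
  funext i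
  simp [vec, mat, conv, cv, err, Matrix.mulVec, dotProduct, mul_comm]

theorem ab_cv (x : Fin 1 → ℤ) : ab (cv x) = ((|x 0| : ℤ) : ℝ) := by
  unfold ab cv
  push_cast
  rfl

theorem best_conv {N : (Fin 2 → ℝ) → ℝ} {θ : Fin 2 → ℝ} {z : ℤ × (Fin 2 → ℤ)} :
    IsBest ab N (mat θ) (conv z) ↔ (Best N θ z ∧ z.1 ≠ 0) := by
  have hx : (conv z).1 ≠ 0 ↔ z.1 ≠ 0 := by
    rw [not_iff_not]
    constructor
    · intro h
      rw [← conv_fst, h]; rfl
    · intro h
      funext i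
      rw [Subsingleton.elim i 0, conv_fst, h]; rfl
  have key : ∀ z' : ℤ × (Fin 2 → ℤ),
      ((ab (cv (conv z').1) ≤ ab (cv (conv z).1) → N (vec (mat θ) (conv z')) ≤
        N (vec (mat θ) (conv z)) → conv z' = 0 ∨ conv z' = conv z ∨ conv z' = -conv z) ↔
      (|z'.1| ≤ |z.1| → N (err θ z') ≤ N (err θ z) → z' = 0 ∨ z' = z ∨ z' = -z)) := by
    intro z'
    rw [ab_cv, ab_cv, vec_conv, vec_conv, conv_fst, conv_fst, Int.cast_le]
    have e1 : conv z' = 0 ↔ z' = 0 := by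
      rw [← map_zero conv]; exact conv.injective.eq_iff
    have e2 : conv z' = conv z ↔ z' = z := conv.injective.eq_iff
    have e3 : conv z' = -conv z ↔ z' = -z := by
      rw [← map_neg conv]; exact conv.injective.eq_iff
    rw [e1, e2, e3]
  unfold IsBest Best
  rw [hx]
  constructor
  · rintro ⟨h1, h2⟩
    exact ⟨⟨fun h => h1 (by rw [h]; rfl), fun z' => (key z').1 (h2 (conv z'))⟩, h1⟩
  · rintro ⟨⟨-, h2⟩, h3⟩
    refine ⟨h3, fun w => ?_⟩
    obtain ⟨z', rfl⟩ := conv.surjective w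
    exact (key z').2 (h2 z')

/-- From a plain enumeration to one with `x ≠ 0`. -/
theorem Enumeration.conv {N : (Fin 2 → ℝ) → ℝ} {θ : Fin 2 → ℝ} {z : ℕ → ℤ × (Fin 2 → ℤ)}
    (hz : Enumeration N θ z) : ∃ k : ℕ, IsEnum ab N (mat θ) fun ν => conv (z (ν + k)) := by
  have h0 : ∀ ν, 2 ≤ ν → (z ν).1 ≠ 0 := by
    intro ν hν h
    have := hz.2.1 1 ν le_rfl (by omega)
    rw [h] at this
    simp at this
    have := abs_nonneg (z 1).1
    omega
  have hlt : ∀ (k i j : ℕ), 1 ≤ i → i < j →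
      ab (cv (EP.conv (z (i + k))).1) < ab (cv (EP.conv (z (j + k))).1) := by
    intro k i j hi hij
    rw [ab_cv, ab_cv, conv_fst, conv_fst, Int.cast_lt]
    exact hz.2.1 _ _ (by omega) (by omega)
  by_cases h1 : (z 1).1 = 0
  · refine ⟨1, fun ν hν => best_conv.2 ⟨hz.1 _ (by omega), h0 _ (by omega)⟩, hlt 1, fun v hv => ?_⟩
    obtain ⟨w, rfl⟩ := EP.conv.surjective v
    obtain ⟨hw, hw0⟩ := best_conv.1 hv
    obtain ⟨ν, hν, e⟩ := hz.2.2 w hw
    have hν1 : ν ≠ 1 := by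
      rintro rfl
      apply hw0
      rcases e with e | e
      · rw [e, h1]
      · rw [e]; simp [h1]
    refine ⟨ν - 1, by omega, ?_⟩
    change EP.conv w = EP.conv (z (ν - 1 + 1)) ∨ EP.conv w = -EP.conv (z (ν - 1 + 1))
    rw [show ν - 1 + 1 = ν by omega]
    rcases e with e | e
    · exact Or.inl (by rw [e])
    · exact Or.inr (by rw [e, map_neg])
  · refine ⟨0, fun ν hν => best_conv.2 ⟨hz.1 _ (by omega), ?_⟩, hlt 0, fun v hv => ?_⟩
    · rcases Nat.eq_or_lt_of_le hν with e | e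
      · rw [← e]; exact h1
      · exact h0 _ (by omega)
    · obtain ⟨w, rfl⟩ := EP.conv.surjective v
      obtain ⟨hw, hw0⟩ := best_conv.1 hv
      obtain ⟨ν, hν, e⟩ := hz.2.2 w hw
      refine ⟨ν, hν, ?_⟩
      rcases e with e | e
      · exact Or.inl (by rw [e]; rfl)
      · exact Or.inr (by rw [e, map_neg]; rfl)

/-- lower bounds for a plain enumeration -/
theorem Enumeration.lower_of {N : (Fin 2 → ℝ) → ℝ} {θ : Fin 2 → ℝ} {z : ℕ → ℤ × (Fin 2 → ℤ)}
    (hz : Enumeration N θ z) {t : ℝ} (ht : 1 ≤ t)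
    (h : ∀ y, IsEnum ab N (mat θ) y → ∃ C : ℝ, 0 < C ∧ ∀ ν, 1 ≤ ν → C * t ^ ν ≤ ab (cv (y ν).1)) :
    ∃ C : ℝ, 0 < C ∧ ∃ ν₀ : ℕ, ∀ ν, ν₀ ≤ ν → C * t ^ ν ≤ ((|(z ν).1| : ℤ) : ℝ) := by
  obtain ⟨k, hk⟩ := hz.conv
  obtain ⟨C, hC, hb⟩ := h _ hk
  have ht0 : 0 < t := by linarith
  refine ⟨C / t ^ k, by positivity, k + 1, fun ν hν => ?_⟩
  obtain ⟨m, rfl⟩ := Nat.exists_eq_add_of_le hν
  have h1 := hb (m + 1) (by omega)
  rw [ab_cv, conv_fst, show m + 1 + k = k + 1 + m by ring] at h1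
  calc C / t ^ k * t ^ (k + 1 + m) = C * t ^ (m + 1) := by
        rw [show k + 1 + m = k + (m + 1) by ring, pow_add]; field_simp
    _ ≤ _ := h1

theorem liminf_ge' {M : ℕ → ℝ} {C φ : ℝ} {ν₀ : ℕ} (hC : 0 < C) (hφ : 0 < φ)
    (h : ∀ ν, ν₀ ≤ ν → C * φ ^ ν ≤ M ν) :
    (φ : EReal) ≤ liminf (fun ν : ℕ => ((M ν ^ (1 / (ν : ℝ)) : ℝ) : EReal)) atTop := by
  rw [← (tendsto_const_root (φ := φ) hC).liminf_eq]
  refine liminf_le_liminf ?_
  filter_upwards [eventually_ge_atTop (max ν₀ 1)] with ν hν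
  rw [EReal.coe_le_coe_iff, ← root_eq hC hφ ((le_max_right _ _).trans hν)]
  exact Real.rpow_le_rpow (by positivity) (h ν ((le_max_left _ _).trans hν)) (by positivity)

/-- For the Euclidean norm no vector with `x = 0` is a best approximation vector. -/
theorem euc_no_zero {θ : Fin 2 → ℝ} {z : ℤ × (Fin 2 → ℤ)} (hz : Best euc θ z) : z.1 ≠ 0 := by
  intro h0
  obtain ⟨hne, hb⟩ := hz
  have hy : z.2 ≠ 0 := fun e => hne (Prod.ext h0 e)
  have h1 : 1 ≤ (z.2 0) ^ 2 + (z.2 1) ^ 2 := by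
    by_contra hlt
    push Not at hlt
    apply hy
    have a0 := sq_nonneg (z.2 0)
    have a1 := sq_nonneg (z.2 1)
    have b0 : (z.2 0) ^ 2 = 0 := by omega
    have b1 : (z.2 1) ^ 2 = 0 := by omega
    funext i
    fin_cases i
    · exact pow_eq_zero_iff (two_ne_zero) |>.1 b0
    · exact pow_eq_zero_iff (two_ne_zero) |>.1 b1
  have h1' : (1 : ℝ) ≤ (z.2 0 : ℝ) ^ 2 + (z.2 1 : ℝ) ^ 2 := by exact_mod_cast h1
  have k1 := hb (0, ![1, 0]) (by simp) (by
    rw [euc_le]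
    simp only [err, h0, Int.cast_zero, zero_mul, zero_sub, Matrix.cons_val_zero,
      Matrix.cons_val_one]
    simpa using h1')
  have k2 := hb (0, ![0, 1]) (by simp) (by
    rw [euc_le]
    simp only [err, h0, Int.cast_zero, zero_mul, zero_sub, Matrix.cons_val_zero,
      Matrix.cons_val_one]
    simpa using h1')
  have c1 : |z.2 0| = 1 ∧ z.2 1 = 0 := by
    rcases k1 with e | e | e
    · have := congrFun (congrArg Prod.snd e) 0
      simp at this
    · rw [← e]; simp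
    · have e' : z = -(0, ![1, 0]) := by rw [e, neg_neg]
      rw [e']; simp
  have c2 : z.2 0 = 0 := by
    rcases k2 with e | e | e
    · have := congrFun (congrArg Prod.snd e) 1
      simp at this
    · rw [← e]; simp
    · have e' : z = -(0, ![0, 1]) := by rw [e, neg_neg]
      rw [e']; simp
  rw [c2] at c1
  simp at c1

/-- The vector of the example. -/
noncomputable def th (φ : ℝ) : Fin 2 → ℝ := fun i => Th φ i 0

theorem mat_th (φ : ℝ) : mat (th φ) = Th φ := by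
  ext i j
  rw [Subsingleton.elim j 0]
  rfl

/-- The example in plain form. -/
theorem plain_example {φ : ℝ} (hφ : φ ^ 3 = φ + 1) :
    (∀ q : ℤ, q ≠ 0 → ¬ ∀ i : Fin 2, ∃ a : ℤ, (q : ℝ) * th φ i = (a : ℝ)) ∧
    ∃ z, Enumeration euc (th φ) z ∧ ∃ C : ℝ, 0 < C ∧ ∀ ν, 1 ≤ ν →
      ((|(z ν).1| : ℤ) : ℝ) ≤ C * φ ^ ν := by
  constructor
  · intro q hq h
    choose a ha using h
    refine Th_star hφ (fun _ => q) (fun e => hq (congrFun e 0)) a ?_
    funext i
    rw [← ha i, mul_comm]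
    simp [Matrix.mulVec, dotProduct, th]
  · obtain ⟨⟨y, hy⟩, C, hC, hb⟩ := example_growth hφ ab_norm
    refine ⟨fun ν => conv.symm (y ν), ⟨fun ν hν => ?_, fun i j hi hij => ?_, fun v hv => ?_⟩, C, hC,
      fun ν hν => ?_⟩
    · have := hy.1 ν hν
      rw [← mat_th, ← conv.apply_symm_apply (y ν)] at this
      exact (best_conv.1 this).1
    · have := hy.2.1 i j hi hij
      rw [ab_cv, ab_cv, Int.cast_lt] at this
      exact this
    · have h1 : IsBest ab euc (Th φ) (conv v) := by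
        rw [← mat_th]
        exact best_conv.2 ⟨hv, euc_no_zero hv⟩
      obtain ⟨ν, hν, e⟩ := hy.2.2 _ h1
      refine ⟨ν, hν, ?_⟩
      change v = conv.symm (y ν) ∨ v = -conv.symm (y ν)
      rcases e with e | e
      · left; rw [← e, conv.symm_apply_apply]
      · right; rw [← map_neg, ← e, conv.symm_apply_apply]
    · have := hb y hy ν hν
      rw [ab_cv] at this
      exact this

end Q277.EP
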